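import Pool.Agent.Lib.MP_ca71b5_ntX.G0
set_option autoImplicit false
open scoped Matrix NumberField

/-! Definitions for the theorem on representations over all discrete valuation rings
(MP_ca71b5_nt, helper46, paper 557). -/

namespace Pool.Agent.MPca71Y

open Pool.Agent.MPca71X

/-- The pairs `(G j, Y j)` detect every nonzero alternating form of rank `≤ r` over every field
of characteristic `p`. -/
def GoodK (p t d r : ℕ) (G Y : Matrix (Fin t) (Fin d) (ZMod p)) : Prop :=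
  ∀ (k : Type) [Field k] [Algebra (ZMod p) k] (B : Matrix (Fin d) (Fin d) k),
    (∀ i, B i i = 0) → (∀ i i', B i i' = - B i' i) → B.rank ≤ r →
    (∀ j, ∑ i, ∑ i', algebraMap (ZMod p) k (G j i) * B i i' * algebraMap (ZMod p) k (Y j i') = 0) →
    B = 0

/-- The matrix `A` is congruent to `1` modulo the `m`-th power of the maximal ideal. -/
def Lv {R ι : Type} [CommRing R] [IsLocalRing R] [DecidableEq ι] (m : ℕ) (A : Matrix ι ι R) :
    Prop :=
  ∀ i j, (A - 1) i j ∈ IsLocalRing.maximalIdeal R ^ m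

/-- Every product of at least `N` of the matrices `M g - 1` is `0` modulo the maximal ideal. -/
def Nil {R ι Γ : Type} [CommRing R] [IsLocalRing R] [Fintype ι] [DecidableEq ι] [Group Γ] (N : ℕ)
    (M : Γ →* Matrix ι ι R) : Prop :=
  ∀ l : List Γ, N ≤ l.length →
    ∀ i j, (l.map (fun g => M g - 1)).prod i j ∈ IsLocalRing.maximalIdeal R

/-- Every finite Galois extension of `k` inside the field cut out by `ρ` has `p`-power degree and
is unramified at all finite primes. -/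
def UnrPro (p : ℕ) (k Ω : Type) [Field k] [Field Ω] [Algebra k Ω] {H : Type} [Group H]
    (ρ : (Ω ≃ₐ[k] Ω) →* H) : Prop :=
  ∀ L : IntermediateField k Ω, L ≤ IntermediateField.fixedField ρ.ker → FiniteDimensional k L →
    IsGalois k L → (∃ j : ℕ, Module.finrank k L = p ^ j) ∧ Algebra.Unramified (𝓞 k) (𝓞 L)

/-- The data coming from number theory (compare `FMData` in ntX/G0): `Γ = Gal(Ω/F)`, `I` the set of
inertial elements, `K0` the subgroup of index `p` belonging to `K`, characters `χ i` with dual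
elements `w i`, inertia and Frobenius elements `x j`, `y j`. -/
structure FMD (p t d : ℕ) (Γ : Type) [Group Γ] [TopologicalSpace Γ] (I : Set Γ)
    (K0 : Subgroup Γ) (χ : Fin d → Γ → ZMod p) (x y : Fin t → Γ) (u : Fin t → ZMod p)
    (G Y : Matrix (Fin t) (Fin d) (ZMod p)) (w : Fin d → Γ) : Prop where
  Iconj : ∀ g ∈ I, ∀ τ : Γ, τ * g * τ⁻¹ ∈ I
  Ipow : ∀ g ∈ I, ∀ k : ℕ, g ^ k ∈ I
  K0n : K0.Normal
  K0o : IsOpen (K0 : Set Γ)
  K0i : K0.index = p
  U : ∀ N : Subgroup Γ, N.Normal → IsOpen (N : Set Γ) → (∀ g : Γ, ∃ k : ℕ, g ^ p ^ k ∈ N) →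
    I ⊆ N → N = ⊤
  GEN : ∀ φ ∈ chs p Γ, IsOpen {g : Γ | φ g = 0} → (∀ g ∈ I, g ∈ K0 → φ g = 0) →
    ∃ a : Fin d → ZMod p, ∀ g, φ g = ∑ i, a i * χ i g
  xy : ∀ j, x j * y j * (x j)⁻¹ * (y j)⁻¹ ∈ I ∧ x j * y j * (x j)⁻¹ * (y j)⁻¹ ∈ K0
  chs : ∀ i, χ i ∈ chs p Γ
  chx : ∀ i j, χ i (x j) = u j * G j i
  une : ∀ j, u j ≠ 0
  chy : ∀ i j, χ i (y j) = Y j i
  dual : ∀ i i', (χ i (w i') ≠ 0 ↔ i = i')
  opn : ∀ i, IsOpen {g : Γ | χ i g = 0}
  DK : ∀ g, (∀ i, χ i g = 0) → g ∈ K0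

end Pool.Agent.MPca71Y
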