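import Pool.Agent.Lib.MP_ca71b5_ntY.D0
import Pool.Agent.Lib.MP_ca71b5_ntW.C2

section

section
set_option autoImplicit false

/-! Job I1 (medium): the induced representation. -/

namespace Pool.Agent.MPca71Y

section
variable {Γ : Type} [Group Γ] (K0 : Subgroup Γ)

private theorem i1_mem (g : Γ) (t : Γ ⧸ K0) :
    (Quotient.out (g • t))⁻¹ * (g * Quotient.out t) ∈ K0 := by
  rw [← QuotientGroup.eq, QuotientGroup.out_eq']
  exact (MulAction.Quotient.coe_smul_out (H := K0) g t).symm

/-- the element of `K0` that compares the representatives -/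
private noncomputable def i1_h (g : Γ) (t : Γ ⧸ K0) : K0 :=
  ⟨(Quotient.out (g • t))⁻¹ * (g * Quotient.out t), i1_mem K0 g t⟩

private theorem i1_h_one (t : Γ ⧸ K0) : i1_h K0 1 t = 1 := by
  apply Subtype.ext
  show (Quotient.out ((1 : Γ) • t))⁻¹ * (1 * Quotient.out t) = 1
  rw [one_smul, one_mul, inv_mul_cancel]

private theorem i1_h_mul (g g' : Γ) (t : Γ ⧸ K0) :
    i1_h K0 (g * g') t = i1_h K0 g (g' • t) * i1_h K0 g' t := by
  apply Subtype.ext
  show (Quotient.out ((g * g') • t))⁻¹ * (g * g' * Quotient.out t) =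
    ((Quotient.out (g • g' • t))⁻¹ * (g * Quotient.out (g' • t))) *
      ((Quotient.out (g' • t))⁻¹ * (g' * Quotient.out t))
  rw [mul_smul]
  group

private theorem i1_smul [K0.Normal] {g : Γ} (hg : g ∈ K0) (t : Γ ⧸ K0) : g • t = t := by
  rw [← MulAction.Quotient.coe_smul_out (H := K0) g t]
  show ((g * Quotient.out t : Γ) : Γ ⧸ K0) = t
  rw [QuotientGroup.mk_mul, QuotientGroup.out_eq', (QuotientGroup.eq_one_iff g).2 hg, one_mul]

open scoped Classical in
/-- the induced matrix -/
private noncomputable def i1_M {R : Type} [CommRing R] {n : ℕ}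
    (ρ : K0 →* Matrix (Fin n) (Fin n) R) (g : Γ) :
    Matrix ((Γ ⧸ K0) × Fin n) ((Γ ⧸ K0) × Fin n) R :=
  fun p q => if p.1 = g • q.1 then ρ (i1_h K0 g q.1) p.2 q.2 else 0

open scoped Classical in
private theorem i1_M_one {R : Type} [CommRing R] {n : ℕ}
    (ρ : K0 →* Matrix (Fin n) (Fin n) R) : i1_M K0 ρ 1 = 1 := by
  ext p q
  unfold i1_M
  rw [one_smul, i1_h_one, map_one, Matrix.one_apply, Matrix.one_apply]
  by_cases h1 : p.1 = q.1
  · rw [if_pos h1]
    by_cases h2 : p.2 = q.2
    · rw [if_pos h2, if_pos (Prod.ext h1 h2)]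
    · rw [if_neg h2, if_neg (fun h => h2 (by rw [h]))]
  · rw [if_neg h1, if_neg (fun h => h1 (by rw [h]))]

open scoped Classical in
private theorem i1_M_mul {R : Type} [CommRing R] {n : ℕ} [Fintype (Γ ⧸ K0)]
    (ρ : K0 →* Matrix (Fin n) (Fin n) R) (g g' : Γ) :
    i1_M K0 ρ (g * g') = i1_M K0 ρ g * i1_M K0 ρ g' := by
  ext p q
  rw [Matrix.mul_apply, Fintype.sum_prod_type, Finset.sum_eq_single (g' • q.1)]
  · unfold i1_M
    simp only [if_true]
    rw [mul_smul, i1_h_mul, map_mul]
    by_cases h1 : p.1 = g • g' • q.1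
    · simp only [if_pos h1]
      rw [Matrix.mul_apply]
    · simp only [if_neg h1, zero_mul, Finset.sum_const_zero]
  · intro t _ ht
    refine Finset.sum_eq_zero fun k _ => ?_
    unfold i1_M
    simp only [if_neg ht, mul_zero]
  · intro h
    exact absurd (Finset.mem_univ _) h

end

/-- `ι = (Γ ⧸ K0) × Fin n`, `s t = Quotient.out t` (a representative of the coset `t`), for `g : Γ` and `t : Γ ⧸ K0`:
`g * s t = s (g • t) * h g t` with `h g t = (s (g • t))⁻¹ * g * s t ∈ K0`, and `h (g g') t = h g (g' • t) * h g' t`.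
`M g ((t', i), (t, j)) = if t' = g • t then ρ (h g t) i j else 0`. Multiplicativity: only `t'' = g' • t` contributes
in the product. If `g ∈ K0` and `M g = 1`: for `t = 1`, `s t ∈ K0`, the diagonal block is `ρ ((s t)⁻¹ g (s t)) = 1` (`g • t = t` as `K0` is normal),
so `ρ g = 1`. Congruence: if all conjugates `τ g τ⁻¹` are in `K0` then `g ∈ K0`, `g • t = t`, `M g` is block diagonal with blocks
`ρ ((s t)⁻¹ g (s t))` (take `τ = (s t)⁻¹`). -/
theorem exists_ind {Γ : Type} [Group Γ] (K0 : Subgroup Γ) [K0.Normal] [K0.FiniteIndex] {R : Type}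
    [CommRing R] {n : ℕ} (ρ : K0 →* Matrix (Fin n) (Fin n) R) :
    ∃ (ι : Type) (_ : Fintype ι) (_ : DecidableEq ι) (M : Γ →* Matrix ι ι R),
      Fintype.card ι = K0.index * n ∧ (∀ g : K0, M g = 1 → ρ g = 1) ∧
      ∀ (a : Ideal R) (g : Γ), (∀ τ : Γ, ∃ h : τ * g * τ⁻¹ ∈ K0, ∀ i j,
        (ρ ⟨τ * g * τ⁻¹, h⟩ - 1) i j ∈ a) → ∀ i j, (M g - 1) i j ∈ a := by
  classical
  haveI : Finite (Γ ⧸ K0) := Subgroup.finite_quotient_of_finiteIndex
  letI : Fintype (Γ ⧸ K0) := Fintype.ofFinite _
  refine ⟨(Γ ⧸ K0) × Fin n, inferInstance, inferInstance,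
    { toFun := i1_M K0 ρ, map_one' := i1_M_one K0 ρ, map_mul' := i1_M_mul K0 ρ }, ?_, ?_, ?_⟩
  · rw [Fintype.card_prod, Fintype.card_fin, Subgroup.index_eq_card, Nat.card_eq_fintype_card]
  · intro g hg
    have hg' : i1_M K0 ρ (g : Γ) = 1 := hg
    have hgm : (g : Γ) ∈ K0 := g.2
    have ht : (g : Γ) • ((1 : Γ) : Γ ⧸ K0) = ((1 : Γ) : Γ ⧸ K0) := i1_smul K0 hgm _
    have hs : Quotient.out ((1 : Γ) : Γ ⧸ K0) ∈ K0 := by
      rw [← QuotientGroup.eq_one_iff, QuotientGroup.out_eq']
      rfl
    set c : K0 := ⟨Quotient.out ((1 : Γ) : Γ ⧸ K0), hs⟩ with hc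
    have hh : i1_h K0 (g : Γ) ((1 : Γ) : Γ ⧸ K0) = c⁻¹ * g * c := by
      apply Subtype.ext
      show (Quotient.out ((g : Γ) • ((1 : Γ) : Γ ⧸ K0)))⁻¹ *
        ((g : Γ) * Quotient.out ((1 : Γ) : Γ ⧸ K0)) =
        (Quotient.out ((1 : Γ) : Γ ⧸ K0))⁻¹ * (g : Γ) * Quotient.out ((1 : Γ) : Γ ⧸ K0)
      rw [ht, mul_assoc]
    have h1 : ρ (c⁻¹ * g * c) = 1 := by
      ext i j
      have h2 := congrFun (congrFun hg' (((1 : Γ) : Γ ⧸ K0), i)) (((1 : Γ) : Γ ⧸ K0), j)
      unfold i1_M at h2
      simp only [ht, if_true] at h2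
      rw [hh] at h2
      rw [h2, Matrix.one_apply, Matrix.one_apply]
      by_cases hij : i = j
      · rw [hij, if_pos rfl, if_pos rfl]
      · rw [if_neg hij, if_neg (fun h => hij (Prod.ext_iff.1 h).2)]
    have h3 : g = c * (c⁻¹ * g * c) * c⁻¹ := by group
    rw [h3, map_mul, map_mul, h1, mul_one, ← map_mul, mul_inv_cancel, map_one]
  · intro a g hg p q
    have hgm : g ∈ K0 := by
      obtain ⟨h, -⟩ := hg 1
      simpa using h
    show (i1_M K0 ρ g - 1) p q ∈ a
    obtain ⟨h, h1⟩ := hg (Quotient.out q.1)⁻¹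
    have hh : i1_h K0 g q.1 = ⟨(Quotient.out q.1)⁻¹ * g * ((Quotient.out q.1)⁻¹)⁻¹, h⟩ := by
      apply Subtype.ext
      show (Quotient.out (g • q.1))⁻¹ * (g * Quotient.out q.1) =
        (Quotient.out q.1)⁻¹ * g * ((Quotient.out q.1)⁻¹)⁻¹
      rw [i1_smul K0 hgm, inv_inv, mul_assoc]
    have h2 := h1 p.2 q.2
    rw [← hh] at h2
    rw [Matrix.sub_apply] at h2 ⊢
    rw [Matrix.one_apply] at h2 ⊢
    unfold i1_M
    rw [i1_smul K0 hgm]
    by_cases h3 : p.1 = q.1
    · rw [if_pos h3]
      by_cases h4 : p.2 = q.2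
      · rw [if_pos h4] at h2
        rw [if_pos (Prod.ext h3 h4)]
        exact h2
      · rw [if_neg h4] at h2
        rw [if_neg (fun h => h4 (by rw [h]))]
        exact h2
    · rw [if_neg h3, if_neg (fun h => h3 (by rw [h])), sub_zero]
      exact a.zero_mem

end Pool.Agent.MPca71Y
end

section
set_option autoImplicit false

/-! Job R1 (medium): the filtration. -/

namespace Pool.Agent.MPca71Y

variable {R Γ ι : Type} [CommRing R] [IsLocalRing R] [Group Γ] [Fintype ι] [DecidableEq ι]

/-- The `R`-span of the matrices `M g - 1`. -/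
def JJ (M : Γ →* Matrix ι ι R) : Submodule R (Matrix ι ι R) :=
  Submodule.span R (Set.range fun g => M g - 1)

/-- The matrices with all entries in the ideal `I`. -/
def EM (ι : Type) {R : Type} [CommRing R] (I : Ideal R) : Submodule R (Matrix ι ι R) where
  carrier := {A | ∀ i j, A i j ∈ I}
  zero_mem' := fun _ _ => I.zero_mem
  add_mem' := fun ha hb i j => I.add_mem (ha i j) (hb i j)
  smul_mem' := fun c _ ha i j => I.mul_mem_left c (ha i j)

/-- `JJ M + (matrices with entries in the maximal ideal)`. -/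
def AA (M : Γ →* Matrix ι ι R) : Submodule R (Matrix ι ι R) :=
  JJ M ⊔ EM ι (IsLocalRing.maximalIdeal R)

theorem mem_EM {I : Ideal R} {A : Matrix ι ι R} : A ∈ EM ι I ↔ ∀ i j, A i j ∈ I := Iff.rfl

theorem sub_one_mem_JJ (M : Γ →* Matrix ι ι R) (g : Γ) : M g - 1 ∈ JJ M :=
  Submodule.subset_span ⟨g, rfl⟩

/-- `(M g - 1)(M h - 1) = (M (g h) - 1) - (M g - 1) - (M h - 1)` (`Submodule.mul_le` on spans,
`Submodule.span_mul_span`). -/
theorem JJ_mul_le (M : Γ →* Matrix ι ι R) : JJ M * JJ M ≤ JJ M := by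
  rw [JJ, Submodule.span_mul_span, Submodule.span_le]
  rintro _ ⟨_, ⟨g, rfl⟩, _, ⟨h, rfl⟩, rfl⟩
  have e : (M g - 1) * (M h - 1) = (M (g * h) - 1) - (M g - 1) - (M h - 1) := by
    rw [map_mul]
    noncomm_ring
  change (M g - 1) * (M h - 1) ∈ Submodule.span R (Set.range fun g => M g - 1)
  rw [e]
  exact Submodule.sub_mem _ (Submodule.sub_mem _ (sub_one_mem_JJ M _) (sub_one_mem_JJ M _))
    (sub_one_mem_JJ M _)

theorem EM_mul_le (I I' : Ideal R) : EM ι I * EM ι I' ≤ EM ι (I * I') := by
  rw [Submodule.mul_le]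
  intro A hA B hB i j
  rw [Matrix.mul_apply]
  exact Ideal.sum_mem _ fun k _ => Ideal.mul_mem_mul (hA i k) (hB k j)

/-- `JJ M ^ N ≤ EM (maximalIdeal)` for `N ≥ 1` from `Nil` (the powers of a span are spanned by the products of
`N` generators), and `AA M ^ N ≤ JJ M ^ N ⊔ EM (maximalIdeal)` because `EM I` is a two-sided ideal. -/
theorem AA_pow_le {M : Γ →* Matrix ι ι R} {N : ℕ} (hN : Nil N M) (hN1 : 1 ≤ N) :
    AA M ^ N ≤ EM ι (IsLocalRing.maximalIdeal R) := by
  have h1 : ∀ S : Submodule R (Matrix ι ι R),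
      S * EM ι (IsLocalRing.maximalIdeal R) ≤ EM ι (IsLocalRing.maximalIdeal R) := by
    intro S
    rw [Submodule.mul_le]
    intro A _ B hB i j
    rw [Matrix.mul_apply]
    exact Ideal.sum_mem _ fun k _ => Ideal.mul_mem_left _ _ (hB k j)
  have h2 : ∀ S : Submodule R (Matrix ι ι R),
      EM ι (IsLocalRing.maximalIdeal R) * S ≤ EM ι (IsLocalRing.maximalIdeal R) := by
    intro S
    rw [Submodule.mul_le]
    intro A hA B _ i j
    rw [Matrix.mul_apply]
    exact Ideal.sum_mem _ fun k _ => Ideal.mul_mem_right _ _ (hA i k)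
  have h3 : ∀ n, AA M ^ n ≤ JJ M ^ n ⊔ EM ι (IsLocalRing.maximalIdeal R) := by
    intro n
    induction n with
    | zero =>
      rw [pow_zero, pow_zero]
      exact le_sup_left
    | succ n ih =>
      rw [pow_succ, pow_succ]
      refine (mul_le_mul' ih le_rfl).trans ?_
      rw [AA, Submodule.sup_mul, Submodule.mul_sup]
      refine sup_le (sup_le le_sup_left ((h1 _).trans le_sup_right)) ((h2 _).trans le_sup_right)
  have h4 : JJ M ^ N ≤ EM ι (IsLocalRing.maximalIdeal R) := by
    rw [JJ, Submodule.span_pow, Submodule.span_le]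
    intro A hA
    rw [Set.mem_pow] at hA
    obtain ⟨f, rfl⟩ := hA
    have h5 : ∀ i, ∃ g : Γ, M g - 1 = (f i : Matrix ι ι R) := fun i => (f i).2
    choose g hg using h5
    have h6 : (List.ofFn fun i => (f i : Matrix ι ι R)) =
        (List.ofFn g).map (fun g => M g - 1) := by
      rw [List.map_ofFn]
      congr 1
      funext i
      exact (hg i).symm
    rw [h6]
    exact hN (List.ofFn g) (by rw [List.length_ofFn])
  exact (h3 N).trans (sup_le h4 le_rfl)

/-- `AA M ^ (N m) = (AA M ^ N) ^ m ≤ EM (maximalIdeal ^ m)`. -/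
theorem AA_pow_mul_le {M : Γ →* Matrix ι ι R} {N : ℕ} (hN : Nil N M) (hN1 : 1 ≤ N) (m : ℕ) :
    AA M ^ (N * m) ≤ EM ι (IsLocalRing.maximalIdeal R ^ m) := by
  rw [pow_mul]
  induction m with
  | zero =>
    intro A _ i j
    rw [pow_zero, Ideal.one_eq_top]
    exact Submodule.mem_top
  | succ m ih =>
    rw [pow_succ, pow_succ]
    exact (mul_le_mul' ih (AA_pow_le hN hN1)).trans (EM_mul_le _ _)

/-- Let `R` be a noetherian domain (local). If some `M x`, `M y` do not commute, there is `j ≥ 1`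
such that all commutators `M x * M y - M y * M x` are in `AA M ^ j` but not all of them are in
`AA M ^ (j + 1)`: `M x * M y - M y * M x = (M x - 1)(M y - 1) - (M y - 1)(M x - 1)` is in
`JJ M ≤ AA M ^ 1` (`JJ_mul_le`), and a nonzero commutator is not in `EM (maximalIdeal ^ m)` for some `m`
(Krull: `Ideal.iInf_pow_eq_bot_of_isDomain` or `_of_isLocalRing`), so not in `AA M ^ (N m)`; `Nat.find`. -/
theorem exists_depth [IsNoetherianRing R] [IsDomain R] {M : Γ →* Matrix ι ι R} {N : ℕ}
    (hN : Nil N M) (hN1 : 1 ≤ N) (hnc : ∃ x y, M x * M y ≠ M y * M x) :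
    ∃ j : ℕ, 1 ≤ j ∧ (∀ x y, M x * M y - M y * M x ∈ AA M ^ j) ∧
      ∃ x y, M x * M y - M y * M x ∉ AA M ^ (j + 1) := by
  have hP1 : ∀ x y, M x * M y - M y * M x ∈ AA M ^ 1 := by
    intro x y
    have e : M x * M y - M y * M x = (M x - 1) * (M y - 1) - (M y - 1) * (M x - 1) := by
      noncomm_ring
    rw [pow_one, e]
    have h1 : ∀ x y, (M x - 1) * (M y - 1) ∈ AA M := fun x y =>
      (JJ_mul_le M).trans le_sup_left
        (Submodule.mul_mem_mul (sub_one_mem_JJ M x) (sub_one_mem_JJ M y))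
    exact Submodule.sub_mem _ (h1 x y) (h1 y x)
  obtain ⟨x, y, hxy⟩ := hnc
  have hD : M x * M y - M y * M x ≠ 0 := sub_ne_zero.2 hxy
  obtain ⟨i, j, hij⟩ : ∃ i j, (M x * M y - M y * M x) i j ≠ 0 := by
    by_contra hcon
    push Not at hcon
    exact hD (Matrix.ext hcon)
  obtain ⟨m, hm⟩ : ∃ m : ℕ, (M x * M y - M y * M x) i j ∉ IsLocalRing.maximalIdeal R ^ m := by
    by_contra hcon
    push Not at hcon
    have h1 : (M x * M y - M y * M x) i j ∈ ⨅ m : ℕ, IsLocalRing.maximalIdeal R ^ m :=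
      (Submodule.mem_iInf _).2 hcon
    rw [Ideal.iInf_pow_eq_bot_of_isLocalRing _ (Ideal.IsPrime.ne_top inferInstance)] at h1
    exact hij ((Submodule.mem_bot R).1 h1)
  have hm1 : 1 ≤ m := by
    by_contra h
    have h0 : m = 0 := by omega
    rw [h0, pow_zero, Ideal.one_eq_top] at hm
    exact hm Submodule.mem_top
  have hex : ∃ k, ¬ ∀ x y, M x * M y - M y * M x ∈ AA M ^ (k + 1) := by
    refine ⟨N * m - 1, fun h => ?_⟩
    have h1 : 1 ≤ N * m := Nat.mul_pos hN1 hm1
    have h2 := h x y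
    rw [Nat.sub_add_cancel h1] at h2
    exact hm (AA_pow_mul_le hN hN1 m h2 i j)
  classical
  have hk := Nat.find_spec hex
  have hk0 : Nat.find hex ≠ 0 := by
    intro h0
    rw [h0] at hk
    exact hk hP1
  refine ⟨Nat.find hex, Nat.one_le_iff_ne_zero.2 hk0, ?_, ?_⟩
  · have h1 := Nat.find_min hex (m := Nat.find hex - 1) (by omega)
    rw [not_not, Nat.sub_add_cancel (by omega)] at h1
    exact h1
  · by_contra hcon
    apply hk
    intro x y
    by_contra h
    exact hcon ⟨x, y, h⟩

end Pool.Agent.MPca71Y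
end

section
set_option autoImplicit false

/-! Job G1 (medium-easy): characters with values in a field of characteristic `p`. -/

namespace Pool.Agent.MPca71Y

open Pool.Agent.MPca71X

/-- For every `ZMod p`-linear `ℓ : k → ZMod p` the function `ψ = ℓ ∘ φ` is in `chs p Γ`, its zero set is open (it is
a subgroup containing `N`, `Subgroup.isOpen_mono`) and it vanishes on `I ∩ K0`, so `ψ = ∑ a i χ i` (`GEN`);
at `w i`: `ψ (w i) = a i χ i (w i)` (`dual`). So `ℓ (right side) = ∑ χ i g (χ i (w i))⁻¹ ψ (w i) = ψ g = ℓ (φ g)` for all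
`ℓ`, and the functionals separate points (`Module.forall_dual_apply_eq_zero_iff`). -/
theorem gen_k {p t d : ℕ} [Fact p.Prime] {Γ : Type} [Group Γ] [TopologicalSpace Γ]
    [IsTopologicalGroup Γ] {I : Set Γ} {K0 : Subgroup Γ} {χ : Fin d → Γ → ZMod p}
    {x y : Fin t → Γ} {u : Fin t → ZMod p} {G Y : Matrix (Fin t) (Fin d) (ZMod p)}
    {w : Fin d → Γ} (h : FMD p t d Γ I K0 χ x y u G Y w) {k : Type} [Field k]
    [Algebra (ZMod p) k] (φ : Γ → k) (hφ : ∀ a b, φ (a * b) = φ a + φ b)
    (ho : ∃ N : Subgroup Γ, IsOpen (N : Set Γ) ∧ ∀ g ∈ N, φ g = 0)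
    (hI : ∀ g ∈ I, g ∈ K0 → φ g = 0) (g : Γ) :
    φ g = ∑ i, algebraMap (ZMod p) k (χ i g * (χ i (w i))⁻¹) * φ (w i) := by
  rw [← sub_eq_zero, ← Module.forall_dual_apply_eq_zero_iff (ZMod p)]
  intro l
  have h1 : φ 1 = 0 := by
    have h2 := hφ 1 1
    rw [mul_one] at h2
    exact left_eq_add.1 h2
  have hinv : ∀ a, φ a⁻¹ = -φ a := by
    intro a
    have h2 := hφ a⁻¹ a
    rw [inv_mul_cancel, h1] at h2
    exact eq_neg_of_add_eq_zero_left h2.symm
  have hch : (fun a => l (φ a)) ∈ chs p Γ := by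
    intro a b
    change l (φ (a * b)) = l (φ a) + l (φ b)
    rw [hφ, map_add]
  let Z : Subgroup Γ :=
    { carrier := {a | l (φ a) = 0}
      one_mem' := by
        change l (φ 1) = 0
        rw [h1, map_zero]
      mul_mem' := by
        intro a b ha hb
        change l (φ (a * b)) = 0
        rw [hφ, map_add, show l (φ a) = 0 from ha, show l (φ b) = 0 from hb, add_zero]
      inv_mem' := by
        intro a ha
        change l (φ a⁻¹) = 0
        rw [hinv, map_neg, show l (φ a) = 0 from ha, neg_zero] }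
  obtain ⟨N, hN, hN0⟩ := ho
  have hopen : IsOpen {a : Γ | l (φ a) = 0} := by
    refine Subgroup.isOpen_mono (H₁ := N) (H₂ := Z) ?_ hN
    intro a ha
    change l (φ a) = 0
    rw [hN0 a ha, map_zero]
  obtain ⟨a, ha⟩ := h.GEN (fun a => l (φ a)) hch hopen fun b hb hb' => by
    change l (φ b) = 0
    rw [hI b hb hb', map_zero]
  have hai : ∀ i, l (φ (w i)) = a i * χ i (w i) := by
    intro i
    have h2 : l (φ (w i)) = ∑ j, a j * χ j (w i) := ha (w i)
    rw [h2, Finset.sum_eq_single i]
    · intro j _ hj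
      have h3 : χ j (w i) = 0 := by
        by_contra h4
        exact hj ((h.dual j i).1 h4)
      rw [h3, mul_zero]
    · intro h3
      exact absurd (Finset.mem_univ i) h3
  have hg : l (φ g) = ∑ i, a i * χ i g := ha g
  rw [map_sub, map_sum, hg, sub_eq_zero]
  refine Finset.sum_congr rfl fun i _ => ?_
  rw [← Algebra.smul_def, map_smul, hai, smul_eq_mul]
  have h5 : χ i (w i) ≠ 0 := (h.dual i i).2 rfl
  field_simp

end Pool.Agent.MPca71Y
end
end

section

section
set_option autoImplicit false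
open scoped Matrix

/-! Job C1 (medium): low rank matrices with all twisted antidiagonal sums zero vanish. -/

namespace Pool.Agent.MPca71Y

/-- Suppose `B ≠ 0`. Let `s` be the smallest value of `i + j` with `B i j ≠ 0`, and
`J = {j | B (s - j) j ≠ 0}` (pairs `i + j = s`). The vector `c j = B (s - j) j`, `j ∈ J`, satisfies
`∑ j ∈ J, c j (g ^ j) ^ l = 0` for `l < r`. If `#J ≤ r`, the Vandermonde matrix of the distinct numbers
`g ^ j`, `j ∈ J`, `l < #J` (`Matrix.det_vandermonde_ne_zero_iff`), gives `c = 0`, impossible. So there are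
`r + 1` elements `j_0 < … < j_r` of `J`; the submatrix with rows `s - j_a` and columns `j_b` is triangular:
its entry `(s - j_a, j_b)` has `i + j = s - j_a + j_b < s` for `b < a`, so it is `0`, and the diagonal
entries are `c (j_a) ≠ 0`; so its determinant is nonzero and `B.rank ≥ r + 1`
(`Matrix.rank_submatrix_le` or a lower bound of the rank by an invertible submatrix). -/
theorem antidiag {k : Type} [Field k] {d r : ℕ} (B : Matrix (Fin d) (Fin d) k) (g : k)
    (hg : ∀ i j : Fin d, g ^ (i : ℕ) = g ^ (j : ℕ) → i = j) (hr : B.rank ≤ r)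
    (h : ∀ s : ℕ, ∀ l < r, ∑ i : Fin d, ∑ j : Fin d,
      (if (i : ℕ) + (j : ℕ) = s then B i j * (g ^ l) ^ (j : ℕ) else 0) = 0) : B = 0 := by
  classical
  by_contra hB
  have hex : ∃ s : ℕ, ∃ i j : Fin d, (i : ℕ) + (j : ℕ) = s ∧ B i j ≠ 0 := by
    by_contra hcon
    push Not at hcon
    apply hB
    ext i j
    exact hcon _ i j rfl
  obtain ⟨i0, j0, hij0, hB0⟩ := Nat.find_spec hex
  set s := Nat.find hex with hs
  have hmin : ∀ i j : Fin d, (i : ℕ) + (j : ℕ) < s → B i j = 0 := by
    intro i j hij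
    by_contra hne
    exact Nat.find_min hex hij ⟨i, j, rfl, hne⟩
  let c : Fin d → k := fun j => ∑ i : Fin d, if (i : ℕ) + (j : ℕ) = s then B i j else 0
  have hc1 : ∀ i j : Fin d, (i : ℕ) + (j : ℕ) = s → c j = B i j := by
    intro i j hij
    have : c j = ∑ i' : Fin d, if i' = i then B i' j else 0 := by
      apply Finset.sum_congr rfl
      intro i' _
      by_cases hi : i' = i
      · subst hi; rw [if_pos hij, if_pos rfl]
      · rw [if_neg hi, if_neg]
        intro he
        apply hi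
        apply Fin.ext
        omega
    rw [this, Finset.sum_ite_eq' Finset.univ i (fun i' => B i' j), if_pos (Finset.mem_univ _)]
  have hc2 : ∀ j : Fin d, c j ≠ 0 → ∃ i : Fin d, (i : ℕ) + (j : ℕ) = s ∧ B i j ≠ 0 := by
    intro j hj
    by_contra hcon
    push Not at hcon
    apply hj
    apply Finset.sum_eq_zero
    intro i _
    split_ifs with he
    · exact hcon i he
    · rfl
  have hsum : ∀ l < r, ∑ j : Fin d, c j * (g ^ (j : ℕ)) ^ l = 0 := by
    intro l hl
    rw [← h s l hl, Finset.sum_comm]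
    apply Finset.sum_congr rfl
    intro j _
    simp only [c]
    rw [Finset.sum_mul]
    apply Finset.sum_congr rfl
    intro i _
    split_ifs with he
    · rw [← pow_mul, ← pow_mul, Nat.mul_comm]
    · rw [zero_mul]
  let J : Finset (Fin d) := Finset.univ.filter fun j => c j ≠ 0
  have hJ : ∀ j, j ∈ J ↔ c j ≠ 0 := by intro j; simp [J]
  have hj0 : j0 ∈ J := by
    rw [hJ, hc1 i0 j0 hij0]; exact hB0
  have hcard : r + 1 ≤ J.card := by
    by_contra hlt
    have hle : J.card ≤ r := by omega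
    let e := J.orderEmbOfFin rfl
    let v : Fin J.card → k := fun a => g ^ ((e a : Fin d) : ℕ)
    have hv : Function.Injective v := fun a b hab => e.injective (hg _ _ hab)
    have hdet : (Matrix.vandermonde v).det ≠ 0 := Matrix.det_vandermonde_ne_zero_iff.2 hv
    have hz : (fun a => c (e a)) ᵥ* Matrix.vandermonde v = 0 := by
      ext l
      simp only [Matrix.vecMul, dotProduct, Matrix.vandermonde_apply, Pi.zero_apply, v]
      have key : ∀ f : Fin d → k, ∑ a, f (e a) = ∑ j ∈ J, f j := by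
        intro f
        have h2 : Finset.univ.image e = J := J.image_orderEmbOfFin_univ rfl
        have h3 : ∑ j ∈ Finset.univ.image e, f j = ∑ a, f (e a) :=
          Finset.sum_image (fun a _ b _ hab => e.injective hab)
        rw [← h3, h2]
      have h1 : ∑ a, c (e a) * (g ^ ((e a : Fin d) : ℕ)) ^ (l : ℕ) =
          ∑ j ∈ J, c j * (g ^ (j : ℕ)) ^ (l : ℕ) :=
        key (fun j => c j * (g ^ (j : ℕ)) ^ (l : ℕ))
      rw [h1]
      have h3 : ∑ j ∈ J, c j * (g ^ (j : ℕ)) ^ (l : ℕ) =
          ∑ j : Fin d, c j * (g ^ (j : ℕ)) ^ (l : ℕ) := by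
        apply Finset.sum_subset (Finset.subset_univ _)
        intro j _ hj
        have : c j = 0 := by
          by_contra hne
          exact hj ((hJ j).2 hne)
        rw [this, zero_mul]
      rw [h3]
      exact hsum l (lt_of_lt_of_le l.2 hle)
    have hc0 := Matrix.eq_zero_of_vecMul_eq_zero hdet hz
    have hpos : 0 < J.card := Finset.card_pos.2 ⟨j0, hj0⟩
    have h5 : c (e ⟨0, hpos⟩) = 0 := congrFun hc0 ⟨0, hpos⟩
    exact (hJ _).1 (J.orderEmbOfFin_mem rfl ⟨0, hpos⟩) h5
  obtain ⟨J', hJ', hJc⟩ := Finset.exists_subset_card_eq hcard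
  let e := J'.orderEmbOfFin hJc
  have he : ∀ a, c (e a) ≠ 0 := fun a => (hJ _).1 (hJ' (J'.orderEmbOfFin_mem hJc a))
  choose ρ hρ1 hρ2 using fun a => hc2 (e a) (he a)
  have hN : (B.submatrix ρ e).det ≠ 0 := by
    rw [Matrix.det_of_upperTriangular]
    · rw [Finset.prod_ne_zero_iff]
      intro a _
      exact hρ2 a
    · intro a b hab
      have h1 : e b < e a := e.strictMono hab
      apply hmin
      have h2 := hρ1 a
      have h3 : ((e b : Fin d) : ℕ) < ((e a : Fin d) : ℕ) := h1
      omega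
  have hrk : (B.submatrix ρ e).rank = r + 1 := by
    rw [Matrix.rank_of_isUnit _ ((Matrix.isUnit_iff_isUnit_det _).2 (isUnit_iff_ne_zero.2 hN)),
      Fintype.card_fin]
  have hfac : B.submatrix ρ e = (1 : Matrix (Fin d) (Fin d) k).submatrix ρ id * B *
      (1 : Matrix (Fin d) (Fin d) k).submatrix id e := by
    ext a b
    simp [Matrix.mul_apply, Matrix.one_apply]
  have h6 : (B.submatrix ρ e).rank ≤ B.rank := by
    rw [hfac]
    exact (Matrix.rank_mul_le_left _ _).trans (Matrix.rank_mul_le_right _ _)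
  omega

end Pool.Agent.MPca71Y
end

section
set_option autoImplicit false
open scoped Matrix

/-! Job C2 (medium-easy): coefficients of a polynomial of degree `≤ 2 d - 2` with `2 d` zeros. -/

namespace Pool.Agent.MPca71Y

/-- For fixed `l` the polynomial `∑ i, ∑ j, C (B i j * (g ^ l) ^ j) * X ^ (i + j)` has degree `< 2 d` and the
`2 d` distinct zeros `al a` (`Polynomial.eq_zero_of_natDegree_lt_card_of_eval_eq_zero'`), so all its
coefficients vanish; the coefficient of `X ^ s` is the sum in the conclusion. -/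
theorem poly_coeff {k : Type} [Field k] {d r : ℕ} (B : Matrix (Fin d) (Fin d) k) (g : k)
    (al : Fin (2 * d) → k) (hal : Function.Injective al)
    (h : ∀ (a : Fin (2 * d)), ∀ l < r, ∑ i : Fin d, ∑ j : Fin d,
      (al a) ^ (i : ℕ) * B i j * (g ^ l * al a) ^ (j : ℕ) = 0) :
    ∀ s : ℕ, ∀ l < r, ∑ i : Fin d, ∑ j : Fin d,
      (if (i : ℕ) + (j : ℕ) = s then B i j * (g ^ l) ^ (j : ℕ) else 0) = 0 := by
  intro s l hl
  rcases Nat.eq_zero_or_pos d with rfl | hd
  · exact Finset.sum_eq_zero fun i _ => i.elim0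
  obtain ⟨P, hP⟩ : ∃ P : Polynomial k, P = ∑ i : Fin d, ∑ j : Fin d,
      Polynomial.C (B i j * (g ^ l) ^ (j : ℕ)) * Polynomial.X ^ ((i : ℕ) + (j : ℕ)) := ⟨_, rfl⟩
  have hdeg : P.natDegree ≤ 2 * d - 2 := by
    rw [hP]
    refine Polynomial.natDegree_sum_le_of_forall_le _ _ fun i _ => ?_
    refine Polynomial.natDegree_sum_le_of_forall_le _ _ fun j _ => ?_
    refine (Polynomial.natDegree_C_mul_X_pow_le _ _).trans ?_
    have := i.2
    have := j.2
    omega
  have hev : ∀ a, P.eval (al a) = 0 := by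
    intro a
    refine Eq.trans ?_ (h a l hl)
    rw [hP, Polynomial.eval_finsetSum]
    refine Finset.sum_congr rfl fun i _ => ?_
    rw [Polynomial.eval_finsetSum]
    refine Finset.sum_congr rfl fun j _ => ?_
    rw [Polynomial.eval_mul, Polynomial.eval_C, Polynomial.eval_pow, Polynomial.eval_X, mul_pow,
      pow_add]
    ring
  have hP0 : P = 0 := by
    refine Polynomial.eq_zero_of_natDegree_lt_card_of_eval_eq_zero P hal hev ?_
    rw [Fintype.card_fin]
    omega
  have hc : P.coeff s = 0 := by rw [hP0, Polynomial.coeff_zero]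
  refine Eq.trans ?_ hc
  rw [hP, Polynomial.finsetSum_coeff]
  refine Finset.sum_congr rfl fun i _ => ?_
  rw [Polynomial.finsetSum_coeff]
  refine Finset.sum_congr rfl fun j _ => ?_
  rw [Polynomial.coeff_C_mul_X_pow]
  rcases eq_or_ne ((i : ℕ) + (j : ℕ)) s with h1 | h1
  · rw [if_pos h1, if_pos h1.symm]
  · rw [if_neg h1, if_neg h1.symm]

end Pool.Agent.MPca71Y
end

section
set_option autoImplicit false

/-! Job G3 (medium): exponent `p`, and the kernel contains the common kernel of the characters. -/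

namespace Pool.Agent.MPca71Y

open Pool.Agent.MPca71X IsLocalRing

/-- A matrix which is congruent to `1` modulo all powers of the maximal ideal is `1` (Krull's intersection
theorem, `Ideal.iInf_pow_eq_bot_of_isLocalRing`). -/
theorem eq_one_of_Lv {R ι : Type} [CommRing R] [IsLocalRing R] [IsNoetherianRing R]
    [DecidableEq ι] {A : Matrix ι ι R} (h : ∀ m, Lv m A) : A = 1 := by
  have hbot := Ideal.iInf_pow_eq_bot_of_isLocalRing (maximalIdeal R) (maximalIdeal.isMaximal R).ne_top
  ext i j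
  have h1 : (A - 1) i j ∈ ⨅ m : ℕ, maximalIdeal R ^ m := Ideal.mem_iInf.2 fun m => h m i j
  rw [hbot, Ideal.mem_bot, Matrix.sub_apply] at h1
  exact sub_eq_zero.1 h1

/-- reduction modulo the `m`-th power of the maximal ideal -/
private noncomputable def redG3 {R ι Γ : Type} [CommRing R] [IsLocalRing R] [Fintype ι]
    [DecidableEq ι] [Group Γ] (M : Γ →* Matrix ι ι R) (m : ℕ) :
    Γ →* Matrix ι ι (R ⧸ maximalIdeal R ^ m) where
  toFun g := (Ideal.Quotient.mk (maximalIdeal R ^ m)).mapMatrix (M g)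
  map_one' := by rw [map_one, map_one]
  map_mul' a b := by rw [map_mul, map_mul]

private theorem exists_linG3 {p : ℕ} [Fact p.Prime] {A : Type} [AddCommGroup A]
    [Module (ZMod p) A] {a : A} (ha : a ≠ 0) :
    ∃ f : A → ZMod p, (∀ x y, f (x + y) = f x + f y) ∧ f a ≠ 0 := by
  have h1 : ∃ l : A →ₗ[ZMod p] ZMod p, l a ≠ 0 := by
    by_contra hcon
    push Not at hcon
    exact ha ((Module.forall_dual_apply_eq_zero_iff (ZMod p) _).1 hcon)
  obtain ⟨l, hl⟩ := h1
  exact ⟨fun x => l x, fun x y => map_add l x y, hl⟩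

private theorem exists_addG3 {p : ℕ} [Fact p.Prime] {A : Type} [AddCommGroup A]
    (hk : ∀ a : A, p • a = 0) {a : A} (ha : a ≠ 0) :
    ∃ f : A → ZMod p, (∀ x y, f (x + y) = f x + f y) ∧ f a ≠ 0 :=
  @exists_linG3 p _ A _ (AddCommGroup.zmodModule hk) a ha

private theorem exists_chG3 {p : ℕ} [Fact p.Prime] {Q : Type} [Group Q]
    (hab : ∀ a b : Q, a * b = b * a) (hp : ∀ a : Q, a ^ p = 1) {a : Q} (ha : a ≠ 1) :
    ∃ f : Q → ZMod p, (∀ x y, f (x * y) = f x + f y) ∧ f a ≠ 0 := by
  let inst : CommGroup Q := { (inferInstance : Group Q) with mul_comm := hab }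
  let inst2 : AddCommGroup (Additive Q) := Additive.addCommGroup
  obtain ⟨f, hf1, hf2⟩ := exists_addG3 (p := p) (A := Additive Q) (fun q => hp q.toMul)
    (a := Additive.ofMul a) ha
  exact ⟨fun x => f (Additive.ofMul x), fun x y => hf1 _ _, hf2⟩

private theorem redG3_iff {R ι Γ : Type} [CommRing R] [IsLocalRing R] [Fintype ι]
    [DecidableEq ι] [Group Γ] (M : Γ →* Matrix ι ι R) (m : ℕ) (g : Γ) :
    redG3 M m g = 1 ↔ Lv m (M g) := by
  have h1 : redG3 M m g = (Ideal.Quotient.mk (maximalIdeal R ^ m)).mapMatrix (M g) := rfl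
  have h2 : (1 : Matrix ι ι (R ⧸ maximalIdeal R ^ m)) =
      (Ideal.Quotient.mk (maximalIdeal R ^ m)).mapMatrix 1 := (map_one _).symm
  rw [h1, h2, ← sub_eq_zero, ← map_sub]
  unfold Lv
  constructor
  · intro h i j
    have h3 := congrFun (congrFun h i) j
    exact Ideal.Quotient.eq_zero_iff_mem.1 h3
  · intro h
    ext i j
    exact Ideal.Quotient.eq_zero_iff_mem.2 (h i j)

private theorem redG3_exp {p t d : ℕ} [Fact p.Prime] {Γ : Type} [Group Γ] [TopologicalSpace Γ]
    [IsTopologicalGroup Γ] {I : Set Γ} {K0 : Subgroup Γ} {χ : Fin d → Γ → ZMod p}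
    {x y : Fin t → Γ} {u : Fin t → ZMod p} {G Y : Matrix (Fin t) (Fin d) (ZMod p)}
    {w : Fin d → Γ} (h : FMD p t d Γ I K0 χ x y u G Y w) {R ι : Type} [CommRing R]
    [IsLocalRing R] [Fintype ι] [DecidableEq ι]
    (M : Γ →* Matrix ι ι R) (hI : ∀ g ∈ I, g ∈ K0 → M g = 1)
    (hopen : ∀ m : ℕ, ∃ N' : Subgroup Γ, IsOpen (N' : Set Γ) ∧ ∀ g ∈ N', Lv m (M g))
    (hpp : ∀ (m : ℕ) (g : Γ), ∃ k : ℕ, Lv m (M (g ^ p ^ k)))
    (hcomm : ∀ g g', M g * M g' = M g' * M g) (m : ℕ) (g : Γ) :
    redG3 M m g ^ p = 1 := by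
  have hc : ∀ a b, Commute (redG3 M m a) (redG3 M m b) := by
    intro a b
    have h2 : M (a * b) = M (b * a) := by rw [M.map_mul, M.map_mul, hcomm a b]
    have h1 : redG3 M m (a * b) = redG3 M m (b * a) :=
      congrArg (Ideal.Quotient.mk (maximalIdeal R ^ m)).mapMatrix h2
    rw [map_mul, map_mul] at h1
    exact h1
  let P : Γ →* Matrix ι ι (R ⧸ maximalIdeal R ^ m) :=
    { toFun := fun a => redG3 M m a ^ p
      map_one' := by rw [map_one, one_pow]
      map_mul' := fun a b => by rw [map_mul, (hc a b).mul_pow] }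
  have hPker : ∀ a, a ∈ P.ker ↔ redG3 M m a ^ p = 1 := fun a => MonoidHom.mem_ker
  obtain ⟨N', hN'o, hN'⟩ := hopen m
  have hle : N' ≤ P.ker := fun a ha => (hPker a).2 (by
    rw [(redG3_iff M m a).2 (hN' a ha), one_pow])
  have hEo : IsOpen (P.ker : Set Γ) := Subgroup.isOpen_mono hle hN'o
  have hEI : I ⊆ P.ker := fun a ha => by
    refine (hPker a).2 ?_
    have hK : K0.Normal := h.K0n
    have h1 := Subgroup.pow_index_mem K0 a
    rw [h.K0i] at h1
    rw [← map_pow, redG3_iff, hI _ (h.Ipow a ha p) h1]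
    intro i j
    simp
  have hE : P.ker = ⊤ := h.U P.ker inferInstance hEo (fun a => by
    obtain ⟨k, hk⟩ := hpp m a
    exact ⟨k, (hPker _).2 (by rw [(redG3_iff M m _).2 hk, one_pow])⟩) hEI
  exact (hPker g).1 (by rw [hE]; exact Subgroup.mem_top g)

/-- Exponent: fix `m`. `E = {g | Lv m (M (g ^ p))}` is a subgroup as the `M g` commute (`M ((a b) ^ p) = M a ^ p * M b ^ p`;
`Lv m` is closed under products of commuting matrices/inverses: entries of `M a - 1` in the ideal), normal, open (it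
contains the subgroup of `hopen m`), contains `I` (`g ^ p ∈ I`, `g ^ p ∈ K0` as `K0` is normal of index `p`, so `M (g ^ p) = 1`), and
`∀ g, ∃ k, g ^ p ^ k ∈ E` by `hpp`. So `E = ⊤` by `U`; now `eq_one_of_Lv`. Compare `quot_exponent` in ntX/G3.
Kernel: let `χ i g = 0` for all `i` and suppose `M g ≠ 1`; choose `m` with `¬ Lv m (M g)`. Let `N` be the subgroup `{g | Lv m (M g)}`,
normal, open; `Γ ⧸ N` is commutative and killed by `p`, i.e. a vector space over `ZMod p`, and the class of `g` is not `0`,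
so there is a linear functional, i.e. `φ ∈ chs p Γ` vanishing on `N` with `φ g ≠ 0`. `φ` vanishes on `I ∩ K0` (there `M = 1`); by
`GEN` `φ = ∑ a i χ i`, so `φ g = 0`. Compare `quot_card` in ntX/G3. -/
theorem exp_of_comm {p t d : ℕ} [Fact p.Prime] {Γ : Type} [Group Γ] [TopologicalSpace Γ]
    [IsTopologicalGroup Γ] {I : Set Γ} {K0 : Subgroup Γ} {χ : Fin d → Γ → ZMod p}
    {x y : Fin t → Γ} {u : Fin t → ZMod p} {G Y : Matrix (Fin t) (Fin d) (ZMod p)}
    {w : Fin d → Γ} (h : FMD p t d Γ I K0 χ x y u G Y w) {R ι : Type} [CommRing R]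
    [IsLocalRing R] [IsNoetherianRing R] [Fintype ι] [DecidableEq ι]
    (M : Γ →* Matrix ι ι R) (hI : ∀ g ∈ I, g ∈ K0 → M g = 1)
    (hopen : ∀ m : ℕ, ∃ N' : Subgroup Γ, IsOpen (N' : Set Γ) ∧ ∀ g ∈ N', Lv m (M g))
    (hpp : ∀ (m : ℕ) (g : Γ), ∃ k : ℕ, Lv m (M (g ^ p ^ k)))
    (hcomm : ∀ g g', M g * M g' = M g' * M g) :
    (∀ g, M (g ^ p) = 1) ∧ ∀ g, (∀ i, χ i g = 0) → M g = 1 := by
  have hexp := redG3_exp h M hI hopen hpp hcomm
  refine ⟨fun g => eq_one_of_Lv fun m => ?_, fun g hg => ?_⟩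
  · rw [← redG3_iff, map_pow]
    exact hexp m g
  · by_contra hne
    obtain ⟨m, hm⟩ : ∃ m, ¬ Lv m (M g) := by
      by_contra hcon
      push Not at hcon
      exact hne (eq_one_of_Lv hcon)
    rw [← redG3_iff] at hm
    set N : Subgroup Γ := (redG3 M m).ker with hN
    have hNmem : ∀ a, a ∈ N ↔ redG3 M m a = 1 := fun a => MonoidHom.mem_ker
    have hab : ∀ a b : Γ, (a : Γ ⧸ N) * (b : Γ ⧸ N) = (b : Γ ⧸ N) * (a : Γ ⧸ N) := by
      intro a b
      rw [← QuotientGroup.mk_mul, ← QuotientGroup.mk_mul, QuotientGroup.eq, hNmem, map_mul]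
      have h2 : M (b * a) = M (a * b) := by rw [M.map_mul, M.map_mul, hcomm b a]
      have h1 : redG3 M m (b * a) = redG3 M m (a * b) :=
        congrArg (Ideal.Quotient.mk (maximalIdeal R ^ m)).mapMatrix h2
      rw [h1, ← map_mul, inv_mul_cancel, map_one]
    obtain ⟨f, hf1, hℓ⟩ := exists_chG3 (p := p) (Q := Γ ⧸ N)
      (fun a b => by
        obtain ⟨a, rfl⟩ := QuotientGroup.mk_surjective a
        obtain ⟨b, rfl⟩ := QuotientGroup.mk_surjective b
        exact hab a b)
      (fun q => by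
        obtain ⟨a, rfl⟩ := QuotientGroup.mk_surjective q
        refine (QuotientGroup.eq_one_iff (a ^ p)).2 ?_
        rw [hNmem, map_pow]
        exact hexp m a)
      (a := (g : Γ ⧸ N)) (fun h1 => hm ((hNmem g).1 ((QuotientGroup.eq_one_iff g).1 h1)))
    have hf0 : f 1 = 0 := by
      have := hf1 1 1
      rw [mul_one] at this
      exact (left_eq_add.1 this)
    let φ : Γ → ZMod p := fun a => f (a : Γ ⧸ N)
    have hφadd : ∀ a b, φ (a * b) = φ a + φ b := fun a b => by
      change f ((a * b : Γ) : Γ ⧸ N) = f (a : Γ ⧸ N) + f (b : Γ ⧸ N)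
      rw [QuotientGroup.mk_mul, hf1]
    have hφN : ∀ a ∈ N, φ a = 0 := fun a ha => by
      change f (a : Γ ⧸ N) = 0
      rw [(QuotientGroup.eq_one_iff a).2 ha]
      exact hf0
    have hφ1 : φ 1 = 0 := hφN 1 N.one_mem
    let H : Subgroup Γ :=
      { carrier := {a : Γ | φ a = 0}
        one_mem' := hφ1
        mul_mem' := fun {x y} hx hy => by
          show φ (x * y) = 0
          rw [hφadd x y, show φ x = 0 from hx, show φ y = 0 from hy, add_zero]
        inv_mem' := fun {x} hx => by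
          show φ x⁻¹ = 0
          have h2 := hφadd x x⁻¹
          rw [mul_inv_cancel, hφ1, show φ x = 0 from hx, zero_add] at h2
          exact h2.symm }
    obtain ⟨N', hN'o, hN'⟩ := hopen m
    have hle : N' ≤ H := fun a ha => hφN a ((hNmem a).2 ((redG3_iff M m a).2 (hN' a ha)))
    obtain ⟨c, hc⟩ := h.GEN φ hφadd (Subgroup.isOpen_mono hle hN'o) fun a ha haK => by
      refine hφN a ((hNmem a).2 ((redG3_iff M m a).2 ?_))
      rw [hI a ha haK]
      intro i j
      simp
    apply hℓ
    change φ g = 0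
    rw [hc g]
    exact Finset.sum_eq_zero fun i _ => by rw [hg i, mul_zero]

end Pool.Agent.MPca71Y
end

section
set_option autoImplicit false

/-! Job R2 (medium): functionals, generators, and Artin-Rees. -/

namespace Pool.Agent.MPca71Y

open IsLocalRing

/-- If `P', P` are submodules of an `R`-module, the maximal ideal maps `P` into `P'` and `c ∈ P`, `c ∉ P'`, there
is an `R`-linear map `P → ResidueField R` which is nonzero at `c` and kills the elements of `P'`. Proof: the quotient
`P ⧸ (P'.comap P.subtype)` is killed by the maximal ideal, so it is a vector space over the residue field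
(`Module.IsTorsionBySet.module`, or extend scalars: `ResidueField R ⊗[R] P` and `LinearMap`s), and the class of `c` is not zero
(`exists_dual_forall_apply_ne_zero`, `Module.exists_dual_..`, a basis). -/
theorem exists_functional {R : Type} [CommRing R] [IsLocalRing R] {E : Type} [AddCommGroup E]
    [Module R E] (P P' : Submodule R E) (h : ∀ a ∈ maximalIdeal R, ∀ x ∈ P, a • x ∈ P') (c : E)
    (hc : c ∈ P) (hc' : c ∉ P') :
    ∃ lam : P →ₗ[R] ResidueField R, lam ⟨c, hc⟩ ≠ 0 ∧ ∀ x : P, (x : E) ∈ P' → lam x = 0 := by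
  classical
  set N : Submodule R P := P'.comap P.subtype with hN
  have htor : Module.IsTorsionBySet R (P ⧸ N) (maximalIdeal R : Set R) := by
    intro q a
    obtain ⟨x, rfl⟩ := N.mkQ_surjective q
    have : (a : R) • (N.mkQ x) = N.mkQ ((a : R) • x) := by simp
    rw [this]
    rw [Submodule.mkQ_apply, Submodule.Quotient.mk_eq_zero]
    exact h a a.2 x x.2
  let _ : Module (R ⧸ maximalIdeal R) (P ⧸ N) := htor.module
  have _ : IsScalarTower R (R ⧸ maximalIdeal R) (P ⧸ N) := htor.isScalarTower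
  let _ : Field (R ⧸ maximalIdeal R) := Ideal.Quotient.field (maximalIdeal R)
  have hne : N.mkQ ⟨c, hc⟩ ≠ 0 := by
    rw [Submodule.mkQ_apply, Ne, Submodule.Quotient.mk_eq_zero]
    exact hc'
  obtain ⟨f, hf⟩ : ∃ f : (P ⧸ N) →ₗ[R ⧸ maximalIdeal R] (R ⧸ maximalIdeal R),
      f (N.mkQ ⟨c, hc⟩) ≠ 0 := by
    by_contra hcon
    push Not at hcon
    exact hne ((Module.forall_dual_apply_eq_zero_iff (R ⧸ maximalIdeal R) _).mp hcon)
  refine ⟨((f.restrictScalars R).comp N.mkQ : P →ₗ[R] (R ⧸ maximalIdeal R)), hf, ?_⟩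
  intro x hx
  have : N.mkQ x = 0 := by
    rw [Submodule.mkQ_apply, Submodule.Quotient.mk_eq_zero]
    exact hx
  show f (N.mkQ x) = 0
  rw [this, map_zero]

/-- Every submodule of `Matrix ι ι R`, `R` a principal ideal domain, is spanned by `(card ι) ^ 2` elements
(`Submodule.nonempty_basis_of_pid`, the rank of a submodule is at most the rank of the module; pad with zeros). -/
theorem exists_gens {R : Type} [CommRing R] [IsDomain R] [IsPrincipalIdealRing R] {ι : Type}
    [Fintype ι] [DecidableEq ι] (J : Submodule R (Matrix ι ι R)) :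
    ∃ e : Fin ((Fintype.card ι) ^ 2) → Matrix ι ι R, (∀ a, e a ∈ J) ∧
      ∀ z ∈ J, ∃ c : Fin ((Fintype.card ι) ^ 2) → R, z = ∑ a, c a • e a := by
  classical
  obtain ⟨n, ⟨b⟩⟩ := Submodule.nonempty_basis_of_pid (Matrix.stdBasis R ι ι) J
  have hn : n ≤ (Fintype.card ι) ^ 2 := by
    have h1 : Module.finrank R J = n := by
      rw [Module.finrank_eq_card_basis b, Fintype.card_fin]
    have h2 : Module.finrank R J ≤ Module.finrank R (Matrix ι ι R) := Submodule.finrank_le J
    rw [h1, Module.finrank_eq_card_basis (Matrix.stdBasis R ι ι), Fintype.card_prod] at h2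
    rw [sq]
    exact h2
  refine ⟨fun a => if ha : (a : ℕ) < n then (b ⟨a, ha⟩ : Matrix ι ι R) else 0, ?_, ?_⟩
  · intro a
    by_cases ha : (a : ℕ) < n
    · simp only [ha, dif_pos]
      exact (b ⟨a, ha⟩).2
    · simp only [ha, dif_neg, not_false_eq_true]
      exact J.zero_mem
  · intro z hz
    refine ⟨fun a => if ha : (a : ℕ) < n then b.repr ⟨z, hz⟩ ⟨a, ha⟩ else 0, ?_⟩
    have h1 : z = ∑ i : Fin n, b.repr ⟨z, hz⟩ i • (b i : Matrix ι ι R) := by
      have := b.sum_repr ⟨z, hz⟩
      have h2 := congrArg (fun w : J => (w : Matrix ι ι R)) this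
      simp only [Submodule.coe_sum, Submodule.coe_smul] at h2
      exact h2.symm
    have h3 : ∀ a : Fin ((Fintype.card ι) ^ 2),
        (if ha : (a : ℕ) < n then b.repr ⟨z, hz⟩ ⟨a, ha⟩ else 0) •
          (if ha : (a : ℕ) < n then (b ⟨a, ha⟩ : Matrix ι ι R) else 0) =
        (fun k : ℕ => if ha : k < n then b.repr ⟨z, hz⟩ ⟨k, ha⟩ • (b ⟨k, ha⟩ : Matrix ι ι R)
          else 0) a := by
      intro a
      by_cases ha : (a : ℕ) < n
      · simp [ha]
      · simp [ha]
    simp only [h3]
    rw [Fin.sum_univ_eq_sum_range (fun k : ℕ => if ha : k < n then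
      b.repr ⟨z, hz⟩ ⟨k, ha⟩ • (b ⟨k, ha⟩ : Matrix ι ι R) else 0)]
    rw [← Finset.sum_subset (Finset.range_subset_range.mpr hn)]
    · rw [← Fin.sum_univ_eq_sum_range (fun k : ℕ => if ha : k < n then
        b.repr ⟨z, hz⟩ ⟨k, ha⟩ • (b ⟨k, ha⟩ : Matrix ι ι R) else 0)]
      refine h1.trans ?_
      apply Finset.sum_congr rfl
      intro i _
      simp
    · intro k _ hk
      rw [Finset.mem_range] at hk
      simp [hk]

/-- Artin-Rees (`Ideal.exists_pow_inf_eq_pow_smul`): there is `m` with `J ∩ EM (maximalIdeal ^ m) ≤ maximalIdeal • J`.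
(`EM ι I = I • ⊤`.) -/
theorem exists_rees {R : Type} [CommRing R] [IsLocalRing R] [IsNoetherianRing R] {ι : Type}
    [Fintype ι] [DecidableEq ι] (J : Submodule R (Matrix ι ι R)) :
    ∃ m : ℕ, ∀ z ∈ J, z ∈ EM ι (maximalIdeal R ^ m) → z ∈ (maximalIdeal R) • J := by
  classical
  have hEM : ∀ I : Ideal R, EM ι I ≤ I • (⊤ : Submodule R (Matrix ι ι R)) := by
    intro I A hA
    have h1 : A = ∑ i, ∑ j, A i j • Matrix.single i j (1 : R) := by
      conv_lhs => rw [Matrix.matrix_eq_sum_single A]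
      apply Finset.sum_congr rfl
      intro i _
      apply Finset.sum_congr rfl
      intro j _
      rw [Matrix.smul_single, smul_eq_mul, mul_one]
    rw [h1]
    apply Submodule.sum_mem
    intro i _
    apply Submodule.sum_mem
    intro j _
    exact Submodule.smul_mem_smul (hA i j) trivial
  obtain ⟨k, hk⟩ := Ideal.exists_pow_inf_eq_pow_smul (maximalIdeal R) J
  refine ⟨k + 1, ?_⟩
  intro z hz hz'
  have h1 : z ∈ (maximalIdeal R ^ (k + 1)) • (⊤ : Submodule R (Matrix ι ι R)) ⊓ J :=
    ⟨hEM _ hz', hz⟩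
  rw [hk (k + 1) (Nat.le_succ k), Nat.add_sub_cancel_left, pow_one] at h1
  exact Submodule.smul_mono le_rfl inf_le_right h1

end Pool.Agent.MPca71Y
end

section
set_option autoImplicit false
open scoped Matrix

/-! Job C3 (medium): pairs of vectors over `ZMod p` which detect all matrices of rank `≤ r`. -/

namespace Pool.Agent.MPca71Y

private theorem rank_map_le' {k K : Type} [Field k] [Field K] (f : k →+* K) {d : ℕ}
    (B : Matrix (Fin d) (Fin d) k) : (B.map f).rank ≤ B.rank := by
  classical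
  let b := Module.finBasis k (LinearMap.range B.mulVecLin)
  let C : Matrix (Fin d) (Fin (Module.finrank k (LinearMap.range B.mulVecLin))) k :=
    Matrix.of fun i t => (b t : Fin d → k) i
  let D : Matrix (Fin (Module.finrank k (LinearMap.range B.mulVecLin))) (Fin d) k :=
    Matrix.of fun t j => b.repr ⟨B.mulVecLin (Pi.single j 1), LinearMap.mem_range_self _ _⟩ t
  have key : ∀ (x : LinearMap.range B.mulVecLin) (i : Fin d),
      ∑ t, b.repr x t * (b t : Fin d → k) i = (x : Fin d → k) i := by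
    intro x i
    have h2 := congrFun (congrArg Subtype.val (b.sum_repr x)) i
    rw [← h2, AddSubmonoidClass.coe_finsetSum, Finset.sum_apply]
    exact Finset.sum_congr rfl fun t _ => rfl
  have hBD : B = C * D := by
    ext i j
    rw [Matrix.mul_apply]
    have h2 := key ⟨B.mulVecLin (Pi.single j 1), LinearMap.mem_range_self _ _⟩ i
    have h4 : ((⟨B.mulVecLin (Pi.single j 1), LinearMap.mem_range_self _ _⟩ :
        LinearMap.range B.mulVecLin) : Fin d → k) i = B i j := by
      simp
    rw [← h4, ← h2]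
    refine Finset.sum_congr rfl fun t _ => ?_
    simp only [C, D, Matrix.of_apply]
    rw [mul_comm]
  have h3 : B.map f = C.map f * D.map f := by
    conv_lhs => rw [hBD]
    exact Matrix.map_mul
  rw [h3]
  refine (Matrix.rank_mul_le_left _ _).trans ?_
  exact (Matrix.rank_le_width _).trans le_rfl

/-- Let `q = p ^ a ≥ 2 d`, `F = GaloisField p a` (`a ≠ 0` as `d ≥ 1`; `GaloisField.card`), `g` a generator of
the cyclic group `Fˣ` of order `q - 1 ≥ d` (so `g ^ i`, `i < d`, are distinct), `al : Fin (2 d) → F`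
injective, `ω` a basis of `F` over `ZMod p` indexed by `Fin a` (`GaloisField.finrank`). Write
`(al b) ^ i = ∑ u, X (b, l, u, v) i • ω u` (independent of `l, v`), `(g ^ l * al b) ^ j = ∑ v, Z (b, l, u, v) j • ω v`. Given `k` and
`B`, let `K` be an algebraic closure of `k` and embed `F` in `K` over `ZMod p` (`IsAlgClosed.lift`; `F` is
algebraic over `ZMod p`). Over `K` (`B.map (algebraMap k K)`, same rank: `Matrix.rank_map` or similar) the
hypothesis gives `∑ i j, (al b) ^ i B i j (g ^ l al b) ^ j = ∑ u v, ω u ω v (∑ i j, X i B i j Z j) = 0`; now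
`poly_coeff` and `antidiag`. -/
theorem exists_pairs (p : ℕ) [Fact p.Prime] (d r a : ℕ) (hd : 1 ≤ d) (ha : 2 * d ≤ p ^ a) :
    ∃ X Z : (Fin (2 * d) × Fin r × Fin a × Fin a) → Fin d → ZMod p,
      ∀ (k : Type) [Field k] [Algebra (ZMod p) k] (B : Matrix (Fin d) (Fin d) k), B.rank ≤ r →
        (∀ τ, ∑ i, ∑ i', algebraMap (ZMod p) k (X τ i) * B i i' *
          algebraMap (ZMod p) k (Z τ i') = 0) → B = 0 := by
  classical
  have hp : 2 ≤ p := (Fact.out : p.Prime).two_le
  have ha0 : a ≠ 0 := by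
    rintro rfl
    rw [pow_zero] at ha
    omega
  have hcard : Nat.card (GaloisField p a) = p ^ a := GaloisField.card p a ha0
  have : Finite (GaloisField p a) := Nat.finite_of_card_ne_zero (by rw [hcard]; positivity)
  let _ : Fintype (GaloisField p a) := Fintype.ofFinite _
  have hcard' : Fintype.card (GaloisField p a) = p ^ a := by
    rw [← hcard, Nat.card_eq_fintype_card]
  obtain ⟨al⟩ : Nonempty (Fin (2 * d) ↪ GaloisField p a) :=
    Function.Embedding.nonempty_of_card_le (by rw [Fintype.card_fin, hcard']; exact ha)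
  obtain ⟨g, hg⟩ := IsCyclic.exists_generator (α := (GaloisField p a)ˣ)
  have hog : orderOf g = p ^ a - 1 := by
    rw [orderOf_eq_card_of_forall_mem_zpowers hg, Nat.card_units, hcard]
  have hginj : ∀ i j : Fin d, (g : GaloisField p a) ^ (i : ℕ) = (g : GaloisField p a) ^ (j : ℕ) →
      i = j := by
    intro i j hij
    have h1 : g ^ (i : ℕ) = g ^ (j : ℕ) := by
      apply Units.ext
      push_cast
      exact hij
    have h2 : (i : ℕ) < orderOf g := by
      have := i.2
      omega
    have h3 : (j : ℕ) < orderOf g := by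
      have := j.2
      omega
    exact Fin.ext (pow_injOn_Iio_orderOf h2 h3 h1)
  let ω : Module.Basis (Fin a) (ZMod p) (GaloisField p a) :=
    Module.finBasisOfFinrankEq (ZMod p) (GaloisField p a) (GaloisField.finrank p ha0)
  refine ⟨fun τ i => ω.repr ((al τ.1) ^ (i : ℕ)) τ.2.2.1,
    fun τ j => ω.repr (((g : GaloisField p a) ^ (τ.2.1 : ℕ) * al τ.1) ^ (j : ℕ)) τ.2.2.2, ?_⟩
  intro k _ _ B hB h
  let φ : GaloisField p a →ₐ[ZMod p] AlgebraicClosure k := IsAlgClosed.lift
  have hφ : Function.Injective φ := φ.injective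
  have hexp : ∀ y : GaloisField p a, φ y = ∑ u, algebraMap (ZMod p) (AlgebraicClosure k)
      (ω.repr y u) * φ (ω u) := by
    intro y
    conv_lhs => rw [← ω.sum_repr y]
    rw [map_sum]
    refine Finset.sum_congr rfl fun u _ => ?_
    rw [map_smul, Algebra.smul_def]
  have hB' : (B.map (algebraMap k (AlgebraicClosure k))).rank ≤ r :=
    (rank_map_le' (algebraMap k (AlgebraicClosure k)) B).trans hB
  have hmain : ∀ (b : Fin (2 * d)), ∀ l < r, ∑ i : Fin d, ∑ j : Fin d,
      (φ (al b)) ^ (i : ℕ) * (B.map (algebraMap k (AlgebraicClosure k))) i j *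
        ((φ (g : GaloisField p a)) ^ l * φ (al b)) ^ (j : ℕ) = 0 := by
    intro b l hl
    have e1 : ∀ i : Fin d, (φ (al b)) ^ (i : ℕ) = ∑ u, algebraMap (ZMod p) (AlgebraicClosure k)
        (ω.repr ((al b) ^ (i : ℕ)) u) * φ (ω u) := by
      intro i
      rw [← map_pow]
      exact hexp _
    have e2 : ∀ j : Fin d, ((φ (g : GaloisField p a)) ^ l * φ (al b)) ^ (j : ℕ) =
        ∑ v, algebraMap (ZMod p) (AlgebraicClosure k)
          (ω.repr (((g : GaloisField p a) ^ l * al b) ^ (j : ℕ)) v) * φ (ω v) := by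
      intro j
      rw [← map_pow, ← map_mul, ← map_pow]
      exact hexp _
    have e3 : ∀ u v, ∑ i : Fin d, ∑ j : Fin d, algebraMap (ZMod p) (AlgebraicClosure k)
        (ω.repr ((al b) ^ (i : ℕ)) u) * (B.map (algebraMap k (AlgebraicClosure k))) i j *
        algebraMap (ZMod p) (AlgebraicClosure k)
          (ω.repr (((g : GaloisField p a) ^ l * al b) ^ (j : ℕ)) v) = 0 := by
      intro u v
      have h1 := congrArg (algebraMap k (AlgebraicClosure k)) (h (b, ⟨l, hl⟩, u, v))
      rw [map_zero, map_sum] at h1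
      rw [← h1]
      refine Finset.sum_congr rfl fun i _ => ?_
      rw [map_sum]
      refine Finset.sum_congr rfl fun j _ => ?_
      rw [map_mul, map_mul, Matrix.map_apply,
        ← IsScalarTower.algebraMap_apply (ZMod p) k (AlgebraicClosure k),
        ← IsScalarTower.algebraMap_apply (ZMod p) k (AlgebraicClosure k)]
    calc ∑ i : Fin d, ∑ j : Fin d,
        (φ (al b)) ^ (i : ℕ) * (B.map (algebraMap k (AlgebraicClosure k))) i j *
          ((φ (g : GaloisField p a)) ^ l * φ (al b)) ^ (j : ℕ)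
        = ∑ i : Fin d, ∑ j : Fin d, ∑ u, ∑ v, φ (ω u) * φ (ω v) *
          (algebraMap (ZMod p) (AlgebraicClosure k) (ω.repr ((al b) ^ (i : ℕ)) u) *
            (B.map (algebraMap k (AlgebraicClosure k))) i j *
            algebraMap (ZMod p) (AlgebraicClosure k)
              (ω.repr (((g : GaloisField p a) ^ l * al b) ^ (j : ℕ)) v)) := by
          refine Finset.sum_congr rfl fun i _ => Finset.sum_congr rfl fun j _ => ?_
          rw [e1, e2, Finset.sum_mul, Finset.sum_mul]
          refine Finset.sum_congr rfl fun u _ => ?_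
          rw [Finset.mul_sum]
          refine Finset.sum_congr rfl fun v _ => ?_
          ring
      _ = ∑ u, ∑ v, φ (ω u) * φ (ω v) * ∑ i : Fin d, ∑ j : Fin d,
          (algebraMap (ZMod p) (AlgebraicClosure k) (ω.repr ((al b) ^ (i : ℕ)) u) *
            (B.map (algebraMap k (AlgebraicClosure k))) i j *
            algebraMap (ZMod p) (AlgebraicClosure k)
              (ω.repr (((g : GaloisField p a) ^ l * al b) ^ (j : ℕ)) v)) := by
          have s1 : ∀ i : Fin d, ∑ j : Fin d, ∑ u, ∑ v, φ (ω u) * φ (ω v) *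
              (algebraMap (ZMod p) (AlgebraicClosure k) (ω.repr ((al b) ^ (i : ℕ)) u) *
                (B.map (algebraMap k (AlgebraicClosure k))) i j *
                algebraMap (ZMod p) (AlgebraicClosure k)
                  (ω.repr (((g : GaloisField p a) ^ l * al b) ^ (j : ℕ)) v)) =
              ∑ u, ∑ v, φ (ω u) * φ (ω v) * ∑ j : Fin d,
              (algebraMap (ZMod p) (AlgebraicClosure k) (ω.repr ((al b) ^ (i : ℕ)) u) *
                (B.map (algebraMap k (AlgebraicClosure k))) i j *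
                algebraMap (ZMod p) (AlgebraicClosure k)
                  (ω.repr (((g : GaloisField p a) ^ l * al b) ^ (j : ℕ)) v)) := by
            intro i
            rw [Finset.sum_comm]
            refine Finset.sum_congr rfl fun u _ => ?_
            rw [Finset.sum_comm]
            refine Finset.sum_congr rfl fun v _ => ?_
            rw [Finset.mul_sum]
          rw [Finset.sum_congr rfl fun i _ => s1 i, Finset.sum_comm]
          refine Finset.sum_congr rfl fun u _ => ?_
          rw [Finset.sum_comm]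
          refine Finset.sum_congr rfl fun v _ => ?_
          rw [Finset.mul_sum]
      _ = 0 := by
          refine Finset.sum_eq_zero fun u _ => Finset.sum_eq_zero fun v _ => ?_
          rw [e3, mul_zero]
  have hfin : B.map (algebraMap k (AlgebraicClosure k)) = 0 := by
    refine antidiag _ (φ (g : GaloisField p a)) ?_ hB'
      (poly_coeff _ (φ (g : GaloisField p a)) (fun b => φ (al b))
        (fun b b' hb => al.injective (hφ hb)) hmain)
    intro i j hij
    rw [← map_pow, ← map_pow] at hij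
    exact hginj i j (hφ hij)
  ext i j
  have h1 := congrFun (congrFun hfin i) j
  rw [Matrix.map_apply, Matrix.zero_apply] at h1
  rw [Matrix.zero_apply]
  exact (map_eq_zero _).1 h1

end Pool.Agent.MPca71Y
end

section
set_option autoImplicit false

/-! Job R3 (medium): the commutator form with values in the residue field. -/

namespace Pool.Agent.MPca71Y

open IsLocalRing

/-- Take `j` from `exists_depth` (replace `N` by `N + 1` if necessary), `P = AA M ^ j`, `P' = AA M ^ (j + 1)`
(the maximal ideal maps `P` to `P'`: `a • z = (a • 1) * z`, `a • 1 ∈ EM (maximalIdeal) ≤ AA M`), `c` a commutator not in `P'`,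
`lam` from `exists_functional`, `b x y = lam (M x * M y - M y * M x)`. Biadditive:
`[M (x x'), M y] = M x [M x', M y] + [M x, M y] M x'` and `(M x - 1) [M x', M y] ∈ AA M * P ≤ P'`. If `M x * M y = M y * M x`
then `b x y = lam 0 = 0`. For `z ∈ JJ M` and `y` the element `z * M y - M y * z` is in `P` (span), `R`-linear in `z`.
Openness: `exists_rees` for `J = JJ M`: if `M x - 1 ∈ maximalIdeal • JJ M` then `b x y = lam (∑ a • [z, M y]) = 0` as
`a • (anything in P) ∈ P'`. Rank: `M (w i) - 1 = ∑ a, c i a • e a` (`exists_gens`), so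
`b (w i) (w i') = ∑ a, (residue (c i a)) * lam [e a, M (w i')]`: a product of a `d × N²` and an `N² × d` matrix
(`Matrix.rank_mul_le_left`, `Matrix.rank_le_card_width`). -/
theorem ring_form {R Γ ι : Type} [CommRing R] [IsDomain R] [IsDiscreteValuationRing R] [Group Γ]
    [Fintype ι] [DecidableEq ι] (M : Γ →* Matrix ι ι R) {N : ℕ} (hN : Nil N M)
    (hnc : ∃ x y, M x * M y ≠ M y * M x) :
    ∃ b : Γ → Γ → ResidueField R,
      (∀ x x' y, b (x * x') y = b x y + b x' y) ∧ (∀ x y y', b x (y * y') = b x y + b x y') ∧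
      (∀ x y, M x * M y = M y * M x → b x y = 0) ∧ (∃ x y, b x y ≠ 0) ∧
      (∃ m : ℕ, ∀ x, Lv m (M x) → ∀ y, b x y = 0) ∧
      ∀ (d : ℕ) (w : Fin d → Γ), (Matrix.of fun i i' => b (w i) (w i')).rank ≤
        (Fintype.card ι) ^ 2 := by
  classical
  have hN' : Nil (N + 1) M := fun l hl => hN l ((Nat.le_succ N).trans hl)
  obtain ⟨j, hj1, hP, x0, y0, h0⟩ := exists_depth hN' (Nat.succ_le_succ (Nat.zero_le N)) hnc
  set P : Submodule R (Matrix ι ι R) := AA M ^ j with hPdef
  set P' : Submodule R (Matrix ι ι R) := AA M ^ (j + 1) with hP'def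
  have hsubA : ∀ g, M g - 1 ∈ AA M := fun g =>
    (le_sup_left : JJ M ≤ AA M) (sub_one_mem_JJ M g)
  have hL : ∀ z ∈ AA M, ∀ A ∈ P, z * A ∈ P' := by
    intro z hz A hA
    rw [hP'def, pow_succ']
    exact Submodule.mul_mem_mul hz hA
  have hR : ∀ z ∈ AA M, ∀ A ∈ P, A * z ∈ P' := by
    intro z hz A hA
    rw [hP'def, pow_succ]
    exact Submodule.mul_mem_mul hA hz
  have hmax : ∀ a ∈ maximalIdeal R, ∀ A ∈ P, a • A ∈ P' := by
    intro a ha A hA
    have h1 : a • (1 : Matrix ι ι R) ∈ AA M := by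
      refine (le_sup_right : EM ι (maximalIdeal R) ≤ AA M) ?_
      intro i i'
      rw [Matrix.smul_apply, smul_eq_mul]
      exact Ideal.mul_mem_right _ _ ha
    have h2 := hL _ h1 A hA
    rwa [smul_mul_assoc, one_mul] at h2
  obtain ⟨lam, hlam, hlam0⟩ := exists_functional P P' hmax _ (hP x0 y0) h0
  -- the derivations
  let D : Γ → (Matrix ι ι R →ₗ[R] Matrix ι ι R) := fun y =>
    LinearMap.mulRight R (M y) - LinearMap.mulLeft R (M y)
  have hD : ∀ y z, D y z = z * M y - M y * z := fun y z => rfl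
  have hDP : ∀ y, ∀ z ∈ JJ M, D y z ∈ P := by
    intro y
    have h1 : JJ M ≤ P.comap (D y) := by
      rw [JJ, Submodule.span_le]
      rintro _ ⟨g, rfl⟩
      simp only [Submodule.comap_coe, Set.mem_preimage, SetLike.mem_coe]
      rw [hD]
      have h2 : (M g - 1) * M y - M y * (M g - 1) = M g * M y - M y * M g := by noncomm_ring
      rw [h2]
      exact hP g y
    exact h1
  let φ : Γ → (JJ M →ₗ[R] ResidueField R) := fun y => lam.comp ((D y).restrict (hDP y))
  have hφ : ∀ y (z : JJ M), φ y z = lam ⟨D y z, hDP y z z.2⟩ := fun y z => rfl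
  let b : Γ → Γ → ResidueField R := fun x y => φ y ⟨M x - 1, sub_one_mem_JJ M x⟩
  have hb : ∀ x y, b x y = lam ⟨M x * M y - M y * M x, hP x y⟩ := by
    intro x y
    show lam ⟨D y (M x - 1), _⟩ = _
    congr 1
    apply Subtype.ext
    show (M x - 1) * M y - M y * (M x - 1) = M x * M y - M y * M x
    noncomm_ring
  have hadd : ∀ (A B C : Matrix ι ι R) (hA : A ∈ P) (hB : B ∈ P) (hC : C ∈ P), A - B - C ∈ P' →
      lam ⟨A, hA⟩ = lam ⟨B, hB⟩ + lam ⟨C, hC⟩ := by
    intro A B C hA hB hC hT
    have h1 := hlam0 (⟨A, hA⟩ - ⟨B, hB⟩ - ⟨C, hC⟩) hT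
    rw [map_sub, map_sub] at h1
    linear_combination h1
  have hsm : ∀ (a : R) (r : ResidueField R), a • r = residue R a * r := by
    intro a r
    rw [Algebra.smul_def]
    rfl
  refine ⟨b, ?_, ?_, ?_, ⟨x0, y0, ?_⟩, ?_, ?_⟩
  · intro x x' y
    rw [hb, hb, hb]
    apply hadd
    have h1 : M (x * x') * M y - M y * M (x * x') - (M x * M y - M y * M x) -
        (M x' * M y - M y * M x') = (M x - 1) * (M x' * M y - M y * M x') +
        (M x * M y - M y * M x) * (M x' - 1) := by
      rw [map_mul]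
      noncomm_ring
    rw [h1]
    exact Submodule.add_mem _ (hL _ (hsubA x) _ (hP x' y)) (hR _ (hsubA x') _ (hP x y))
  · intro x y y'
    rw [hb, hb, hb]
    apply hadd
    have h1 : M x * M (y * y') - M (y * y') * M x - (M x * M y - M y * M x) -
        (M x * M y' - M y' * M x) = (M y - 1) * (M x * M y' - M y' * M x) +
        (M x * M y - M y * M x) * (M y' - 1) := by
      rw [map_mul]
      noncomm_ring
    rw [h1]
    exact Submodule.add_mem _ (hL _ (hsubA y) _ (hP x y')) (hR _ (hsubA y') _ (hP x y))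
  · intro x y hxy
    rw [hb]
    have h1 : (⟨M x * M y - M y * M x, hP x y⟩ : P) = 0 := by
      apply Subtype.ext
      show M x * M y - M y * M x = 0
      rw [hxy, sub_self]
    rw [h1, map_zero]
  · rw [hb]
    exact hlam
  · obtain ⟨m, hm⟩ := exists_rees (JJ M)
    refine ⟨m, ?_⟩
    intro x hx y
    have h1 : M x - 1 ∈ (maximalIdeal R) • JJ M := hm _ (sub_one_mem_JJ M x) hx
    have h2 : ∀ z ∈ (maximalIdeal R) • JJ M, ∃ hz : z ∈ JJ M, φ y ⟨z, hz⟩ = 0 := by
      intro z hz
      refine Submodule.smul_induction_on hz ?_ ?_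
      · intro a ha z hz
        refine ⟨Submodule.smul_mem _ a hz, ?_⟩
        have h3 : (⟨a • z, Submodule.smul_mem _ a hz⟩ : JJ M) = a • ⟨z, hz⟩ := rfl
        rw [h3, map_smul, hsm, (residue_eq_zero_iff a).2 ha, zero_mul]
      · rintro z z' ⟨hz, hz0⟩ ⟨hz', hz0'⟩
        refine ⟨Submodule.add_mem _ hz hz', ?_⟩
        have h3 : (⟨z + z', Submodule.add_mem _ hz hz'⟩ : JJ M) = ⟨z, hz⟩ + ⟨z', hz'⟩ := rfl
        rw [h3, map_add, hz0, hz0', add_zero]
    obtain ⟨_, h3⟩ := h2 _ h1
    exact h3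
  · intro d w
    obtain ⟨e, he, hgen⟩ := exists_gens (JJ M)
    have h1 : ∀ i : Fin d, ∃ c : Fin ((Fintype.card ι) ^ 2) → R, M (w i) - 1 = ∑ a, c a • e a :=
      fun i => hgen _ (sub_one_mem_JJ M (w i))
    choose c hc using h1
    have h2 : (Matrix.of fun i i' => b (w i) (w i')) =
        (Matrix.of fun (i : Fin d) (a : Fin ((Fintype.card ι) ^ 2)) => residue R (c i a)) *
        (Matrix.of fun (a : Fin ((Fintype.card ι) ^ 2)) (i' : Fin d) => φ (w i') ⟨e a, he a⟩) := by
      ext i i'
      rw [Matrix.mul_apply]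
      simp only [Matrix.of_apply]
      have h3 : (⟨M (w i) - 1, sub_one_mem_JJ M (w i)⟩ : JJ M) = ∑ a, c i a • ⟨e a, he a⟩ := by
        apply Subtype.ext
        rw [Submodule.coe_sum]
        exact hc i
      show φ (w i') ⟨M (w i) - 1, sub_one_mem_JJ M (w i)⟩ = _
      rw [h3, map_sum]
      apply Finset.sum_congr rfl
      intro a _
      rw [map_smul, hsm]
    rw [h2]
    refine (Matrix.rank_mul_le_left _ _).trans ?_
    refine (Matrix.rank_le_width _).trans ?_
    exact le_rfl

end Pool.Agent.MPca71Y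
end

section
set_option autoImplicit false

/-! Job A1 (medium): finite `p`-groups of matrices over a field of characteristic `p`. -/

namespace Pool.Agent.MPca71Y

/-- A `p`-group acting linearly on a nonzero vector space over a field of characteristic `p` has a
nonzero fixed vector: the `ZMod p`-span (additive subgroup generated by) of the orbit of some `v ≠ 0` is a finite nonzero
`p`-group stable under the action, its cardinality is divisible by `p`, `0` is fixed
(`IsPGroup.exists_fixed_point_of_prime_dvd_card_of_fixed_point`; compare `ad3_fixed` in ntW/AD3). -/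
theorem exists_fixed (p : ℕ) [Fact p.Prime] {k : Type} [Field k] [CharP k p] {P : Type} [Group P]
    [Finite P] (hP : IsPGroup p P) {V : Type} [AddCommGroup V] [Module k V] [Nontrivial V]
    (r : P →* Module.End k V) : ∃ v : V, v ≠ 0 ∧ ∀ g, r g v = v := by
  classical
  let _ : Algebra (ZMod p) k := ZMod.algebra k p
  let _ : Module (ZMod p) V := Module.compHom V (algebraMap (ZMod p) k)
  have hsm : ∀ (c : ZMod p) (v : V), c • v = (algebraMap (ZMod p) k c) • v := fun _ _ => rfl
  obtain ⟨v, hv⟩ := exists_ne (0 : V)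
  let rz : P → V →ₗ[ZMod p] V := fun g =>
    { toFun := fun x => r g x
      map_add' := fun x y => map_add _ _ _
      map_smul' := fun c x => by
        rw [hsm, map_smul]
        rfl }
  have hrz : ∀ g x, rz g x = r g x := fun _ _ => rfl
  let W : Submodule (ZMod p) V := Submodule.span (ZMod p) (Set.range fun g : P => r g v)
  have hWfin : Module.Finite (ZMod p) W := Module.Finite.span_of_finite _ (Set.finite_range _)
  have : Finite W := Module.finite_of_finite (ZMod p)
  have hWst : ∀ g, ∀ x ∈ W, rz g x ∈ W := by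
    intro g
    have h1 : W ≤ W.comap (rz g) := by
      rw [Submodule.span_le]
      rintro _ ⟨h, rfl⟩
      simp only [Submodule.comap_coe, Set.mem_preimage, SetLike.mem_coe]
      rw [hrz]
      refine Submodule.subset_span ⟨g * h, ?_⟩
      simp only [map_mul, Module.End.mul_apply]
    exact h1
  have hvW : v ∈ W := Submodule.subset_span ⟨1, by simp⟩
  have : Nontrivial W := ⟨⟨⟨v, hvW⟩, 0, fun h => hv (congrArg Subtype.val h)⟩⟩
  let r' : P →* Module.End (ZMod p) W :=
    { toFun := fun g => (rz g).restrict (hWst g)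
      map_one' := by
        ext x
        simp [hrz, LinearMap.restrict_apply]
      map_mul' := by
        intro a b
        ext x
        simp [hrz, LinearMap.restrict_apply] }
  have hr' : ∀ g (x : W), ((r' g x : W) : V) = r g x := fun _ _ => rfl
  obtain ⟨w, hw, hfix⟩ := Pool.Agent.MPca71W.ad3_fixed p hP r'
  refine ⟨w, fun h => hw (Subtype.ext h), fun g => ?_⟩
  rw [← hr', hfix]

private theorem a1_list (p : ℕ) [Fact p.Prime] {k : Type} [Field k] [CharP k p] {P : Type}
    [Group P] [Finite P] (hP : IsPGroup p P) (n : ℕ) :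
    ∀ (V : Type) [AddCommGroup V] [Module k V] [Module.Finite k V]
    (r : P →* Module.End k V) (_ : Module.finrank k V ≤ n) (l : List P)
    (_ : n ≤ l.length), (l.map (fun g => r g - 1)).prod = 0 := by
  induction n with
  | zero =>
    intro V _ _ _ r hn l _
    have h0 : Module.finrank k V = 0 := Nat.le_zero.mp hn
    have hs : Subsingleton V := Module.finrank_zero_iff.mp h0
    ext v
    exact Subsingleton.elim _ _
  | succ n ih =>
    intro V _ _ _ r hn l hl
    rcases subsingleton_or_nontrivial V with hs | hs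
    · ext v
      exact Subsingleton.elim _ _
    · obtain ⟨v0, hv0, hfix⟩ := exists_fixed p hP r
      set W : Submodule k V := Submodule.span k {v0} with hW
      have hWle : ∀ g, W ≤ W.comap (r g) := by
        intro g
        rw [hW, Submodule.span_le]
        intro x hx
        rw [Set.mem_singleton_iff] at hx
        subst hx
        simp only [Submodule.comap_coe, Set.mem_preimage, SetLike.mem_coe]
        rw [hfix]
        exact Submodule.mem_span_singleton_self _
      let r' : P →* Module.End k (V ⧸ W) :=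
        { toFun := fun g => W.mapQ W (r g) (hWle g)
          map_one' := by
            ext x
            simp
          map_mul' := by
            intro a b
            ext x
            simp }
      have hr' : ∀ g x, r' g (W.mkQ x) = W.mkQ (r g x) := fun g x => rfl
      have hfin : Module.finrank k (V ⧸ W) ≤ n := by
        have h1 := Submodule.finrank_quotient_add_finrank W
        have h2 : Module.finrank k W = 1 := finrank_span_singleton hv0
        omega
      cases l with
      | nil => simp at hl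
      | cons g t =>
        have ht : n ≤ t.length := by simpa using hl
        have h1 := ih (V ⧸ W) r' hfin t ht
        have h2 : ∀ (s : List P) (x : V), W.mkQ ((s.map (fun g => r g - 1)).prod x)
            = (s.map (fun g => r' g - 1)).prod (W.mkQ x) := by
          intro s
          induction s with
          | nil => intro x; simp
          | cons a s ihs =>
            intro x
            simp only [List.map_cons, List.prod_cons, Module.End.mul_apply]
            rw [← ihs]
            simp only [LinearMap.sub_apply, Module.End.one_apply, map_sub, hr']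
        have h3 : ∀ x, (t.map (fun g => r g - 1)).prod x ∈ W := by
          intro x
          have h4 := h2 t x
          rw [h1] at h4
          simpa using h4
        ext x
        simp only [List.map_cons, List.prod_cons, Module.End.mul_apply, LinearMap.zero_apply]
        obtain ⟨c, hc⟩ := Submodule.mem_span_singleton.mp (h3 x)
        rw [← hc, map_smul]
        simp [hfix]

/-- Induction on the dimension as in `ad3_list` (ntW/AD3, replace `ZMod p` by `k`), then the matrix
form (`Matrix.toLinAlgEquiv'`, compare `pgroup_nilpotent_list` in ntW/AD4). -/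
theorem pgroup_nilp (p : ℕ) [Fact p.Prime] {k : Type} [Field k] [CharP k p] {ι : Type} [Fintype ι]
    [DecidableEq ι] {P : Type} [Group P] [Finite P] (hP : IsPGroup p P) (r : P →* Matrix ι ι k)
    (l : List P) (hl : Fintype.card ι ≤ l.length) : (l.map (fun g => r g - 1)).prod = 0 := by
  classical
  let e : Matrix ι ι k ≃ₐ[k] Module.End k (ι → k) := Matrix.toLinAlgEquiv'
  let r' : P →* Module.End k (ι → k) := (e : Matrix ι ι k →* _).comp r
  have h := a1_list p hP (Fintype.card ι) (ι → k) r' (by simp) l hl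
  apply e.injective
  rw [map_zero, map_list_prod]
  rw [← h]
  congr 1
  rw [List.map_map]
  congr 1
  funext i
  simp only [Function.comp, map_sub, map_one]
  rfl

end Pool.Agent.MPca71Y
end

section
set_option autoImplicit false
open scoped Matrix

/-! Job C4 (medium): the matrices `G`, `Y`. -/

namespace Pool.Agent.MPca71Y

/-- Index the rows by `Fin d ⊕ (Fin (2 d) × Fin r × Fin a × Fin a)` (cardinality `d + 2 d r a²`,
transport along an equivalence with `Fin (d * (1 + 2 * r * a ^ 2))`). Let `e0 = ⟨0, hd⟩ : Fin d` and `X, Z` from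
`exists_pairs`. Row `inl i`: `G = e_0` (i.e. `Pi.single e0 1`), `Y = e_i`. Row `inr τ`:
`G = X τ + (1 - ∑ X τ) e_0`, `Y = Z τ`. All row sums of `G` are `1`. If `B` is alternating and all the sums
vanish then the rows `inl i` give `B e0 i = 0` for all `i`, so also `B i e0 = 0`, and the rows `inr τ` give
`∑ X τ i B i i' Z τ i' = 0`; so `B = 0` by `exists_pairs`. -/
theorem exists_goodK (p : ℕ) [Fact p.Prime] (d r a : ℕ) (hd : 1 ≤ d) (ha : 2 * d ≤ p ^ a) :
    ∃ G Y : Matrix (Fin (d * (1 + 2 * r * a ^ 2))) (Fin d) (ZMod p),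
      (∀ j, ∑ i, G j i = 1) ∧ GoodK p (d * (1 + 2 * r * a ^ 2)) d r G Y := by
  classical
  obtain ⟨X, Z, hXZ⟩ := exists_pairs p d r a hd ha
  let e0 : Fin d := ⟨0, hd⟩
  have hcard : Fintype.card (Fin (d * (1 + 2 * r * a ^ 2))) =
      Fintype.card (Fin d ⊕ (Fin (2 * d) × Fin r × Fin a × Fin a)) := by
    simp only [Fintype.card_sum, Fintype.card_prod, Fintype.card_fin]
    ring
  let e : Fin (d * (1 + 2 * r * a ^ 2)) ≃ Fin d ⊕ (Fin (2 * d) × Fin r × Fin a × Fin a) :=
    Fintype.equivOfCardEq hcard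
  let Gf : (Fin d ⊕ (Fin (2 * d) × Fin r × Fin a × Fin a)) → Fin d → ZMod p := fun j i =>
    Sum.elim (fun _ => (if i = e0 then 1 else 0 : ZMod p))
      (fun τ => X τ i + (if i = e0 then 1 - ∑ i, X τ i else 0)) j
  let Yf : (Fin d ⊕ (Fin (2 * d) × Fin r × Fin a × Fin a)) → Fin d → ZMod p := fun j i =>
    Sum.elim (fun i0 => (if i = i0 then 1 else 0 : ZMod p)) (fun τ => Z τ i) j
  refine ⟨fun j i => Gf (e j) i, fun j i => Yf (e j) i, ?_, ?_⟩
  · intro j
    change ∑ i, Gf (e j) i = 1
    generalize e j = q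
    rcases q with i0 | τ
    · simp [Gf]
    · simp [Gf, Finset.sum_add_distrib]
  · intro k _ _ B h1 h2 h3 h4
    have h5 : ∀ q, ∑ i, ∑ i', algebraMap (ZMod p) k (Gf q i) * B i i' *
        algebraMap (ZMod p) k (Yf q i') = 0 := by
      intro q
      have := h4 (e.symm q)
      simp only [Equiv.apply_symm_apply] at this
      exact this
    have h6 : ∀ i0, B e0 i0 = 0 := by
      intro i0
      have h7 := h5 (Sum.inl i0)
      have h8 : ∀ i i', algebraMap (ZMod p) k (Gf (Sum.inl i0) i) * B i i' *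
          algebraMap (ZMod p) k (Yf (Sum.inl i0) i') =
            if i = e0 then (if i' = i0 then B i i' else 0) else 0 := by
        intro i i'
        by_cases hi : i = e0
        · by_cases hi' : i' = i0
          · simp [Gf, Yf, hi, hi']
          · simp [Gf, Yf, hi, hi']
        · simp [Gf, hi]
      simp only [h8] at h7
      simpa using h7
    refine hXZ k B h3 fun τ => ?_
    have h7 := h5 (Sum.inr τ)
    have h8 : ∀ i i', algebraMap (ZMod p) k (Gf (Sum.inr τ) i) * B i i' *
        algebraMap (ZMod p) k (Yf (Sum.inr τ) i') =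
          algebraMap (ZMod p) k (X τ i) * B i i' * algebraMap (ZMod p) k (Z τ i') := by
      intro i i'
      by_cases hi : i = e0
      · simp [hi, h6]
      · simp [Gf, Yf, hi]
    simp only [h8] at h7
    exact h7

/-- More rows and smaller rank. -/
theorem GoodK.mono {p t d r r' : ℕ} {G Y : Matrix (Fin t) (Fin d) (ZMod p)} (hr : r' ≤ r)
    (h : GoodK p t d r G Y) : GoodK p t d r' G Y :=
  fun k _ _ B h1 h2 h3 h4 => h k B h1 h2 (h3.trans hr) h4

end Pool.Agent.MPca71Y
end

section
set_option autoImplicit false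

/-! Job G2 (medium): the image is commutative. -/

namespace Pool.Agent.MPca71Y

open Pool.Agent.MPca71X IsLocalRing

/-- Suppose not, let `b` be the form of `ring_form`, `k = ResidueField R` with the `ZMod p`-algebra structure
`ZMod.algebra`. For fixed `z` the functions `b · z` and `b z ·` satisfy the hypotheses of `gen_k` (open: the subgroup of
`hopen m`; on `I ∩ K0` `M g = 1` commutes with everything; for the second argument use `b z g = - b g z`, which follows from
`b (z g) (z g) = 0` and biadditivity). With `B i i' = (χ i (w i))⁻¹ (χ i' (w i'))⁻¹ b (w i) (w i')` one gets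
`b g g' = ∑ i i', χ i g * B i i' * χ i' g'`. `B` is alternating, `B ≠ 0` (as `b ≠ 0`), and `B.rank ≤ (card ι)²` (`B` is the matrix
`(b (w i) (w i'))` multiplied by diagonal matrices, `Matrix.rank_mul_le_right`, `rank_mul_le_left`). `x j`, `y j` commute in the image:
`M ([x j, y j]) = 1` by `xy` and `hI`. So `0 = b (x j) (y j) = u j * ∑ G j i B i i' Y j i'`, contradiction to `GoodK`. -/
theorem comm_of_good {p t d : ℕ} [Fact p.Prime] {Γ : Type} [Group Γ] [TopologicalSpace Γ]
    [IsTopologicalGroup Γ] {I : Set Γ} {K0 : Subgroup Γ} {χ : Fin d → Γ → ZMod p}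
    {x y : Fin t → Γ} {u : Fin t → ZMod p} {G Y : Matrix (Fin t) (Fin d) (ZMod p)}
    {w : Fin d → Γ} (h : FMD p t d Γ I K0 χ x y u G Y w) {R ι : Type} [CommRing R] [IsDomain R]
    [IsDiscreteValuationRing R] [CharP (ResidueField R) p] [Fintype ι] [DecidableEq ι]
    (M : Γ →* Matrix ι ι R) {N : ℕ} (hN : Nil N M)
    (hgood : GoodK p t d ((Fintype.card ι) ^ 2) G Y) (hI : ∀ g ∈ I, g ∈ K0 → M g = 1)
    (hopen : ∀ m : ℕ, ∃ N' : Subgroup Γ, IsOpen (N' : Set Γ) ∧ ∀ g ∈ N', Lv m (M g)) :
    ∀ g g', M g * M g' = M g' * M g := by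
  classical
  by_contra hcon
  push Not at hcon
  obtain ⟨b, hb1, hb2, hb3, ⟨g0, g0', hb4⟩, ⟨m, hm⟩, hrank⟩ := ring_form M hN hcon
  letI : Algebra (ZMod p) (ResidueField R) := ZMod.algebra (ResidueField R) p
  have hself : ∀ z, b z z = 0 := fun z => hb3 z z rfl
  have hanti : ∀ z z', b z z' = - b z' z := by
    intro z z'
    have h1 := hself (z * z')
    rw [hb1, hb2, hb2, hself, hself] at h1
    linear_combination h1
  obtain ⟨N', hN'o, hN'⟩ := hopen m
  have hl : ∀ z g, b g z = ∑ i, algebraMap (ZMod p) (ResidueField R)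
      (χ i g * (χ i (w i))⁻¹) * b (w i) z := by
    intro z g
    refine gen_k h (fun g => b g z) (fun a a' => hb1 a a' z) ⟨N', hN'o, fun a ha => ?_⟩
      (fun a ha ha' => ?_) g
    · exact hm a (hN' a ha) z
    · exact hb3 a z (by rw [hI a ha ha', one_mul, mul_one])
  have hr : ∀ z g, b z g = ∑ i, algebraMap (ZMod p) (ResidueField R)
      (χ i g * (χ i (w i))⁻¹) * b z (w i) := by
    intro z g
    rw [hanti z g, hl z g, ← Finset.sum_neg_distrib]
    apply Finset.sum_congr rfl
    intro i _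
    rw [hanti z (w i)]
    ring
  let B : Matrix (Fin d) (Fin d) (ResidueField R) := Matrix.of fun i i' =>
    algebraMap (ZMod p) (ResidueField R) (χ i (w i))⁻¹ * b (w i) (w i') *
      algebraMap (ZMod p) (ResidueField R) (χ i' (w i'))⁻¹
  have hBdef : ∀ i i', B i i' = algebraMap (ZMod p) (ResidueField R) (χ i (w i))⁻¹ *
      b (w i) (w i') * algebraMap (ZMod p) (ResidueField R) (χ i' (w i'))⁻¹ := fun i i' => rfl
  have hform : ∀ g g', b g g' = ∑ i, ∑ i', algebraMap (ZMod p) (ResidueField R) (χ i g) * B i i' *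
      algebraMap (ZMod p) (ResidueField R) (χ i' g') := by
    intro g g'
    rw [hl g' g]
    apply Finset.sum_congr rfl
    intro i _
    rw [hr (w i) g', Finset.mul_sum]
    apply Finset.sum_congr rfl
    intro i' _
    rw [hBdef, map_mul, map_mul]
    ring
  have hB0 : B = 0 := by
    refine hgood (ResidueField R) B ?_ ?_ ?_ ?_
    · intro i
      rw [hBdef, hself]
      ring
    · intro i i'
      rw [hBdef, hBdef, hanti (w i) (w i')]
      ring
    · have hBm : B = Matrix.diagonal (fun i => algebraMap (ZMod p) (ResidueField R) (χ i (w i))⁻¹) *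
          (Matrix.of fun i i' => b (w i) (w i')) *
          Matrix.diagonal (fun i => algebraMap (ZMod p) (ResidueField R) (χ i (w i))⁻¹) := by
        ext i i'
        rw [Matrix.mul_diagonal, Matrix.diagonal_mul]
        rfl
      rw [hBm]
      exact (Matrix.rank_mul_le_left _ _).trans ((Matrix.rank_mul_le_right _ _).trans (hrank d w))
    · intro j
      have hcomm : M (x j) * M (y j) = M (y j) * M (x j) := by
        have h1 := hI _ (h.xy j).1 (h.xy j).2
        have h2 : x j * y j = (x j * y j * (x j)⁻¹ * (y j)⁻¹) * (y j * x j) := by group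
        rw [← map_mul, h2, map_mul, h1, one_mul, map_mul]
      have h3 := hb3 _ _ hcomm
      rw [hform] at h3
      have h4 : ∑ i, ∑ i', algebraMap (ZMod p) (ResidueField R) (χ i (x j)) * B i i' *
          algebraMap (ZMod p) (ResidueField R) (χ i' (y j)) =
          algebraMap (ZMod p) (ResidueField R) (u j) *
          ∑ i, ∑ i', algebraMap (ZMod p) (ResidueField R) (G j i) * B i i' *
            algebraMap (ZMod p) (ResidueField R) (Y j i') := by
        rw [Finset.mul_sum]
        apply Finset.sum_congr rfl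
        intro i _
        rw [Finset.mul_sum]
        apply Finset.sum_congr rfl
        intro i' _
        rw [h.chx, h.chy, map_mul]
        ring
      rw [h4] at h3
      rcases mul_eq_zero.1 h3 with h5 | h5
      · exact absurd ((map_eq_zero _).1 h5) (h.une j)
      · exact h5
  apply hb4
  rw [hform]
  apply Finset.sum_eq_zero
  intro i _
  apply Finset.sum_eq_zero
  intro i' _
  rw [hB0, Matrix.zero_apply, mul_zero, zero_mul]

end Pool.Agent.MPca71Y
end

section
set_option autoImplicit false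

/-! Job I2 (medium): topology and nilpotency for the induced representation. -/

namespace Pool.Agent.MPca71Y

open IsLocalRing

variable {p : ℕ} [Fact p.Prime] {Γ : Type} [Group Γ] [TopologicalSpace Γ] [IsTopologicalGroup Γ]
  [CompactSpace Γ]

/-- Let `V ≤ Γ` be an open subgroup such that every `g : Γ` has some power `g ^ p ^ k ∈ V`. Then the normal
core `V.normalCore` is open, normal, of finite index, and every `g : Γ` has some power `g ^ p ^ k` in it.
Proof: `V` has finite index (`Γ` compact), it is closed, so its normal core is closed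
(`Subgroup.normalCore_isClosed`) of finite index, so open (`Subgroup.isOpen_of_isClosed_of_finiteIndex`). Let the order of the class of `g` in the finite
group `Γ ⧸ V.normalCore` be `p ^ e * m` with `m` prime to `p`, `z = g ^ p ^ e`. For every `τ` the element `τ z τ⁻¹` has a power
`p ^ k` in `V` and its `m`-th power is in `V.normalCore ≤ V`, so it is in `V` (Bezout). So `z ∈ V.normalCore`. -/
theorem core_props (V : Subgroup Γ) (hV : IsOpen (V : Set Γ))
    (hp : ∀ g : Γ, ∃ k : ℕ, g ^ p ^ k ∈ V) :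
    IsOpen (V.normalCore : Set Γ) ∧ V.normalCore.FiniteIndex ∧
      ∀ g : Γ, ∃ k : ℕ, g ^ p ^ k ∈ V.normalCore := by
  have h0 : Finite (Γ ⧸ V) := V.quotient_finite_of_isOpen hV
  have h1 : V.FiniteIndex := Subgroup.finiteIndex_of_finite_quotient
  have h2 : V.normalCore.FiniteIndex := inferInstance
  have h3 : IsClosed (V : Set Γ) := V.isClosed_of_isOpen hV
  have h4 : IsClosed (V.normalCore : Set Γ) := V.normalCore_isClosed h3
  refine ⟨V.normalCore.isOpen_of_isClosed_of_finiteIndex h4, h2, fun g => ?_⟩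
  have h5 : IsOfFinOrder (QuotientGroup.mk g : Γ ⧸ V.normalCore) := by
    have : Finite (Γ ⧸ V.normalCore) := Subgroup.finite_quotient_of_finiteIndex
    exact isOfFinOrder_of_finite _
  obtain ⟨e, m, hm, he⟩ := Nat.exists_eq_pow_mul_and_not_dvd h5.orderOf_pos.ne' p
    (Fact.out : p.Prime).ne_one
  refine ⟨e, ?_⟩
  have hz : (g ^ p ^ e) ^ m ∈ V.normalCore := by
    rw [← pow_mul, ← QuotientGroup.eq_one_iff, QuotientGroup.mk_pow, ← he]
    exact pow_orderOf_eq_one _
  change ∀ τ : Γ, τ * (g ^ p ^ e) * τ⁻¹ ∈ V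
  intro τ
  obtain ⟨z, hzz⟩ : ∃ z, z = τ * (g ^ p ^ e) * τ⁻¹ := ⟨_, rfl⟩
  rw [← hzz]
  obtain ⟨k, hk⟩ := hp z
  have hzm : z ^ m ∈ V := by
    rw [hzz, conj_pow]
    exact hz τ
  have hco : IsCoprime ((p ^ k : ℕ) : ℤ) (m : ℤ) := by
    rw [Nat.isCoprime_iff_coprime]
    exact Nat.Coprime.pow_left k (((Fact.out : p.Prime).coprime_iff_not_dvd).2 hm)
  obtain ⟨a, b, hab⟩ := hco
  have : z = (z ^ p ^ k) ^ a * (z ^ m) ^ b := by
    rw [← zpow_natCast z (p ^ k), ← zpow_natCast z m, ← zpow_mul, ← zpow_mul, ← zpow_add,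
      mul_comm _ a, mul_comm _ b, hab, zpow_one]
  rw [this]
  exact V.mul_mem (V.zpow_mem hk a) (V.zpow_mem hzm b)

/-- If the representation `M` is congruent to `1` modulo the maximal ideal on a normal subgroup `N'` of finite index such
that every element of `Γ` has a `p`-power power in `N'`, then products of `card ι` elements `M g - 1` are `0`
modulo the maximal ideal: reduce modulo the maximal ideal (`RingHom.mapMatrix (residue R)`), pass to the finite
`p`-group `Γ ⧸ N'` (`QuotientGroup.lift`) and use `pgroup_nilp` (the list of the classes). -/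
theorem nil_of_core {R ι : Type} [CommRing R] [IsLocalRing R] [CharP (ResidueField R) p]
    [Fintype ι] [DecidableEq ι] (M : Γ →* Matrix ι ι R) (N' : Subgroup Γ) [N'.Normal]
    [N'.FiniteIndex] (h1 : ∀ g ∈ N', Lv 1 (M g)) (hp : ∀ g : Γ, ∃ k : ℕ, g ^ p ^ k ∈ N') :
    Nil (Fintype.card ι) M := by
  intro l hl i j
  obtain ⟨f, hf⟩ : ∃ f : Matrix ι ι R →+* Matrix ι ι (ResidueField R),
    f = (residue R).mapMatrix := ⟨_, rfl⟩
  have hfapp : ∀ (A : Matrix ι ι R) i j, f A i j = residue R (A i j) := by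
    intro A i j
    rw [hf]
    rfl
  obtain ⟨r₀, hr₀⟩ : ∃ r₀ : Γ →* Matrix ι ι (ResidueField R), ∀ g, r₀ g = f (M g) :=
    ⟨(f : Matrix ι ι R →* Matrix ι ι (ResidueField R)).comp M, fun g => rfl⟩
  have hker : N' ≤ r₀.ker := by
    intro g hg
    rw [MonoidHom.mem_ker, hr₀]
    have h2 : f (M g - 1) = 0 := by
      ext i j
      rw [hfapp, Matrix.zero_apply, residue_eq_zero_iff]
      have := h1 g hg i j
      rwa [pow_one] at this
    rw [map_sub, map_one, sub_eq_zero] at h2
    exact h2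
  have hfin : Finite (Γ ⧸ N') := Subgroup.finite_quotient_of_finiteIndex
  have hP : IsPGroup p (Γ ⧸ N') := by
    intro g
    obtain ⟨g, rfl⟩ := QuotientGroup.mk_surjective g
    obtain ⟨k, hk⟩ := hp g
    refine ⟨k, ?_⟩
    rw [← QuotientGroup.mk_pow, QuotientGroup.eq_one_iff]
    exact hk
  have key := pgroup_nilp p hP (QuotientGroup.lift N' r₀ hker) (l.map QuotientGroup.mk)
    (by simpa using hl)
  have h3 : f (l.map (fun g => M g - 1)).prod = 0 := by
    rw [map_list_prod, List.map_map, ← key, List.map_map]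
    congr 1
    apply List.map_congr_left
    intro g _
    simp [hr₀]
  rw [← residue_eq_zero_iff, ← hfapp, h3, Matrix.zero_apply]

end Pool.Agent.MPca71Y
end

section
set_option autoImplicit false

/-! Job I3 (medium-long): finiteness of the image. -/

namespace Pool.Agent.MPca71Y

open Pool.Agent.MPca71X IsLocalRing

private theorem i3_one {R ι : Type} [CommRing R] [IsLocalRing R] [DecidableEq ι] (m : ℕ) :
    Lv m (1 : Matrix ι ι R) := by
  intro i j
  simp

private theorem i3_mul {R ι : Type} [CommRing R] [IsLocalRing R] [Fintype ι] [DecidableEq ι] {m : ℕ}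
    {A B : Matrix ι ι R} (hA : Lv m A) (hB : Lv m B) : Lv m (A * B) := by
  intro i j
  have e : A * B - 1 = (A - 1) * B + (B - 1) := by
    rw [sub_mul, one_mul]
    abel
  rw [e, Matrix.add_apply, Matrix.mul_apply]
  refine Ideal.add_mem _ (Ideal.sum_mem _ fun l _ => ?_) (hB i j)
  exact Ideal.mul_mem_right _ _ (hA i l)

private theorem i3_inv {R ι : Type} [CommRing R] [IsLocalRing R] [Fintype ι] [DecidableEq ι] {m : ℕ}
    {A B : Matrix ι ι R} (hA : Lv m A) (hBA : B * A = 1) : Lv m B := by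
  intro i j
  have e : B - 1 = - (B * (A - 1)) := by
    rw [mul_sub, hBA, mul_one]
    abel
  rw [e, Matrix.neg_apply, Matrix.mul_apply]
  refine neg_mem (Ideal.sum_mem _ fun l _ => ?_)
  exact Ideal.mul_mem_left _ _ (hA l j)

/-- The subgroup of `K0` where `ρ` is congruent to `1`. -/
private def i3W {Γ : Type} [Group Γ] {K0 : Subgroup Γ} {n : ℕ} {R : Type} [CommRing R]
    [IsLocalRing R] (ρ : K0 →* Matrix.GeneralLinearGroup (Fin n) R) (m : ℕ) : Subgroup K0 where
  carrier := {g | Lv m (ρ g : Matrix (Fin n) (Fin n) R)}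
  one_mem' := by
    simp only [Set.mem_ofPred_eq, map_one, Units.val_one]
    exact i3_one m
  mul_mem' := by
    intro a b ha hb
    simp only [Set.mem_ofPred_eq, map_mul, Units.val_mul] at ha hb ⊢
    exact i3_mul ha hb
  inv_mem' := by
    intro a ha
    simp only [Set.mem_ofPred_eq] at ha ⊢
    refine i3_inv ha ?_
    rw [← Units.val_mul, ← map_mul, inv_mul_cancel, map_one, Units.val_one]

/-- Let `V m ≤ Γ` be the image of the subgroup `{g : K0 | Lv m (ρ g)}` (a subgroup: `Lv m` is closed under products and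
inverses), open in `Γ` (`K0` is open). Every `g : Γ` has `g ^ p ∈ K0` (`K0i`, `Subgroup.pow_index_mem`), so some `g ^ p ^ k ∈ V m`. `core_props`:
`N' = (V m).normalCore`. Let `M` be the induced representation of `g ↦ (ρ g : Matrix)` (`exists_ind`), `card ι = p n`.
For `g ∈ N'` all conjugates are in `V m`, so `Lv m (M g)`: `hopen`; `hpp`: `g ^ p ^ k ∈ N'`. `Nil`: `nil_of_core` with `m = 1`. `hI`: for `g ∈ I ∩ K0` all conjugates are in
`I ∩ K0`, where `ρ = 1`; `exists_ind` with `a = ⊥`. `comm_of_good` (`hgood`, `card ι = p * n`) and `exp_of_comm`. Then for `g, g' ∈ K0`: `M (g ^ p) = 1`, so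
`ρ (g ^ p) = 1`; `M (g g' g⁻¹ g'⁻¹) = 1`, so `ρ g ρ g' = ρ g' ρ g`. Finite: if `χ i g = χ i g'` for all `i` then `g⁻¹ g'` is in the common kernel,
`M (g⁻¹ g') = 1`, `ρ g = ρ g'`; so `ρ` factors through the finite set `Fin d → ZMod p`. -/
theorem fm_finite_R {p t d n : ℕ} [Fact p.Prime] {Γ : Type} [Group Γ] [TopologicalSpace Γ]
    [IsTopologicalGroup Γ] [CompactSpace Γ] {I : Set Γ} {K0 : Subgroup Γ}
    {χ : Fin d → Γ → ZMod p} {x y : Fin t → Γ} {u : Fin t → ZMod p}
    {G Y : Matrix (Fin t) (Fin d) (ZMod p)} {w : Fin d → Γ}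
    (h : FMD p t d Γ I K0 χ x y u G Y w) (hgood : GoodK p t d ((p * n) ^ 2) G Y) {R : Type}
    [CommRing R] [IsDomain R] [IsDiscreteValuationRing R] [CharP (ResidueField R) p]
    (ρ : K0 →* Matrix.GeneralLinearGroup (Fin n) R)
    (ho : ∀ m : ℕ, IsOpen {g : K0 | Lv m (ρ g : Matrix (Fin n) (Fin n) R)})
    (hρI : ∀ g : K0, (g : Γ) ∈ I → ρ g = 1)
    (hρp : ∀ (m : ℕ) (g : K0), ∃ k : ℕ, Lv m (ρ (g ^ p ^ k) : Matrix (Fin n) (Fin n) R)) :
    (Set.range ρ).Finite ∧ (∀ g, ρ g ^ p = 1) ∧ ∀ g g', ρ g * ρ g' = ρ g' * ρ g := by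
  have : K0.Normal := h.K0n
  have : K0.FiniteIndex := ⟨by rw [h.K0i]; exact (Fact.out : p.Prime).ne_zero⟩
  obtain ⟨ρ', hρ'⟩ : ∃ ρ' : K0 →* Matrix (Fin n) (Fin n) R, ∀ g, ρ' g = (ρ g).1 :=
    ⟨(Units.coeHom _).comp ρ, fun g => rfl⟩
  obtain ⟨ι, _, _, M, hcard, hM1, hMa⟩ := exists_ind K0 ρ'
  have hM1' : ∀ g : K0, M (g : Γ) = 1 → ρ g = 1 := by
    intro g hg
    apply Units.ext
    rw [← hρ', hM1 g hg, Units.val_one]
  obtain ⟨Vm, hVm⟩ : ∃ Vm : ℕ → Subgroup Γ, ∀ m, Vm m = (i3W ρ m).map K0.subtype :=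
    ⟨_, fun m => rfl⟩
  have hVmem : ∀ m g, g ∈ Vm m → ∃ hg : g ∈ K0, Lv m (ρ ⟨g, hg⟩ : Matrix (Fin n) (Fin n) R) := by
    intro m g hg
    rw [hVm] at hg
    obtain ⟨g', hg', rfl⟩ := hg
    exact ⟨g'.2, hg'⟩
  have hVo : ∀ m, IsOpen (Vm m : Set Γ) := by
    intro m
    rw [hVm, Subgroup.coe_map]
    exact h.K0o.isOpenMap_subtype_val _ (ho m)
  have hVp : ∀ m (g : Γ), ∃ k : ℕ, g ^ p ^ k ∈ Vm m := by
    intro m g
    have hg : g ^ p ∈ K0 := by
      have := Subgroup.pow_index_mem K0 g
      rwa [h.K0i] at this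
    obtain ⟨k, hk⟩ := hρp m ⟨g ^ p, hg⟩
    refine ⟨k + 1, ?_⟩
    rw [hVm]
    refine ⟨⟨g ^ p, hg⟩ ^ p ^ k, hk, ?_⟩
    rw [map_pow, Subgroup.coe_subtype, ← pow_mul, ← pow_succ']
  have hcore := fun m => core_props (p := p) (Vm m) (hVo m) (hVp m)
  have hN : ∀ m, ∀ g ∈ (Vm m).normalCore, Lv m (M g) := by
    intro m g hg
    refine hMa _ g fun τ => ?_
    have h1 : τ * g * τ⁻¹ ∈ Vm m := (Vm m).normalCore_le
      ((Vm m).normalCore_normal.conj_mem g hg τ)
    obtain ⟨h2, h3⟩ := hVmem m _ h1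
    refine ⟨h2, fun i j => ?_⟩
    rw [hρ']
    exact h3 i j
  have hopen : ∀ m : ℕ, ∃ N' : Subgroup Γ, IsOpen (N' : Set Γ) ∧ ∀ g ∈ N', Lv m (M g) :=
    fun m => ⟨(Vm m).normalCore, (hcore m).1, hN m⟩
  have hpp : ∀ (m : ℕ) (g : Γ), ∃ k : ℕ, Lv m (M (g ^ p ^ k)) := by
    intro m g
    obtain ⟨k, hk⟩ := (hcore m).2.2 g
    exact ⟨k, hN m _ hk⟩
  have := (hcore 1).2.1
  have hNil : Nil (Fintype.card ι) M := nil_of_core M (Vm 1).normalCore (hN 1) (hcore 1).2.2
  have hI : ∀ g ∈ I, g ∈ K0 → M g = 1 := by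
    intro g hg hgK
    have h1 : ∀ i j, (M g - 1) i j ∈ (⊥ : Ideal R) := by
      refine hMa ⊥ g fun τ => ?_
      have h2 : τ * g * τ⁻¹ ∈ K0 := h.K0n.conj_mem g hgK τ
      refine ⟨h2, fun i j => ?_⟩
      rw [hρ', hρI ⟨τ * g * τ⁻¹, h2⟩ (h.Iconj g hg τ)]
      simp
    have h2 : M g - 1 = 0 := by
      ext i j
      exact (Ideal.mem_bot).1 (h1 i j)
    exact sub_eq_zero.1 h2
  have hgood' : GoodK p t d ((Fintype.card ι) ^ 2) G Y := by
    rw [hcard, h.K0i]
    exact hgood
  have hcomm := comm_of_good h M hNil hgood' hI hopen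
  obtain ⟨hexp, hker⟩ := exp_of_comm h M hI hopen hpp hcomm
  refine ⟨?_, ?_, ?_⟩
  · have hf : Function.FactorsThrough (ρ : K0 → Matrix.GeneralLinearGroup (Fin n) R)
        (fun (g : K0) (i : Fin d) => χ i (g : Γ)) := by
      intro g g' hgg
      have h1 : ∀ i, χ i ((g⁻¹ * g' : K0) : Γ) = 0 := by
        intro i
        have h2 : χ i (g : Γ) = χ i (g' : Γ) := congrFun hgg i
        have h3 := h.chs i (g : Γ) ((g⁻¹ * g' : K0) : Γ)
        rw [← Subgroup.coe_mul, mul_inv_cancel_left, h2] at h3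
        exact left_eq_add.1 h3
      have h4 := hM1' _ (hker _ h1)
      rw [map_mul, map_inv, inv_mul_eq_one] at h4
      exact h4
    obtain ⟨e, he⟩ := (Function.factorsThrough_iff _).1 hf
    rw [he]
    exact (Set.finite_range e).subset (Set.range_comp_subset_range _ _)
  · intro g
    have h1 : M ((g ^ p : K0) : Γ) = 1 := by
      rw [Subgroup.coe_pow]
      exact hexp _
    have h2 := hM1' _ h1
    rwa [map_pow] at h2
  · intro g g'
    have h1 : M ((g * g' * g⁻¹ * g'⁻¹ : K0) : Γ) = 1 := by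
      simp only [Subgroup.coe_mul, map_mul]
      rw [hcomm (g : Γ) (g' : Γ)]
      rw [← map_mul, ← map_mul, ← map_mul]
      simp
    have h2 := hM1' _ h1
    simp only [map_mul, map_inv] at h2
    rw [mul_inv_eq_one, mul_inv_eq_iff_eq_mul] at h2
    exact h2

end Pool.Agent.MPca71Y
end
end
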