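import Pool.Agent.Lib.MP_ca71b5_ntY.D0
import Pool.Agent.Lib.MP_ca71b5_ntX.N0
import Pool.Agent.Lib.MP_ca71b5_ntW.C4a
import Pool.Agent.Lib.MP_ca71b5_ntW.Fin4
import Pool.Agent.Lib.MP_ca71b5_ntX.P4c
import Pool.Agent.Lib.MP_ca71b5_ntX.M4c
import Pool.Agent.Lib.MP_ca71b5_ntX.M6
import Pool.Agent.Lib.MP_ca71b5_ntX.M4b
import Pool.Agent.Lib.MP_ca71b5_ntX.N9
import Pool.Agent.Lib.MP_ca71b5_ntX.G0
import Pool.Agent.Lib.MP_ca71b5_ntY.I3
import Pool.Agent.Lib.MP_ca71b5_ntX.UE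

section
set_option autoImplicit false
open scoped NumberField
open NumberField

/-! Unramified pro-`p` representations over a discrete valuation ring: the level subgroups
(MP_ca71b5_nt, helper46, paper 557). -/

namespace Pool.Agent.MPca71Y

open Pool.Agent.MPca71W Pool.Agent.MPca71X IsLocalRing

section level

variable {R : Type} [CommRing R] [IsLocalRing R] {Γ : Type} [Group Γ] {m : ℕ}

/-- The subgroup of level `l`: the kernel of the reduction modulo the `l`-th power of the maximal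
ideal. -/
def levelSub (ρ : Γ →* Matrix.GeneralLinearGroup (Fin m) R) (l : ℕ) : Subgroup Γ :=
  ((Matrix.GeneralLinearGroup.map (Ideal.Quotient.mk (maximalIdeal R ^ l))).comp ρ).ker

theorem mem_levelSub (ρ : Γ →* Matrix.GeneralLinearGroup (Fin m) R) (l : ℕ) (g : Γ) :
    g ∈ levelSub ρ l ↔ Lv l (ρ g : Matrix (Fin m) (Fin m) R) := by
  unfold levelSub Lv
  rw [MonoidHom.mem_ker, MonoidHom.comp_apply]
  constructor
  · intro h i j
    have h1 := congrArg (fun A : Matrix.GeneralLinearGroup (Fin m) (R ⧸ maximalIdeal R ^ l) =>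
      (A : Matrix (Fin m) (Fin m) (R ⧸ maximalIdeal R ^ l)) i j) h
    change Ideal.Quotient.mk (maximalIdeal R ^ l) ((ρ g : Matrix (Fin m) (Fin m) R) i j) =
      (1 : Matrix (Fin m) (Fin m) (R ⧸ maximalIdeal R ^ l)) i j at h1
    have h2 : (1 : Matrix (Fin m) (Fin m) (R ⧸ maximalIdeal R ^ l)) i j =
        Ideal.Quotient.mk (maximalIdeal R ^ l) ((1 : Matrix (Fin m) (Fin m) R) i j) := by
      rw [Matrix.one_apply, Matrix.one_apply]
      split_ifs
      · rw [map_one]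
      · rw [map_zero]
    rw [h2, Ideal.Quotient.eq] at h1
    exact h1
  · intro h
    apply Units.ext
    ext i j
    have h1 := h i j
    rw [Matrix.sub_apply, ← Ideal.Quotient.eq] at h1
    change Ideal.Quotient.mk (maximalIdeal R ^ l) ((ρ g : Matrix (Fin m) (Fin m) R) i j) =
      (1 : Matrix (Fin m) (Fin m) (R ⧸ maximalIdeal R ^ l)) i j
    rw [h1, Matrix.one_apply, Matrix.one_apply]
    split_ifs
    · rw [map_one]
    · rw [map_zero]

theorem levelSub_normal (ρ : Γ →* Matrix.GeneralLinearGroup (Fin m) R) (l : ℕ) :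
    (levelSub ρ l).Normal :=
  MonoidHom.normal_ker _

theorem ker_le_levelSub (ρ : Γ →* Matrix.GeneralLinearGroup (Fin m) R) (l : ℕ) :
    ρ.ker ≤ levelSub ρ l := by
  intro g hg
  rw [MonoidHom.mem_ker] at hg
  rw [mem_levelSub, hg]
  intro i j
  rw [Units.val_one, sub_self, Matrix.zero_apply]
  exact Ideal.zero_mem _

/-- The level subgroups of a continuous representation are open. -/
theorem isOpen_level [TopologicalSpace R] (hR : IsAdic (maximalIdeal R)) [TopologicalSpace Γ]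
    (ρ : Γ →* Matrix.GeneralLinearGroup (Fin m) R) (hc : Continuous ρ) (l : ℕ) :
    IsOpen {g : Γ | Lv l (ρ g : Matrix (Fin m) (Fin m) R)} := by
  have hring : IsTopologicalRing R := by
    unfold IsAdic at hR
    subst hR
    exact (Ideal.adic_basis (maximalIdeal R)).toRing_subgroups_basis.toRingFilterBasis.isTopologicalRing
  have hop : IsOpen ((maximalIdeal R ^ l : Ideal R) : Set R) := (isAdic_iff.1 hR).1 l
  have hcoe : Continuous fun g => (ρ g : Matrix (Fin m) (Fin m) R) := Units.continuous_val.comp hc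
  have h1 : {g : Γ | Lv l (ρ g : Matrix (Fin m) (Fin m) R)} =
      ⋂ i, ⋂ j, {g | ((ρ g : Matrix (Fin m) (Fin m) R) - 1) i j ∈ maximalIdeal R ^ l} := by
    ext g
    simp only [Set.mem_ofPred_eq, Set.mem_iInter, Lv]
  rw [h1]
  refine isOpen_iInter_of_finite fun i => isOpen_iInter_of_finite fun j => ?_
  have h2 : Continuous fun g => ((ρ g : Matrix (Fin m) (Fin m) R) - 1) i j := by
    have h3 : Continuous fun g => (ρ g : Matrix (Fin m) (Fin m) R) i j :=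
      (continuous_apply j).comp ((continuous_apply i).comp hcoe)
    exact h3.sub continuous_const
  exact hop.preimage h2

end level

section galois

variable {K Ω : Type} [Field K] [NumberField K] [Field Ω] [Algebra K Ω] [IsAlgClosed Ω]
  [Algebra.IsAlgebraic K Ω] {R : Type} [CommRing R] [IsDomain R] [IsDiscreteValuationRing R]
  {p m : ℕ}

/-- The finite extension belonging to a level subgroup. -/
theorem exists_level_field (ρ : (Ω ≃ₐ[K] Ω) →* Matrix.GeneralLinearGroup (Fin m) R)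
    (ho : ∀ l : ℕ, IsOpen {g | Lv l (ρ g : Matrix (Fin m) (Fin m) R)})
    (hu : UnrPro p K Ω ρ) (l : ℕ) :
    ∃ L : IntermediateField K Ω, L.fixingSubgroup = levelSub ρ l ∧
      (∃ j : ℕ, (levelSub ρ l).index = p ^ j) ∧ Algebra.Unramified (𝓞 K) (𝓞 L) ∧
      IsGalois K L ∧ FiniteDimensional K L := by
  have hopen : IsOpen (levelSub ρ l : Set (Ω ≃ₐ[K] Ω)) := by
    have h1 : (levelSub ρ l : Set (Ω ≃ₐ[K] Ω)) =
        {g | Lv l (ρ g : Matrix (Fin m) (Fin m) R)} := by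
      ext g
      exact mem_levelSub ρ l g
    rw [h1]
    exact ho l
  obtain ⟨L, h1, h2, h3, h4, h5⟩ := exists_field_of_open (levelSub ρ l) (levelSub_normal ρ l) hopen
  have hle : L ≤ IntermediateField.fixedField ρ.ker := by
    rw [h2]
    exact IntermediateField.fixedField_antitone (ker_le_levelSub ρ l)
  obtain ⟨⟨j, hj⟩, hU⟩ := hu L hle h3 h4
  exact ⟨L, h1, ⟨j, by rw [← h5, hj]⟩, hU, h4, h3⟩

/-- The reduction of an unramified pro-`p` representation has `p`-group image. -/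
theorem rho_pgroup_R (ρ : (Ω ≃ₐ[K] Ω) →* Matrix.GeneralLinearGroup (Fin m) R)
    (ho : ∀ l : ℕ, IsOpen {g | Lv l (ρ g : Matrix (Fin m) (Fin m) R)})
    (hu : UnrPro p K Ω ρ) (l : ℕ) (g : Ω ≃ₐ[K] Ω) :
    ∃ j : ℕ, Lv l (ρ (g ^ p ^ j) : Matrix (Fin m) (Fin m) R) := by
  obtain ⟨L, -, ⟨j, hj⟩, -⟩ := exists_level_field ρ ho hu l
  refine ⟨j, (mem_levelSub ρ l _).1 ?_⟩
  have := levelSub_normal ρ l
  rw [← hj]
  exact Subgroup.pow_index_mem _ g

/-- An inertial element of `Gal(Ω/K)` is in the kernel of an unramified representation. -/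
theorem rho_inertial_R (ρ : (Ω ≃ₐ[K] Ω) →* Matrix.GeneralLinearGroup (Fin m) R)
    (ho : ∀ l : ℕ, IsOpen {g | Lv l (ρ g : Matrix (Fin m) (Fin m) R)})
    (hu : UnrPro p K Ω ρ) (h : Ω ≃ₐ[K] Ω) (hI : Inertial Ω h.toRingEquiv) : ρ h = 1 := by
  have h1 : ∀ l, Lv l (ρ h : Matrix (Fin m) (Fin m) R) := by
    intro l
    obtain ⟨L, hL, -, hU, hG, hF⟩ := exists_level_field ρ ho hu l
    rw [← mem_levelSub, ← hL, IntermediateField.mem_fixingSubgroup_iff]
    intro x hx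
    exact inertial_fixes L hU h hI ⟨x, hx⟩
  have h2 : ⨅ l : ℕ, maximalIdeal R ^ l = ⊥ :=
    Ideal.iInf_pow_eq_bot_of_isLocalRing _ (Ideal.IsPrime.ne_top inferInstance)
  apply Units.ext
  rw [Units.val_one, ← sub_eq_zero]
  ext i j
  have h3 : ((ρ h : Matrix (Fin m) (Fin m) R) - 1) i j ∈ ⨅ l : ℕ, maximalIdeal R ^ l := by
    rw [Ideal.mem_iInf]
    exact fun l => h1 l i j
  rw [h2, Ideal.mem_bot] at h3
  exact h3

end galois

/-- Transport to another algebraic closure. -/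
theorem exists_transfer (p : ℕ) (K Ω Ω' : Type) [Field K] [NumberField K] [Field Ω]
    [Field Ω'] [Algebra K Ω] [Algebra K Ω'] (ψ : Ω ≃ₐ[K] Ω') :
    ∃ c : (Ω ≃ₐ[K] Ω) ≃* (Ω' ≃ₐ[K] Ω'), Continuous c ∧
      ∀ {H : Type} [Group H] (ρ : (Ω' ≃ₐ[K] Ω') →* H), UnrPro p K Ω' ρ →
        UnrPro p K Ω (ρ.comp c.toMonoidHom) := by
  let c : (Ω ≃ₐ[K] Ω) ≃* (Ω' ≃ₐ[K] Ω') := ψ.autCongr
  have hcapp : ∀ (g : Ω ≃ₐ[K] Ω) (x : Ω'), c g x = ψ (g (ψ.symm x)) := fun g x => rfl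
  have hcont : Continuous c := by
    refine continuous_of_continuousAt_one c ?_
    rw [ContinuousAt, map_one]
    intro V hV
    rw [krullTopology_mem_nhds_one_iff] at hV
    obtain ⟨E, hE, hEV⟩ := hV
    let e : E ≃ₐ[K] E.map ψ.symm.toAlgHom := IntermediateField.intermediateFieldMap ψ.symm E
    have hE' : FiniteDimensional K (E.map ψ.symm.toAlgHom) := e.toLinearEquiv.finiteDimensional
    rw [Filter.mem_map]
    refine Filter.mem_of_superset ((IntermediateField.fixingSubgroup_isOpen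
      (E.map ψ.symm.toAlgHom)).mem_nhds (one_mem _)) ?_
    intro g hg
    refine hEV ?_
    rw [SetLike.mem_coe, IntermediateField.mem_fixingSubgroup_iff]
    intro x hx
    rw [hcapp]
    have h1 : ψ.symm x ∈ E.map ψ.symm.toAlgHom := ⟨x, hx, rfl⟩
    rw [(IntermediateField.mem_fixingSubgroup_iff _ _).1 hg _ h1]
    exact ψ.apply_symm_apply x
  refine ⟨c, hcont, ?_⟩
  intro H _ ρ hu L hL hfin hgal
  let e : L ≃ₐ[K] L.map ψ.toAlgHom := IntermediateField.intermediateFieldMap ψ L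
  have hfin' : FiniteDimensional K (L.map ψ.toAlgHom) := e.toLinearEquiv.finiteDimensional
  have hgal' : IsGalois K (L.map ψ.toAlgHom) := IsGalois.of_algEquiv e
  have hle : L.map ψ.toAlgHom ≤ IntermediateField.fixedField ρ.ker := by
    rintro x ⟨y, hy, rfl⟩
    rw [IntermediateField.mem_fixedField_iff]
    intro f hf
    have h1 := (IntermediateField.mem_fixedField_iff _ y).1 (hL hy) (c.symm f) (by
      rw [MonoidHom.mem_ker] at hf ⊢
      change ρ (c (c.symm f)) = 1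
      rw [MulEquiv.apply_symm_apply, hf])
    have h2 : f (ψ y) = ψ ((c.symm f) y) := by
      have h3 := hcapp (c.symm f) (ψ y)
      rw [MulEquiv.apply_symm_apply, ψ.symm_apply_apply] at h3
      exact h3
    change f (ψ y) = ψ y
    rw [h2, h1]
  obtain ⟨⟨j, hj⟩, hU⟩ := hu _ hle hfin' hgal'
  refine ⟨⟨j, ?_⟩, ?_⟩
  · rw [← hj]
    exact LinearEquiv.finrank_eq e.toLinearEquiv
  · exact Algebra.Unramified.of_equiv (RingOfIntegers.mapAlgEquiv e).symm

end Pool.Agent.MPca71Y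
end

section

section
set_option autoImplicit false
open scoped NumberField
open NumberField

/-! Job P4d (medium-easy): GEN (paper 286, 5.5, end). -/

namespace Pool.Agent.MPca71X

open Pool.Agent.MPca71W

variable {Ω C : Type} [Field Ω] [Algebra ℚ Ω] [IsAlgClosed Ω] [Algebra.IsAlgebraic ℚ Ω] {p k : ℕ}
  [Fact p.Prime] [Field C] [NumberField C] [IsCyclotomicExtension {p ^ (k + 1)} ℚ C] [Algebra C Ω]
  [IsScalarTower ℚ C Ω]

private theorem p4d_exists_max (Ω : Type) [Field Ω] [Algebra ℚ Ω] (p : ℕ) [Fact p.Prime] :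
    ∃ P : Ideal (𝓞 Ω), P.IsMaximal ∧ (p : 𝓞 Ω) ∈ P := by
  have hp : p.Prime := Fact.out
  have : CharZero Ω := charZero_of_injective_algebraMap (algebraMap ℚ Ω).injective
  have h1 : ¬ IsUnit ((p : ℕ) : 𝓞 Ω) := by
    intro hu
    obtain ⟨v, hv⟩ := hu.exists_right_inv
    have hv' : ((p : ℕ) : Ω) * (v : Ω) = 1 := by
      have := congrArg (algebraMap (𝓞 Ω) Ω) hv
      rw [map_mul, map_natCast, map_one] at this
      exact this
    have hp0 : ((p : ℕ) : Ω) ≠ 0 := Nat.cast_ne_zero.2 hp.ne_zero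
    have hvq : (v : Ω) = algebraMap ℚ Ω ((p : ℚ)⁻¹) := by
      rw [map_inv₀, map_natCast]
      exact eq_inv_of_mul_eq_one_right hv'
    have hai : IsIntegral ℤ ((p : ℚ)⁻¹) := by
      have h2 : IsIntegral ℤ (algebraMap ℚ Ω ((p : ℚ)⁻¹)) := by
        rw [← hvq]
        exact NumberField.RingOfIntegers.isIntegral_coe v
      exact (isIntegral_algebraMap_iff (algebraMap ℚ Ω).injective).mp h2
    obtain ⟨n, hn⟩ := IsIntegrallyClosed.isIntegral_iff.mp hai
    have h3 : ((n * p : ℤ) : ℚ) = ((1 : ℤ) : ℚ) := by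
      have h4 : (n : ℚ) = (p : ℚ)⁻¹ := by simpa using hn
      push_cast
      rw [h4]
      exact inv_mul_cancel₀ (Nat.cast_ne_zero.2 hp.ne_zero)
    have h5 : n * (p : ℤ) = 1 := by exact_mod_cast h3
    have h6 : (p : ℤ) ∣ 1 := ⟨n, by rw [mul_comm]; exact h5.symm⟩
    have h7 : p ∣ 1 := by exact_mod_cast h6
    exact hp.one_lt.ne' (Nat.dvd_one.1 h7)
  obtain ⟨M, hM, hle⟩ := Ideal.exists_le_maximal (Ideal.span {((p : ℕ) : 𝓞 Ω)})
    (by rwa [Ne, Ideal.span_singleton_eq_top])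
  exact ⟨M, hM, hle (Ideal.mem_span_singleton_self _)⟩

/-- There is a maximal ideal `P0` of `𝓞 Ω` containing `p`; `HC ∩ inG P0 ⊆ K0` (`inertial_in_K0`), so
`kum A` vanishes on it, `A = z^c ∏ eg(g s)^(n s)` from `gen_symbol`. By `cong_prod`
(`A = A' η^p` modulo `π^(p^(k+1))`), `kum_wild_congr`, `kum_mul`, `kum_pow`: `kum A'` vanishes on
`HC ∩ inG P0`. If `c ≠ 0` or some exponent of `A'` is `≠ 0`, `lead` and `exists_wild` give a
contradiction. So `c = 0` and `n (inl j) = ∑ i, G j i * n (inr i)` modulo `p`. -/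
theorem gen_coeff (hp2 : p ≠ 2) {t d : ℕ} {z : 𝓞 C} {Q : Fin t ⊕ Fin d → Ideal (𝓞 C)}
    {g : Fin t ⊕ Fin d → 𝓞 C} {e : Fin t ⊕ Fin d → ℕ} {b : Fin t ⊕ Fin d → Ideal (𝓞 C)}
    {P : Fin t ⊕ Fin d → Ideal (𝓞 Ω)} {x : Fin t ⊕ Fin d → (Ω ≃ₐ[ℚ] Ω)}
    (h : PDat p k z Q g e b P x) {G : Matrix (Fin t) (Fin d) (ZMod p)} {m : Fin t → ℕ}
    (hc : CDat p k z g G m) (hG : ∀ j, ∑ i, G j i = 1)
    (χ : Fin d → (GF Ω p k) → ZMod p) (hχ : ∀ i, χ i ∈ chs p (GF Ω p k))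
    (hχ2 : ∀ i (σ : GF Ω p k), (σ : Ω ≃ₐ[ℚ] Ω) ∈ HC Ω p k →
      χ i σ = kum Ω C p (z ^ (p ^ k)) (bt C p k g G i) (σ : Ω ≃ₐ[ℚ] Ω))
    (f : (GF Ω p k) → ZMod p) (hf : f ∈ chs p (GF Ω p k)) (ho : IsOpen {σ : GF Ω p k | f σ = 0})
    (hf0 : ∀ σ ∈ IS Ω p k, σ ∈ K0 Ω p k χ hχ → f σ = 0) :
    ∃ (n : Fin t ⊕ Fin d → ℕ), (∀ j, (n (Sum.inl j) : ZMod p) =
        ∑ i, G j i * (n (Sum.inr i) : ZMod p)) ∧
      ∀ σ : GF Ω p k, (σ : Ω ≃ₐ[ℚ] Ω) ∈ HC Ω p k →
        f σ = kum Ω C p (z ^ (p ^ k)) (∏ s, eg C p k (g s) ^ n s)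
          (σ : Ω ≃ₐ[ℚ] Ω) := by
  classical
  obtain ⟨c, n, hcp, hnp, hsym⟩ := gen_symbol hp2 h hc hG χ hχ hχ2 f hf ho hf0
  obtain ⟨P0, hP0, hpP0⟩ := p4d_exists_max Ω p
  have hpr : p.Prime := Fact.out
  have hz := h.hz
  have hzp : IsPrimitiveRoot (z ^ (p ^ k)) p :=
    hz.pow (pow_pos hpr.pos _) (pow_succ p k)
  have hπ := pi_prime z hz
  -- the symbol vanishes on the inertia group
  have hvan : ∀ σ : Ω ≃ₐ[ℚ] Ω, σ ∈ HC Ω p k → σ ∈ inG P0 →
      kum Ω C p (z ^ (p ^ k)) (z ^ c * ∏ s, eg C p k (g s) ^ n s) σ = 0 := by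
    intro σ hσ hσP
    have hσF : σ ∈ GF Ω p k := HC_le_GF Ω p k hσ
    have h1 := inertial_in_K0 h hc hG χ hχ hχ2 P0 hP0 (Or.inl hpP0) ⟨σ, hσF⟩ hσ hσP
    have h2 := hf0 ⟨σ, hσF⟩ ⟨P0, hP0, hσP⟩ h1
    have h3 := hsym ⟨σ, hσF⟩ hσ
    rw [h2] at h3
    exact h3.symm
  obtain ⟨η, hη, hdvd⟩ := cong_prod hz hc c n
  have hall : c = 0 ∧ ∀ j, ((n (Sum.inl j) : ZMod p) -
      ∑ i, G j i * (n (Sum.inr i) : ZMod p)).val = 0 := by
    by_contra hcon
    have hne : c ≠ 0 ∨ ∃ j, ((n (Sum.inl j) : ZMod p) -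
        ∑ i, G j i * (n (Sum.inr i) : ZMod p)).val ≠ 0 := by
      by_contra h0
      push Not at h0
      exact hcon h0
    have hNZ : NeZero p := ⟨hpr.ne_zero⟩
    obtain ⟨M, a, hM1, hM2, hM3, ha, hMd⟩ := lead z hz m hc.minj hc.m1 hc.m2 hc.m3 hc.m4 c hcp
      (fun j => ((n (Sum.inl j) : ZMod p) - ∑ i, G j i * (n (Sum.inr i) : ZMod p)).val)
      (fun j => ZMod.val_lt _) hne
    obtain ⟨σ, hσ, hσP, hσk⟩ := exists_wild (Ω := Ω) z hz P0 hP0 hpP0 _ a M hM1 hM2 hM3 ha hMd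
    have hA' : ¬ (1 - z) ∣ z ^ c * ∏ j, eg C p k (1 + (1 - z) ^ m j) ^
          ((n (Sum.inl j) : ZMod p) - ∑ i, G j i * (n (Sum.inr i) : ZMod p)).val := by
      intro hd
      have h1 : (1 - z) ∣ z ^ c * ∏ j, eg C p k (1 + (1 - z) ^ m j) ^
          ((n (Sum.inl j) : ZMod p) - ∑ i, G j i * (n (Sum.inr i) : ZMod p)).val - 1 -
          a * (1 - z) ^ M := (dvd_pow_self _ (Nat.succ_ne_zero M)).trans hMd
      have h2 : (1 - z) ∣ a * (1 - z) ^ M := (dvd_pow_self _ (by omega)).mul_left a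
      have h3 : (1 - z) ∣ z ^ c * ∏ j, eg C p k (1 + (1 - z) ^ m j) ^
          ((n (Sum.inl j) : ZMod p) - ∑ i, G j i * (n (Sum.inr i) : ZMod p)).val - 1 := by
        have h4 := dvd_add h1 h2
        rwa [sub_add_cancel] at h4
      have h5 := dvd_sub hd h3
      rw [sub_sub_cancel] at h5
      exact hπ.not_isUnit (isUnit_of_dvd_one h5)
    have hη0 : η ≠ 0 := fun h0 => hη (h0 ▸ dvd_zero _)
    have hA0 : z ^ c * ∏ j, eg C p k (1 + (1 - z) ^ m j) ^
          ((n (Sum.inl j) : ZMod p) - ∑ i, G j i * (n (Sum.inr i) : ZMod p)).val ≠ 0 :=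
      fun h0 => hA' (h0 ▸ dvd_zero _)
    have hy : ¬ (1 - z) ∣ (z ^ c * ∏ j, eg C p k (1 + (1 - z) ^ m j) ^
          ((n (Sum.inl j) : ZMod p) - ∑ i, G j i * (n (Sum.inr i) : ZMod p)).val) * η ^ p := by
      intro hd
      rcases hπ.dvd_or_dvd hd with h1 | h1
      · exact hA' h1
      · exact hη (hπ.dvd_of_dvd_pow h1)
    have h1 := kum_wild_congr z hz P0 hP0 hpP0 _ _ hy hdvd σ hσ hσP
    rw [hvan σ hσ hσP, kum_mul _ hzp _ _ hA0 (pow_ne_zero _ hη0) σ hσ,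
      kum_pow _ hzp η hη0 p σ hσ, CharP.cast_eq_zero, zero_mul, add_zero] at h1
    exact hσk h1.symm
  refine ⟨n, fun j => ?_, fun σ hσ => ?_⟩
  · have h1 := (ZMod.val_eq_zero _).1 (hall.2 j)
    exact sub_eq_zero.1 h1
  · have h1 := hsym σ hσ
    rw [hall.1, pow_zero, one_mul] at h1
    exact h1

/-- (GEN) On `HC`: `f = ∑_s n s kum (eg (g s)) = ∑_i n (inr i) kum (bt i) = ∑_i n (inr i) χ_i`
(`kum_bt`); both sides are characters of `GF`, so they are equal (`GF_chi_unique`). -/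
theorem gen_char (hp2 : p ≠ 2) {t d : ℕ} {z : 𝓞 C} {Q : Fin t ⊕ Fin d → Ideal (𝓞 C)}
    {g : Fin t ⊕ Fin d → 𝓞 C} {e : Fin t ⊕ Fin d → ℕ} {b : Fin t ⊕ Fin d → Ideal (𝓞 C)}
    {P : Fin t ⊕ Fin d → Ideal (𝓞 Ω)} {x : Fin t ⊕ Fin d → (Ω ≃ₐ[ℚ] Ω)}
    (h : PDat p k z Q g e b P x) {G : Matrix (Fin t) (Fin d) (ZMod p)} {m : Fin t → ℕ}
    (hc : CDat p k z g G m) (hG : ∀ j, ∑ i, G j i = 1)
    (χ : Fin d → (GF Ω p k) → ZMod p) (hχ : ∀ i, χ i ∈ chs p (GF Ω p k))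
    (hχ2 : ∀ i (σ : GF Ω p k), (σ : Ω ≃ₐ[ℚ] Ω) ∈ HC Ω p k →
      χ i σ = kum Ω C p (z ^ (p ^ k)) (bt C p k g G i) (σ : Ω ≃ₐ[ℚ] Ω))
    (f : (GF Ω p k) → ZMod p) (hf : f ∈ chs p (GF Ω p k)) (ho : IsOpen {σ : GF Ω p k | f σ = 0})
    (hf0 : ∀ σ ∈ IS Ω p k, σ ∈ K0 Ω p k χ hχ → f σ = 0) :
    ∃ a : Fin d → ZMod p, ∀ σ, f σ = ∑ i, a i * χ i σ := by
  classical
  have hpr : p.Prime := Fact.out
  have hzp : IsPrimitiveRoot (z ^ (p ^ k)) p :=
    h.hz.pow (pow_pos hpr.pos _) (pow_succ p k)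
  obtain ⟨n, hn1, hn2⟩ := gen_coeff hp2 h hc hG χ hχ hχ2 f hf ho hf0
  refine ⟨fun i => (n (Sum.inr i) : ZMod p), ?_⟩
  have hmem : (fun σ : GF Ω p k => ∑ i, (n (Sum.inr i) : ZMod p) * χ i σ) ∈ chs p (GF Ω p k) := by
    intro x y
    have h1 : ∀ i, χ i (x * y) = χ i x + χ i y := fun i => hχ i x y
    simp only [h1, mul_add, Finset.sum_add_distrib]
  have heq := GF_chi_unique f (fun σ : GF Ω p k => ∑ i, (n (Sum.inr i) : ZMod p) * χ i σ) hf hmem
    (by
      intro σ hσ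
      rw [hn2 σ hσ, kum_prod _ hzp Finset.univ _
        (fun s _ => pow_ne_zero _ (eg_ne_zero _ (h.gne s))) _ hσ, Fintype.sum_sum_type]
      have e1 : ∀ s, kum Ω C p (z ^ (p ^ k)) (eg C p k (g s) ^ n s) (σ : Ω ≃ₐ[ℚ] Ω) =
          (n s : ZMod p) * kum Ω C p (z ^ (p ^ k)) (eg C p k (g s)) (σ : Ω ≃ₐ[ℚ] Ω) :=
        fun s => kum_pow _ hzp _ (eg_ne_zero _ (h.gne s)) (n s) _ hσ
      have e2 : ∀ i, χ i σ = kum Ω C p (z ^ (p ^ k)) (eg C p k (g (Sum.inr i)))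
          (σ : Ω ≃ₐ[ℚ] Ω) + ∑ j, G j i *
            kum Ω C p (z ^ (p ^ k)) (eg C p k (g (Sum.inl j))) (σ : Ω ≃ₐ[ℚ] Ω) := by
        intro i
        rw [hχ2 i σ hσ, kum_bt h G i _ hσ]
      simp only [e1, e2, hn1, mul_add, Finset.sum_add_distrib, Finset.mul_sum, Finset.sum_mul]
      rw [add_comm, Finset.sum_comm]
      congr 1
      refine Finset.sum_congr rfl fun i _ => Finset.sum_congr rfl fun j _ => ?_
      ring)
  intro σ
  exact congrFun heq σ

end Pool.Agent.MPca71X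
end

section
set_option autoImplicit false
open scoped NumberField
open NumberField

/-! Job P5a (medium): choice of the first primes (paper 286, section 5, stage 1). -/

namespace Pool.Agent.MPca71X

open Pool.Agent.MPca71W

variable {Ω C : Type} [Field Ω] [Algebra ℚ Ω] [IsAlgClosed Ω] [Algebra.IsAlgebraic ℚ Ω] {p k : ℕ}
  [Fact p.Prime] [Field C] [NumberField C] [IsCyclotomicExtension {p ^ (k + 1)} ℚ C] [Algebra C Ω]
  [IsScalarTower ℚ C Ω]

/-- Targets `a j = 1 + π^(m j)` modulo `(π^(p^(k+1)))` (`exists_primes` with `B = p`; `a j` is prime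
to `π`; exponents `m` from `exists_exps`). `P j` from `exists_P`. `vQ (Q j) (eg (g j)) = e j`
modulo `p` (`vQ_eg`, `split_free`, `vQ_fact`), so `exists_tame` gives `x j`. `y j` is a Frobenius
element (`exists_frob`, ntW/KC; the prime number is `absNorm (Q j)`), in `HC` by `frob_HC`. -/
theorem stage1 (hp2 : p ≠ 2) (z : 𝓞 C) (hz : IsPrimitiveRoot z (p ^ (k + 1))) (t : ℕ)
    (ht : t + 1 ≤ p ^ k) :
    ∃ (m : Fin t → ℕ) (Q : Fin t → Ideal (𝓞 C)) (g : Fin t → 𝓞 C) (e : Fin t → ℕ)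
      (b : Fin t → Ideal (𝓞 C)) (P : Fin t → Ideal (𝓞 Ω)) (x y : Fin t → (Ω ≃ₐ[ℚ] Ω)),
      PDat p k z Q g e b P x ∧ Function.Injective m ∧
      (∀ j, 1 < m j ∧ m j < p ^ (k + 1) ∧ ¬ p ∣ m j ∧ (p - 1) ∣ (m j - 1)) ∧
      (∀ j, (1 - z) ^ (p ^ (k + 1)) ∣ g j - (1 + (1 - z) ^ m j)) ∧
      ∀ j, y j ∈ HC Ω p k ∧ ∀ w : 𝓞 Ω, ∃ v : 𝓞 Ω, v ∈ P j ∧
        y j (w : Ω) - (w : Ω) ^ (Ideal.absNorm (Q j)) = (v : Ω) := by
  classical
  have hpp : p.Prime := Fact.out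
  obtain ⟨m, hmi, hm⟩ := exists_exps p hp2 k t ht
  have hN : 1 < p ^ (k + 1) := Nat.one_lt_pow (Nat.succ_ne_zero k) hpp.one_lt
  have hπ0 : (1 - z : 𝓞 C) ≠ 0 := sub_ne_zero.2 (hz.ne_one hN).symm
  have hM : (Ideal.span {(1 - z : 𝓞 C) ^ (p ^ (k + 1))} : Ideal (𝓞 C)) ≠ ⊥ := by
    rw [Ne, Ideal.span_singleton_eq_bot]
    exact pow_ne_zero _ hπ0
  have hcop : ∀ j, IsCoprime (Ideal.span {1 + (1 - z : 𝓞 C) ^ m j})
      (Ideal.span {(1 - z : 𝓞 C) ^ (p ^ (k + 1))}) := by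
    intro j
    rw [Ideal.isCoprime_span_singleton_iff]
    apply IsCoprime.pow_right
    refine ⟨1, -(1 - z) ^ (m j - 1), ?_⟩
    have h1 : (1 - z : 𝓞 C) ^ m j = (1 - z) ^ (m j - 1) * (1 - z) := by
      rw [← pow_succ]
      congr 1
      have := (hm j).1
      omega
    rw [h1]
    ring
  obtain ⟨Q, g, e, b, h, hinj⟩ := exists_primes C p hp2 _ hM t
    (fun j => 1 + (1 - z : 𝓞 C) ^ m j) hcop p
  have hQp : ∀ j, (Q j).IsPrime := fun j => (h j).1
  have hQn : ∀ j, (Ideal.absNorm (Q j)).Prime := fun j => (h j).2.1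
  have hQl : ∀ j, Ideal.absNorm (Q j) ≠ p := fun j => (h j).2.2.1.ne'
  have hQ0 : ∀ j, Q j ≠ ⊥ := by
    intro j h0
    have h1 := hQn j
    rw [h0, Ideal.absNorm_bot] at h1
    exact Nat.not_prime_zero h1
  have hg0 : ∀ j, g j ≠ 0 := fun j => (h j).2.2.2.1
  have he1 : ∀ j, 1 ≤ e j := fun j => (h j).2.2.2.2.2.1
  have he2 : ∀ j, e j < p := fun j => (h j).2.2.2.2.2.2.1
  have hfact : ∀ j, Ideal.span {g j} = Q j ^ e j * b j ^ p := fun j => (h j).2.2.2.2.2.2.2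
  have hcong : ∀ j, (1 - z) ^ (p ^ (k + 1)) ∣ g j - (1 + (1 - z) ^ m j) := fun j =>
    Ideal.mem_span_singleton.1 (h j).2.2.2.2.1
  have hPex : ∀ j, ∃ P : Ideal (𝓞 Ω), P.IsMaximal ∧ PC C P = Q j := fun j =>
    exists_P (Ω := Ω) (Q j) (hQp j) (hQ0 j)
  choose P hPm hPQ using hPex
  have hzp : IsPrimitiveRoot (z ^ (p ^ k)) p := hz.pow (pow_pos hpp.pos _) (pow_succ p k)
  have hone : ∀ j, (Q j).comap (sga (p ^ (k + 1)) C 1 : 𝓞 C →+* 𝓞 C) = Q j := by
    intro j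
    ext x
    rw [Ideal.mem_comap]
    change sga (p ^ (k + 1)) C 1 x ∈ Q j ↔ x ∈ Q j
    rw [sga_one]
  have hv : ∀ j, ¬ p ∣ vQ (PC C (P j)) (eg C p k (g j)) := by
    intro j hd
    rw [hPQ j] at hd
    have h1 := vQ_eg (p := p) (k := k) (Q j) (hQp j) (hQ0 j) (g j) (hg0 j)
    rw [(ZMod.natCast_eq_zero_iff _ _).2 hd] at h1
    have h2 : ∀ a ∈ Finset.univ.filter (fun a : (ZMod (p ^ (k + 1)))ˣ => a ^ (p - 1) = 1),
        (rd a)⁻¹ * ((vQ ((Q j).comap (sga (p ^ (k + 1)) C a : 𝓞 C →+* 𝓞 C)) (g j) : ℕ) : ZMod p) =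
          if a = 1 then (e j : ZMod p) else 0 := by
      intro a _
      have hprime : ((Q j).comap (sga (p ^ (k + 1)) C a : 𝓞 C →+* 𝓞 C)).IsPrime := by
        have := hQp j
        exact Ideal.comap_isPrime _ _
      have hne : ((Q j).comap (sga (p ^ (k + 1)) C a : 𝓞 C →+* 𝓞 C)) ≠ ⊥ := by
        intro h0
        have h3 := comap_norm (p := p) (k := k) (Q j) a
        rw [h0, Ideal.absNorm_bot] at h3
        have h4 := hQn j
        rw [← h3] at h4
        exact Nat.not_prime_zero h4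
      rw [vQ_fact (Q j) (b j) (g j) (hg0 j) (e j) (hfact j) (hQp j) (hQ0 j) _ hprime hne]
      by_cases ha : a = 1
      · subst ha
        rw [if_pos (hone j), if_pos rfl, rd_one, inv_one, one_mul]
      · rw [if_neg ha, if_neg, mul_zero]
        intro hc
        exact ha (split_free (Q j) (hQp j) (hQn j) (hQl j) a 1 (by rw [hc, hone j]))
    rw [Finset.sum_congr rfl h2, Finset.sum_ite_eq'] at h1
    have h5 : (1 : (ZMod (p ^ (k + 1)))ˣ) ∈
        Finset.univ.filter (fun a : (ZMod (p ^ (k + 1)))ˣ => a ^ (p - 1) = 1) := by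
      rw [Finset.mem_filter]
      exact ⟨Finset.mem_univ _, one_pow _⟩
    rw [if_pos h5] at h1
    have h6 := (ZMod.natCast_eq_zero_iff _ _).1 h1.symm
    exact absurd (Nat.le_of_dvd (he1 j) h6) (not_le.2 (he2 j))
  have hxex : ∀ j, ∃ x ∈ HC Ω p k, x ∈ inG (P j) ∧
      kum Ω C p (z ^ (p ^ k)) (eg C p k (g j)) x ≠ 0 := fun j =>
    exists_tame (z ^ (p ^ k)) hzp (P j) (hPm j) (eg C p k (g j)) (eg_ne_zero (g j) (hg0 j)) (hv j)
  choose x hxH hxP hxk using hxex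
  have hyex : ∀ j, ∃ y : Ω ≃ₐ[ℚ] Ω, ∀ w : 𝓞 Ω, ∃ v : 𝓞 Ω, v ∈ P j ∧
      y (w : Ω) - (w : Ω) ^ (Ideal.absNorm (Q j)) = (v : Ω) := by
    intro j
    have : Fact (Ideal.absNorm (Q j)).Prime := ⟨hQn j⟩
    refine exists_frob (Ideal.absNorm (Q j)) (P j) (hPm j) ?_
    have h1 : ((Ideal.absNorm (Q j) : ℕ) : 𝓞 C) ∈ PC C (P j) := by
      rw [hPQ j]
      exact Ideal.absNorm_mem (Q j)
    unfold PC at h1
    rw [Ideal.mem_comap, map_natCast] at h1
    exact h1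
  choose y hy using hyex
  refine ⟨m, Q, g, e, b, P, x, y, ⟨hz, hQp, hQn, hQl, hinj, hg0, he1, he2, hfact, hPm, hPQ, hxH,
    hxP, hxk⟩, hmi, hm, hcong, fun j => ⟨?_, hy j⟩⟩
  refine frob_HC (C := C) (P j) (hPm j) ?_ ?_ (y j) ?_
  · rw [hPQ j]; exact hQn j
  · rw [hPQ j]; exact hQl j
  · rw [hPQ j]; exact hy j

end Pool.Agent.MPca71X
end

section
set_option autoImplicit false
open scoped NumberField
open NumberField

/-! Job P5b (medium): choice of the second primes (paper 286, section 5, stage 2). -/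

namespace Pool.Agent.MPca71X

open Pool.Agent.MPca71W

variable {Ω C : Type} [Field Ω] [Algebra ℚ Ω] [IsAlgClosed Ω] [Algebra.IsAlgebraic ℚ Ω] {p k : ℕ}
  [Fact p.Prime] [Field C] [NumberField C] [IsCyclotomicExtension {p ^ (k + 1)} ℚ C] [Algebra C Ω]
  [IsScalarTower ℚ C Ω]

theorem p5b_zp {z : 𝓞 C} (hz : IsPrimitiveRoot z (p ^ (k + 1))) :
    IsPrimitiveRoot (z ^ (p ^ k)) p :=
  hz.pow (Nat.pos_of_ne_zero (pow_ne_zero _ (Fact.out : p.Prime).ne_zero)) (by rw [pow_succ])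

theorem p5b_comap_one (Q : Ideal (𝓞 C)) :
    Q.comap (sga (p ^ (k + 1)) C 1 : 𝓞 C →+* 𝓞 C) = Q := by
  ext y
  rw [Ideal.mem_comap]
  change sga (p ^ (k + 1)) C 1 y ∈ Q ↔ y ∈ Q
  rw [sga_one]

theorem p5b_ne_bot {Q : Ideal (𝓞 C)} (hl : (Ideal.absNorm Q).Prime) : Q ≠ ⊥ := by
  rintro rfl
  rw [Ideal.absNorm_bot] at hl
  exact Nat.not_prime_zero hl

theorem p5b_comap_ne_bot {Q : Ideal (𝓞 C)} (hl : (Ideal.absNorm Q).Prime)
    (a : (ZMod (p ^ (k + 1)))ˣ) : Q.comap (sga (p ^ (k + 1)) C a : 𝓞 C →+* 𝓞 C) ≠ ⊥ := by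
  apply p5b_ne_bot
  rwa [comap_norm]

theorem p5b_p_notMem {Q : Ideal (𝓞 C)} (hQ : Q.IsPrime) (hl : (Ideal.absNorm Q).Prime)
    (hp : Ideal.absNorm Q ≠ p) : (p : 𝓞 C) ∉ Q := by
  rw [split_mem Q hQ hl]
  intro h1
  exact hp ((Nat.prime_dvd_prime_iff_eq hl (Fact.out : p.Prime)).1 h1)

theorem p5b_pi_norm (z : 𝓞 C) (hz : IsPrimitiveRoot z (p ^ (k + 1))) :
    Ideal.absNorm (Ideal.span {1 - z}) = p := by
  have h1 := IsCyclotomicExtension.Rat.absNorm_span_zeta_sub_one p k (n9_root z hz)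
  rw [n9_int z hz] at h1
  have h2 : Ideal.span {z - 1} = Ideal.span {1 - z} := by
    rw [← neg_sub, Ideal.span_singleton_neg]
  rwa [h2] at h1

theorem p5b_coprime {R : Type} [CommRing R] {M : Ideal R} (hM : M.IsMaximal) {y : R}
    (hy : y ∉ M) : IsCoprime (Ideal.span {y}) M := by
  rw [Ideal.isCoprime_iff_sup_eq]
  have h1 : M < Ideal.span {y} ⊔ M := by
    refine lt_of_le_of_ne le_sup_right fun h2 => hy ?_
    rw [h2]
    exact (le_sup_left : Ideal.span {y} ≤ Ideal.span {y} ⊔ M)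
      (Ideal.mem_span_singleton_self y)
  exact hM.1.2 _ h1

theorem p5b_v {Q b : Ideal (𝓞 C)} {g : 𝓞 C} {e : ℕ} (hQ : Q.IsPrime)
    (hl : (Ideal.absNorm Q).Prime) (hp : Ideal.absNorm Q ≠ p) (hg : g ≠ 0) (h1 : 1 ≤ e)
    (h2 : e < p) (hf : Ideal.span {g} = Q ^ e * b ^ p) : ¬ p ∣ vQ Q (eg C p k g) := by
  intro hd
  rw [← ZMod.natCast_eq_zero_iff, vQ_eg Q hQ (p5b_ne_bot hl) g hg] at hd
  have h3 : ∀ a : (ZMod (p ^ (k + 1)))ˣ,
      ((vQ (Q.comap (sga (p ^ (k + 1)) C a : 𝓞 C →+* 𝓞 C)) g : ℕ) : ZMod p) =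
        if a = 1 then (e : ZMod p) else 0 := by
    intro a
    rw [vQ_fact Q b g hg e hf hQ (p5b_ne_bot hl) _ (Ideal.comap_isPrime _ _)
      (p5b_comap_ne_bot hl a)]
    by_cases ha : a = 1
    · rw [if_pos ha, ha, if_pos (p5b_comap_one Q)]
    · rw [if_neg ha, if_neg]
      intro h4
      exact ha (split_free Q hQ hl hp a 1 (by rw [h4, p5b_comap_one]))
  rw [Finset.sum_congr rfl fun a _ => by rw [h3 a], Finset.sum_eq_single 1] at hd
  · rw [if_pos rfl, rd_one, inv_one, one_mul, ZMod.natCast_eq_zero_iff] at hd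
    exact absurd (Nat.le_of_dvd h1 hd) (not_le.2 h2)
  · intro a _ ha
    rw [if_neg ha, mul_zero]
  · intro h4
    exfalso
    apply h4
    rw [Finset.mem_filter]
    exact ⟨Finset.mem_univ _, one_pow (p - 1)⟩

theorem p5b_m1 {R : Type} [CommRing R] {I J : Ideal R} {y : R} (h : y ∈ I * J) : y ∈ I := by
  have h1 : I * J ≤ I := Ideal.mul_le_left
  exact h1 h

theorem p5b_m2 {R : Type} [CommRing R] {I J : Ideal R} {y : R} (h : y ∈ I * J) : y ∈ J := by
  have h1 : I * J ≤ J := Ideal.mul_le_right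
  exact h1 h

theorem p5b_prod_le {R ι : Type} [CommRing R] [Fintype ι] (F : ι → Ideal R) (i : ι) :
    ∏ j, F j ≤ F i :=
  Ideal.le_of_dvd (Finset.dvd_prod_of_mem F (Finset.mem_univ i))

/-- The targets. Residues `r j` with symbol `S j` (`exists_residue`); by the Chinese remainder theorem
(`IsDedekindDomain.exists_representative_mod_finset`; the primes `(π)` with exponent
`p^(k+1)` and the `(Q j).comap (sga a)`, all `j`, `a`, pairwise distinct by `split_free`,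
`comap_norm`, `inj`) there is `a0` with `a0 = w` modulo `π^(p^(k+1))`,
`a0 = r j` modulo `Q j`, `a0 = 1` modulo `(Q j).comap (sga a)`, `a ≠ 1`. -/
theorem stage2_target (hp2 : p ≠ 2) {t : ℕ} {z : 𝓞 C} {Q : Fin t → Ideal (𝓞 C)} {g : Fin t → 𝓞 C}
    {e : Fin t → ℕ} {b : Fin t → Ideal (𝓞 C)} {P : Fin t → Ideal (𝓞 Ω)}
    {x : Fin t → (Ω ≃ₐ[ℚ] Ω)} (h : PDat p k z Q g e b P x) (w : 𝓞 C) (hw : ¬ (1 - z) ∣ w)
    (S : Fin t → ZMod p) :
    ∃ (a0 : 𝓞 C) (r : Fin t → 𝓞 C), (1 - z) ^ (p ^ (k + 1)) ∣ a0 - w ∧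
      (∀ j, r j ∉ Q j ∧ a0 - r j ∈ Q j ∧
        (z ^ (p ^ k)) ^ (S j).val - r j ^ ((Ideal.absNorm (Q j) - 1) / p) ∈ Q j) ∧
      (∀ (j : Fin t) (a : (ZMod (p ^ (k + 1)))ˣ), a ≠ 1 →
        a0 - 1 ∈ (Q j).comap (sga (p ^ (k + 1)) C a : 𝓞 C →+* 𝓞 C)) := by
  classical
  have hprime := pi_prime (p := p) (k := k) z h.hz
  have hres : ∀ j, ∃ r : 𝓞 C, r ∉ Q j ∧
      (z ^ (p ^ k)) ^ (S j).val - r ^ ((Ideal.absNorm (Q j) - 1) / p) ∈ Q j := fun j =>
    exists_residue _ (p5b_zp h.hz) (Q j) (h.prime j) (h.nprime j)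
      ((dvd_pow_self p (Nat.succ_ne_zero k)).trans
        (split_mod (p := p) (k := k) (Q j) (h.prime j) (h.nprime j) (h.nep j)))
      (p5b_p_notMem (h.prime j) (h.nprime j) (h.nep j)) (S j)
  choose r hr1 hr2 using hres
  obtain ⟨F, hF0, hF1⟩ : ∃ F : Option (Fin t × (ZMod (p ^ (k + 1)))ˣ) → Ideal (𝓞 C),
      F none = Ideal.span {1 - z} ∧ ∀ j a, F (some (j, a)) =
        (Q j).comap (sga (p ^ (k + 1)) C a : 𝓞 C →+* 𝓞 C) :=
    ⟨fun o => match o with
      | none => Ideal.span {1 - z}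
      | some (j, a) => (Q j).comap (sga (p ^ (k + 1)) C a : 𝓞 C →+* 𝓞 C), rfl, fun _ _ => rfl⟩
  obtain ⟨E, hE0, hE1⟩ : ∃ E : Option (Fin t × (ZMod (p ^ (k + 1)))ˣ) → ℕ,
      E none = p ^ (k + 1) ∧ ∀ j a, E (some (j, a)) = 1 :=
    ⟨fun o => match o with
      | none => p ^ (k + 1)
      | some _ => 1, rfl, fun _ _ => rfl⟩
  obtain ⟨T, hT0, hT1⟩ : ∃ T : Option (Fin t × (ZMod (p ^ (k + 1)))ˣ) → 𝓞 C,
      T none = w ∧ ∀ j a, T (some (j, a)) = if a = 1 then r j else 1 :=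
    ⟨fun o => match o with
      | none => w
      | some (j, a) => if a = 1 then r j else 1, rfl, fun _ _ => rfl⟩
  obtain ⟨a0, ha0⟩ := IsDedekindDomain.exists_forall_sub_mem_ideal (s := Finset.univ) F E
    (by
      rintro (_ | ⟨j, a⟩) _
      · rw [hF0]
        exact Ideal.prime_of_isPrime
          (by rw [Ne, Ideal.span_singleton_eq_bot]; exact hprime.ne_zero)
          ((Ideal.span_singleton_prime hprime.ne_zero).2 hprime)
      · rw [hF1]
        have hp1 := h.prime j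
        exact Ideal.prime_of_isPrime (p5b_comap_ne_bot (h.nprime j) a) (Ideal.comap_isPrime _ _))
    (by
      rintro (_ | ⟨j, a⟩) _ (_ | ⟨j', a'⟩) _ hne heq
      · exact hne rfl
      · rw [hF0, hF1] at heq
        have h1 := congrArg Ideal.absNorm heq
        rw [comap_norm, p5b_pi_norm z h.hz] at h1
        exact h.nep j' h1.symm
      · rw [hF0, hF1] at heq
        have h1 := congrArg Ideal.absNorm heq
        rw [comap_norm, p5b_pi_norm z h.hz] at h1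
        exact h.nep j h1
      · rw [hF1, hF1] at heq
        have h1 := congrArg Ideal.absNorm heq
        rw [comap_norm, comap_norm] at h1
        obtain rfl := h.inj j j' h1
        obtain rfl := split_free (Q j) (h.prime j) (h.nprime j) (h.nep j) a a' heq
        exact hne rfl)
    (fun i => T i)
  refine ⟨a0, r, ?_, fun j => ⟨hr1 j, ?_, hr2 j⟩, fun j a ha => ?_⟩
  · have h1 := ha0 none (Finset.mem_univ _)
    rw [hF0, hE0] at h1
    change a0 - T none ∈ _ at h1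
    rwa [hT0, Ideal.span_singleton_pow, Ideal.mem_span_singleton] at h1
  · have h1 := ha0 (some (j, 1)) (Finset.mem_univ _)
    rw [hF1, hE1, pow_one] at h1
    change a0 - T (some (j, 1)) ∈ _ at h1
    rwa [hT1, if_pos rfl, p5b_comap_one] at h1
  · have h1 := ha0 (some (j, a)) (Finset.mem_univ _)
    rw [hF1, hE1, pow_one] at h1
    change a0 - T (some (j, a)) ∈ _ at h1
    rwa [hT1, if_neg ha] at h1

/-- `exists_primes` with the modulus `(π)^(p^(k+1)) ∏_{j,a} (Q j).comap (sga a)`, the targets of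
`stage2_target` for `w = ∏_j (1 + π^(m j))^(p - (G j i).val)` and the rows `S · i`, `B` the
maximum of `p` and the `absNorm (Q j)`. For `g' i` the congruences of the target hold (it is
congruent to `a0` modulo every factor). `eg (g' i) - r j ∈ Q j` (`eg_residue`), so
`kum (eg (g' i)) (y j) = S j i` (`kum_frob_eq`). `P' i`, `x' i` as in `stage1`. -/
theorem stage2 (hp2 : p ≠ 2) {t d : ℕ} {z : 𝓞 C} {Q : Fin t → Ideal (𝓞 C)} {g : Fin t → 𝓞 C}
    {e : Fin t → ℕ} {b : Fin t → Ideal (𝓞 C)} {P : Fin t → Ideal (𝓞 Ω)}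
    {x : Fin t → (Ω ≃ₐ[ℚ] Ω)} (h : PDat p k z Q g e b P x)
    (m : Fin t → ℕ) (hm : ∀ j, 1 < m j) (y : Fin t → (Ω ≃ₐ[ℚ] Ω))
    (hy : ∀ j, y j ∈ HC Ω p k ∧ ∀ w : 𝓞 Ω, ∃ v : 𝓞 Ω, v ∈ P j ∧
        y j (w : Ω) - (w : Ω) ^ (Ideal.absNorm (Q j)) = (v : Ω))
    (G S : Matrix (Fin t) (Fin d) (ZMod p)) :
    ∃ (Q' : Fin d → Ideal (𝓞 C)) (g' : Fin d → 𝓞 C) (e' : Fin d → ℕ)
      (b' : Fin d → Ideal (𝓞 C)) (P' : Fin d → Ideal (𝓞 Ω)) (x' : Fin d → (Ω ≃ₐ[ℚ] Ω)),
      PDat p k z (Sum.elim Q Q') (Sum.elim g g') (Sum.elim e e') (Sum.elim b b')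
        (Sum.elim P P') (Sum.elim x x') ∧
      (∀ i, (1 - z) ^ (p ^ (k + 1)) ∣ g' i - ∏ j, (1 + (1 - z) ^ m j) ^ (p - (G j i).val)) ∧
      ∀ j i, kum Ω C p (z ^ (p ^ k)) (eg C p k (g' i)) (y j) = S j i := by
  classical
  have hp := (Fact.out : p.Prime)
  have hprime := pi_prime (p := p) (k := k) z h.hz
  have hπ0 : Ideal.span {1 - z} ≠ ⊥ := by
    rw [Ne, Ideal.span_singleton_eq_bot]
    exact hprime.ne_zero
  have hπp : (Ideal.span {1 - z}).IsPrime := (Ideal.span_singleton_prime hprime.ne_zero).2 hprime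
  have hπm : (Ideal.span {1 - z}).IsMaximal := hπp.isMaximal hπ0
  have hzp := p5b_zp (C := C) h.hz
  -- the targets
  have hw : ∀ i : Fin d, ¬ (1 - z) ∣ ∏ j, (1 + (1 - z) ^ m j) ^ (p - (G j i).val) := by
    intro i h1
    obtain ⟨j, _, hj⟩ := (hprime.dvd_finsetProd_iff _).1 h1
    have h2 := hprime.dvd_of_dvd_pow hj
    have h3 : (1 - z) ∣ (1 - z) ^ m j := dvd_pow_self _ (by have := hm j; omega)
    have h4 := dvd_sub h2 h3
    rw [add_sub_cancel_right] at h4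
    exact hprime.not_isUnit (isUnit_iff_dvd_one.2 h4)
  choose a0 r h1 h2 h3 using fun i : Fin d => stage2_target hp2 h _ (hw i) fun j => S j i
  -- the modulus
  obtain ⟨Fj, hFj⟩ : ∃ Fj : Fin t × (ZMod (p ^ (k + 1)))ˣ → Ideal (𝓞 C), ∀ j a, Fj (j, a) =
      (Q j).comap (sga (p ^ (k + 1)) C a : 𝓞 C →+* 𝓞 C) := ⟨fun ja =>
        (Q ja.1).comap (sga (p ^ (k + 1)) C ja.2 : 𝓞 C →+* 𝓞 C), fun _ _ => rfl⟩
  obtain ⟨N, hN⟩ : ∃ N : Ideal (𝓞 C), N = ∏ ja, Fj ja := ⟨_, rfl⟩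
  have hN0 : N ≠ ⊥ := by
    rw [hN, ← Ideal.zero_eq_bot, Ne, Finset.prod_eq_zero_iff]
    rintro ⟨⟨j, a⟩, _, h4⟩
    rw [hFj] at h4
    exact p5b_comap_ne_bot (h.nprime j) a h4
  have hNle : ∀ j a, N ≤ (Q j).comap (sga (p ^ (k + 1)) C a : 𝓞 C →+* 𝓞 C) := by
    intro j a
    rw [hN, ← hFj]
    exact p5b_prod_le Fj (j, a)
  have hmod0 : Ideal.span {1 - z} ^ (p ^ (k + 1)) * N ≠ ⊥ := by
    rw [← Ideal.zero_eq_bot] at hπ0 hN0 ⊢
    exact mul_ne_zero (pow_ne_zero _ hπ0) hN0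
  have hcop : ∀ i, IsCoprime (Ideal.span {a0 i}) (Ideal.span {1 - z} ^ (p ^ (k + 1)) * N) := by
    intro i
    refine IsCoprime.mul_right (IsCoprime.pow_right (p5b_coprime hπm ?_)) ?_
    · rw [Ideal.mem_span_singleton]
      intro h4
      have h5 : (1 - z) ∣ (1 - z) ^ (p ^ (k + 1)) := dvd_pow_self _ (pow_ne_zero _ hp.ne_zero)
      have h6 := dvd_sub h4 (h5.trans (h1 i))
      rw [sub_sub_cancel] at h6
      exact hw i h6
    · rw [hN]
      refine IsCoprime.prod_right ?_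
      rintro ⟨j, a⟩ _
      rw [hFj]
      have hp1 := h.prime j
      have hp2' : ((Q j).comap (sga (p ^ (k + 1)) C a : 𝓞 C →+* 𝓞 C)).IsPrime :=
        Ideal.comap_isPrime _ _
      refine p5b_coprime (hp2'.isMaximal (p5b_comap_ne_bot (h.nprime j) a)) ?_
      intro h4
      by_cases ha : a = 1
      · rw [ha, p5b_comap_one] at h4
        have h5 := Ideal.sub_mem _ h4 (h2 i j).2.1
        rw [sub_sub_cancel] at h5
        exact (h2 i j).1 h5
      · have h5 := Ideal.sub_mem _ h4 (h3 i j a ha)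
        rw [sub_sub_cancel] at h5
        exact hp2'.ne_top ((Ideal.eq_top_iff_one _).2 h5)
  obtain ⟨Q', g', e', b', hQ', hinj'⟩ := exists_primes C p hp2 _ hmod0 d a0 hcop
    (p + ∑ j, Ideal.absNorm (Q j))
  have hBQ : ∀ j, Ideal.absNorm (Q j) ≤ p + ∑ j, Ideal.absNorm (Q j) := fun j =>
    (Finset.single_le_sum (f := fun j => Ideal.absNorm (Q j)) (fun _ _ => Nat.zero_le _)
      (Finset.mem_univ j)).trans (Nat.le_add_left _ _)
  have hnp : ∀ i, Ideal.absNorm (Q' i) ≠ p := by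
    intro i h4
    have h5 := (hQ' i).2.2.1
    rw [h4] at h5
    omega
  choose P' hP' hPQ' using fun i => exists_P (Ω := Ω) (Q' i) (hQ' i).1 (p5b_ne_bot (hQ' i).2.1)
  have hx' : ∀ i, ∃ σ ∈ HC Ω p k, σ ∈ inG (P' i) ∧
      kum Ω C p (z ^ (p ^ k)) (eg C p k (g' i)) σ ≠ 0 := by
    intro i
    obtain ⟨q1, q2, q3, q4, q5, q6, q7, q8⟩ := hQ' i
    refine exists_tame _ hzp (P' i) (hP' i) _ (eg_ne_zero _ q4) ?_
    rw [hPQ']
    exact p5b_v q1 q2 (hnp i) q4 q6 q7 q8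
  choose x' hx1 hx2 hx3 using hx'
  have hdvd : ∀ i, (1 - z) ^ (p ^ (k + 1)) ∣ g' i - a0 i := by
    intro i
    rw [← Ideal.mem_span_singleton, ← Ideal.span_singleton_pow]
    exact p5b_m1 (hQ' i).2.2.2.2.1
  have hmemQ : ∀ i j a, g' i - a0 i ∈
      (Q j).comap (sga (p ^ (k + 1)) C a : 𝓞 C →+* 𝓞 C) := fun i j a =>
    hNle j a (p5b_m2 (hQ' i).2.2.2.2.1)
  refine ⟨Q', g', e', b', P', x', ?_, ?_, ?_⟩
  · refine
      { hz := h.hz
        prime := ?_
        nprime := ?_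
        nep := ?_
        inj := ?_
        gne := ?_
        e1 := ?_
        e2 := ?_
        fact := ?_
        Pm := ?_
        PQ := ?_
        xH := ?_
        xP := ?_
        xk := ?_ }
    · rintro (j | i)
      · exact h.prime j
      · exact (hQ' i).1
    · rintro (j | i)
      · exact h.nprime j
      · exact (hQ' i).2.1
    · rintro (j | i)
      · exact h.nep j
      · exact hnp i
    · rintro (j | i) (j' | i') h4
      · exact congrArg Sum.inl (h.inj j j' h4)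
      · exfalso
        change Ideal.absNorm (Q j) = Ideal.absNorm (Q' i') at h4
        have h5 := (hQ' i').2.2.1
        rw [← h4] at h5
        exact absurd (hBQ j) (not_le.2 h5)
      · exfalso
        change Ideal.absNorm (Q' i) = Ideal.absNorm (Q j') at h4
        have h5 := (hQ' i).2.2.1
        rw [h4] at h5
        exact absurd (hBQ j') (not_le.2 h5)
      · exact congrArg Sum.inr (hinj' i i' h4)
    · rintro (j | i)
      · exact h.gne j
      · exact (hQ' i).2.2.2.1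
    · rintro (j | i)
      · exact h.e1 j
      · exact (hQ' i).2.2.2.2.2.1
    · rintro (j | i)
      · exact h.e2 j
      · exact (hQ' i).2.2.2.2.2.2.1
    · rintro (j | i)
      · exact h.fact j
      · exact (hQ' i).2.2.2.2.2.2.2
    · rintro (j | i)
      · exact h.Pm j
      · exact hP' i
    · rintro (j | i)
      · exact h.PQ j
      · exact hPQ' i
    · rintro (j | i)
      · exact h.xH j
      · exact hx1 i
    · rintro (j | i)
      · exact h.xP j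
      · exact hx2 i
    · rintro (j | i)
      · exact h.xk j
      · exact hx3 i
  · intro i
    have h4 := dvd_add (hdvd i) (h1 i)
    rwa [sub_add_sub_cancel] at h4
  · intro j i
    have hPj := h.PQ j
    refine kum_frob_eq _ hzp (P j) (h.Pm j) (by rw [hPj]; exact h.nprime j)
      (by rw [hPj]; exact h.nep j) (y j) (by rw [hPj]; exact (hy j).2) (hy j).1 _ (r i j)
      (by rw [hPj]; exact (h2 i j).1) ?_ _ (by rw [hPj]; exact (h2 i j).2.2)
    rw [hPj]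
    refine eg_residue (Q j) _ _ ?_ fun a _ ha => ?_
    · have h4 := hmemQ i j 1
      rw [p5b_comap_one] at h4
      have h5 := Ideal.add_mem _ h4 (h2 i j).2.1
      rwa [sub_add_sub_cancel] at h5
    · have h5 := Ideal.add_mem _ (hmemQ i j a) (h3 i j a ha)
      rw [sub_add_sub_cancel, Ideal.mem_comap, map_sub, map_one] at h5
      exact h5

end Pool.Agent.MPca71X
end

section
set_option autoImplicit false
open scoped NumberField
open NumberField

/-! Job P6a (medium-easy): the data of the abstract theorem (paper 286, section 5). -/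

namespace Pool.Agent.MPca71X

open Pool.Agent.MPca71W

variable {Ω C : Type} [Field Ω] [Algebra ℚ Ω] [IsAlgClosed Ω] [Algebra.IsAlgebraic ℚ Ω] {p k : ℕ}
  [Fact p.Prime] [Field C] [NumberField C] [IsCyclotomicExtension {p ^ (k + 1)} ℚ C] [Algebra C Ω]
  [IsScalarTower ℚ C Ω]

/-- Powers of elements of `inG P`. -/
private theorem p6a_inG_pow {Ω : Type} [Field Ω] [Algebra ℚ Ω] [IsAlgClosed Ω]
    (P : Ideal (𝓞 Ω)) (g : Ω ≃ₐ[ℚ] Ω) (hg : g ∈ inG P) (n : ℕ) : g ^ n ∈ inG P := by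
  induction n with
  | zero =>
    intro x
    refine ⟨0, P.zero_mem, ?_⟩
    simp
  | succ n ih =>
    rw [pow_succ]
    exact inG_mul P _ _ ih hg

private theorem p6a_one {p : ℕ} {Γ : Type} [Group Γ] {f : Γ → ZMod p} (hf : f ∈ chs p Γ) :
    f 1 = 0 := by
  have h1 : f (1 * 1) = f 1 + f 1 := hf 1 1
  rw [mul_one] at h1
  simpa using h1

private theorem p6a_inv {p : ℕ} {Γ : Type} [Group Γ] {f : Γ → ZMod p} (hf : f ∈ chs p Γ) (a : Γ) :
    f a⁻¹ = - f a := by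
  have h1 : f (a * a⁻¹) = f a + f a⁻¹ := hf a a⁻¹
  rw [mul_inv_cancel, p6a_one hf] at h1
  exact (neg_eq_of_add_eq_zero_right h1.symm).symm

private theorem p6a_mul {p : ℕ} {Γ : Type} [Group Γ] {f : Γ → ZMod p} (hf : f ∈ chs p Γ)
    (a b : Γ) : f (a * b) = f a + f b := hf a b

private theorem p6a_K0n {d : ℕ} (χ : Fin d → (GF Ω p k) → ZMod p)
    (hχ : ∀ i, χ i ∈ chs p (GF Ω p k)) : (K0 Ω p k χ hχ).Normal := by
  refine ⟨fun n hn g => ?_⟩
  have hn' : ∑ i, χ i n = 0 := hn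
  show ∑ i, χ i (g * n * g⁻¹) = 0
  rw [← hn']
  refine Finset.sum_congr rfl fun i _ => ?_
  rw [p6a_mul (hχ i), p6a_mul (hχ i), p6a_inv (hχ i)]
  ring

private theorem p6a_K0o {d : ℕ} (χ : Fin d → (GF Ω p k) → ZMod p)
    (hχ : ∀ i, χ i ∈ chs p (GF Ω p k)) (hχo : ∀ i, IsOpen {σ : GF Ω p k | χ i σ = 0}) :
    IsOpen (K0 Ω p k χ hχ : Set (GF Ω p k)) := by
  refine Subgroup.isOpen_of_mem_nhds _ (g := 1) ?_
  have h1 : IsOpen (⋂ i, {σ : GF Ω p k | χ i σ = 0}) := isOpen_iInter_of_finite hχo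
  refine Filter.mem_of_superset (h1.mem_nhds ?_) ?_
  · rw [Set.mem_iInter]
    exact fun i => p6a_one (hχ i)
  · intro g hg
    rw [Set.mem_iInter] at hg
    exact Finset.sum_eq_zero fun i _ => hg i

private theorem p6a_K0i {d : ℕ} (χ : Fin d → (GF Ω p k) → ZMod p)
    (hχ : ∀ i, χ i ∈ chs p (GF Ω p k)) (w : GF Ω p k) (hw : ∑ i, χ i w ≠ 0) :
    (K0 Ω p k χ hχ).index = p := by
  have hpr : p.Prime := Fact.out
  let F : (GF Ω p k) →* Multiplicative (ZMod p) :=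
    { toFun := fun g => Multiplicative.ofAdd (∑ i, χ i g)
      map_one' := by
        rw [Finset.sum_eq_zero fun i _ => p6a_one (hχ i)]
        rfl
      map_mul' := fun a b => by
        rw [← ofAdd_add, ← Finset.sum_add_distrib]
        exact congrArg _ (Finset.sum_congr rfl fun i _ => p6a_mul (hχ i) a b) }
  have hF : ∀ g, F g = Multiplicative.ofAdd (∑ i, χ i g) := fun g => rfl
  have hker : K0 Ω p k χ hχ = F.ker := by
    ext g
    rw [MonoidHom.mem_ker, hF]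
    constructor
    · intro h
      have h' : ∑ i, χ i g = 0 := h
      rw [h']
      rfl
    · intro h
      show ∑ i, χ i g = 0
      exact Multiplicative.ofAdd.injective h
  have hsurj : Function.Surjective F := by
    intro c
    refine ⟨w ^ (Multiplicative.toAdd c * (∑ i, χ i w)⁻¹).val, ?_⟩
    rw [map_pow, hF, ← ofAdd_nsmul, nsmul_eq_mul, ZMod.natCast_zmod_val, mul_assoc,
      inv_mul_cancel₀ hw, mul_one]
    rfl
  rw [hker, Subgroup.index_ker, MonoidHom.range_eq_top.2 hsurj, Subgroup.card_top]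
  exact (Nat.card_congr Multiplicative.toAdd).trans (Nat.card_zmod p)

/-- Everything except `good`, for given primes and characters: `Iconj` from `inG_conj_prime`, `Ipow`
from `inG_pow` (ntW/RED4), `K0` is the kernel of a homomorphism onto `ZMod p`
(`∑ χ_i (x s) = kum (eg (g s)) (x s) ≠ 0` by `kum_bt_x`, `wt_sum`; there is some `s` as `1 ≤ d`),
`U` is `GF_U`, `GEN` is `gen_char`, `xy`: `y_j x_j⁻¹ y_j⁻¹ ∈ inG (P j)` (`inG_frob_conj`, ntW/KD),
commutators of `GF` are in `K0`; `chx` by `kum_bt_x`, `chy` by `kum_bt`. -/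
theorem fm_data (hp2 : p ≠ 2) {t d r : ℕ} (hd : 1 ≤ d) {z : 𝓞 C}
    {Q : Fin t ⊕ Fin d → Ideal (𝓞 C)}
    {g : Fin t ⊕ Fin d → 𝓞 C} {e : Fin t ⊕ Fin d → ℕ} {b : Fin t ⊕ Fin d → Ideal (𝓞 C)}
    {P : Fin t ⊕ Fin d → Ideal (𝓞 Ω)} {x : Fin t ⊕ Fin d → (Ω ≃ₐ[ℚ] Ω)}
    (h : PDat p k z Q g e b P x) {G : Matrix (Fin t) (Fin d) (ZMod p)} {m : Fin t → ℕ}
    (hc : CDat p k z g G m) (hG : ∀ j, ∑ i, G j i = 1)
    (χ : Fin d → (GF Ω p k) → ZMod p) (hχ : ∀ i, χ i ∈ chs p (GF Ω p k))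
    (hχo : ∀ i, IsOpen {σ : GF Ω p k | χ i σ = 0})
    (hχ2 : ∀ i (σ : GF Ω p k), (σ : Ω ≃ₐ[ℚ] Ω) ∈ HC Ω p k →
      χ i σ = kum Ω C p (z ^ (p ^ k)) (bt C p k g G i) (σ : Ω ≃ₐ[ℚ] Ω))
    (y : Fin t → (Ω ≃ₐ[ℚ] Ω))
    (hy : ∀ j, y j ∈ HC Ω p k ∧ ∀ w : 𝓞 Ω, ∃ v : 𝓞 Ω, v ∈ P (Sum.inl j) ∧
        y j (w : Ω) - (w : Ω) ^ (Ideal.absNorm (Q (Sum.inl j))) = (v : Ω))
    (S : Matrix (Fin t) (Fin d) (ZMod p))
    (hS : ∀ j i, kum Ω C p (z ^ (p ^ k)) (eg C p k (g (Sum.inr i))) (y j) = S j i)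
    (hgood : GoodS p t d r G S
      (fun j j' => kum Ω C p (z ^ (p ^ k)) (eg C p k (g (Sum.inl j'))) (y j))) :
    ∃ (x' y' : Fin t → GF Ω p k) (u : Fin t → ZMod p),
      FMData p t d r (GF Ω p k) (IS Ω p k) (K0 Ω p k χ hχ) χ x' y' u G S
        (fun j j' => kum Ω C p (z ^ (p ^ k)) (eg C p k (g (Sum.inl j'))) (y j)) := by
  have hpr : p.Prime := Fact.out
  have hxH : ∀ s, x s ∈ GF Ω p k := fun s => HC_le_GF Ω p k (h.xH s)
  have hyH : ∀ j, y j ∈ GF Ω p k := fun j => HC_le_GF Ω p k (hy j).1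
  refine ⟨fun j => ⟨x (Sum.inl j), hxH _⟩, fun j => ⟨y j, hyH j⟩,
    fun j => kum Ω C p (z ^ (p ^ k)) (eg C p k (g (Sum.inl j))) (x (Sum.inl j)), ?_⟩
  have hchx : ∀ i (s : Fin t ⊕ Fin d), χ i ⟨x s, hxH s⟩ =
      wt G s i * kum Ω C p (z ^ (p ^ k)) (eg C p k (g s)) (x s) := by
    intro i s
    rw [hχ2 i ⟨x s, hxH s⟩ (h.xH s)]
    exact kum_bt_x h G i s
  refine
    { Iconj := ?_
      Ipow := ?_
      K0n := p6a_K0n χ hχ
      K0o := p6a_K0o χ hχ hχo
      K0i := ?_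
      U := fun N hN hNo hNp hNI => GF_U N hN hNo hNp hNI
      GEN := fun φ hφ hφo hφ0 => gen_char hp2 h hc hG χ hχ hχ2 φ hφ hφo hφ0
      xy := ?_
      chx := ?_
      une := fun j => h.xk (Sum.inl j)
      chy := ?_
      good := hgood }
  · rintro s ⟨P', hP', hs⟩ τ
    obtain ⟨P'', hP'', -, hconj⟩ := inG_conj_prime P' hP' (τ : Ω ≃ₐ[ℚ] Ω)
    exact ⟨P'', hP'', hconj _ hs⟩
  · rintro s ⟨P', hP', hs⟩ n
    exact ⟨P', hP', p6a_inG_pow P' _ hs n⟩
  · refine p6a_K0i χ hχ ⟨x (Sum.inr ⟨0, hd⟩), hxH _⟩ ?_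
    rw [Finset.sum_congr rfl fun i _ => hchx i (Sum.inr ⟨0, hd⟩), ← Finset.sum_mul,
      wt_sum G hG, one_mul]
    exact h.xk _
  · intro j
    constructor
    · refine ⟨P (Sum.inl j), h.Pm _, ?_⟩
      have : Fact (Ideal.absNorm (Q (Sum.inl j))).Prime := ⟨h.nprime _⟩
      have h1 := h.xP (Sum.inl j)
      have h2 := inG_inv (P (Sum.inl j)) _ h1
      have h3 := (inG_frob_conj (Ideal.absNorm (Q (Sum.inl j))) (P (Sum.inl j)) (h.Pm _) (y j)
        (hy j).2 _ h2).2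
      have h4 := inG_mul (P (Sum.inl j)) _ _ h1 h3
      have e : x (Sum.inl j) * (y j * (x (Sum.inl j))⁻¹ * (y j)⁻¹) =
          x (Sum.inl j) * y j * (x (Sum.inl j))⁻¹ * (y j)⁻¹ := by group
      rw [e] at h4
      exact h4
    · show ∑ i, χ i (⟨x (Sum.inl j), hxH _⟩ * ⟨y j, hyH j⟩ * (⟨x (Sum.inl j), hxH _⟩)⁻¹ *
        (⟨y j, hyH j⟩)⁻¹) = 0
      refine Finset.sum_eq_zero fun i _ => ?_
      rw [p6a_mul (hχ i), p6a_mul (hχ i), p6a_mul (hχ i), p6a_inv (hχ i), p6a_inv (hχ i)]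
      ring
  · intro i j
    rw [hchx i (Sum.inl j), mul_comm]
    rfl
  · intro i j
    rw [hχ2 i ⟨y j, hyH j⟩ (hy j).1, ← hS j i]
    exact kum_bt h G i (y j) (hy j).1

end Pool.Agent.MPca71X
end

section
set_option autoImplicit false
open scoped NumberField
open NumberField

/-! Existence of the data for prescribed matrices `G` (row sums `1`) and `Y`
(MP_ca71b5_nt, helper46, paper 557). -/

namespace Pool.Agent.MPca71Y

open Pool.Agent.MPca71W Pool.Agent.MPca71X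

variable {Ω C : Type} [Field Ω] [Algebra ℚ Ω] [IsAlgClosed Ω] [Algebra.IsAlgebraic ℚ Ω] {p k : ℕ}
  [Fact p.Prime] [Field C] [NumberField C] [IsCyclotomicExtension {p ^ (k + 1)} ℚ C] [Algebra C Ω]
  [IsScalarTower ℚ C Ω]

/-- The data for prescribed matrices `G` and `Y`: the residues `S` are chosen as
`S j i = Y j i - ∑ j', G j' i * f j j'`. -/
theorem exists_FMD (hp2 : p ≠ 2) (z : 𝓞 C) (hz : IsPrimitiveRoot z (p ^ (k + 1))) (t d : ℕ)
    (hd : 1 ≤ d) (ht : t + 1 ≤ p ^ k) (G Y : Matrix (Fin t) (Fin d) (ZMod p))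
    (hG : ∀ j, ∑ i, G j i = 1) :
    ∃ (χ : Fin d → (GF Ω p k) → ZMod p) (hχ : ∀ i, χ i ∈ chs p (GF Ω p k))
      (x y : Fin t → GF Ω p k) (u : Fin t → ZMod p) (w : Fin d → GF Ω p k),
      FMD p t d (GF Ω p k) (IS Ω p k) (K0 Ω p k χ hχ) χ x y u G Y w ∧
      ∀ σ ∈ IS Ω p k, σ ∈ K0 Ω p k χ hχ → ∀ i, χ i σ = 0 := by
  classical
  have hpr : p.Prime := Fact.out
  have hzp : IsPrimitiveRoot (z ^ (p ^ k)) p := hz.pow (pow_pos hpr.pos _) (pow_succ p k)
  obtain ⟨m, Q, g, e, b, P, x, y, h1, minj, hm, hcl, hy⟩ :=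
    stage1 (Ω := Ω) hp2 z hz t ht
  obtain ⟨f, hf⟩ : ∃ f : Fin t → Fin t → ZMod p, ∀ j j', f j j' =
      kum Ω C p (z ^ (p ^ k)) (eg C p k (g j')) (y j) := ⟨_, fun _ _ => rfl⟩
  obtain ⟨S, hSdef⟩ : ∃ S : Matrix (Fin t) (Fin d) (ZMod p), ∀ j i, S j i =
      Y j i - ∑ j', G j' i * f j j' :=
    ⟨Matrix.of fun j i => Y j i - ∑ j', G j' i * f j j', fun _ _ => rfl⟩
  obtain ⟨Q', g', e', b', P', x', h2, hcr, hsym⟩ :=
    stage2 (Ω := Ω) hp2 h1 m (fun j => (hm j).1) y hy G S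
  have hc : CDat p k z (Sum.elim g g') G m :=
    ⟨minj, fun j => (hm j).1, fun j => (hm j).2.1, fun j => (hm j).2.2.1,
      fun j => (hm j).2.2.2, fun j => hcl j, fun i => hcr i⟩
  have hch := fun i => exists_chi (Ω := Ω) (z ^ (p ^ k)) hzp (bt C p k (Sum.elim g g') G i)
    (bt_ne_zero h2 G i) (bt_Eig h2 G i)
  choose χ hχ hχ2 hχo using hch
  have hgood : GoodS p t d 0 G S f := by
    intro U C hne
    refine absurd ?_ hne
    ext i j
    rw [Matrix.mul_apply]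
    simp
  have hgood' : GoodS p t d 0 G S (fun j j' => kum Ω C p (z ^ (p ^ k))
      (eg C p k ((Sum.elim g g') (Sum.inl j'))) (y j)) := by
    have e1 : (fun j j' => kum Ω C p (z ^ (p ^ k))
        (eg C p k ((Sum.elim g g') (Sum.inl j'))) (y j)) = f := by
      funext j j'
      rw [hf]
      rfl
    rw [e1]
    exact hgood
  obtain ⟨x1, y1, u, hFM⟩ := fm_data hp2 hd h2 hc hG χ hχ hχo hχ2 y (fun j => hy j) S
    (fun j i => hsym j i) hgood'
  refine ⟨χ, hχ, x1, y1, u, fun i => ⟨x' i, HC_le_GF Ω p k (h2.xH (Sum.inr i))⟩, ?_, ?_⟩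
  · refine
      { Iconj := hFM.Iconj
        Ipow := hFM.Ipow
        K0n := hFM.K0n
        K0o := hFM.K0o
        K0i := hFM.K0i
        U := hFM.U
        GEN := hFM.GEN
        xy := hFM.xy
        chs := hχ
        chx := hFM.chx
        une := hFM.une
        chy := ?_
        dual := ?_
        opn := hχo
        DK := ?_ }
    · intro i j
      rw [hFM.chy i j, hSdef]
      have e1 : ∀ j', kum Ω C p (z ^ (p ^ k))
          (eg C p k ((Sum.elim g g') (Sum.inl j'))) (y j) = f j j' := by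
        intro j'
        rw [hf]
        rfl
      have e3 : ∑ j', G j' i * kum Ω C p (z ^ (p ^ k))
          (eg C p k ((Sum.elim g g') (Sum.inl j'))) (y j) = ∑ j', G j' i * f j j' :=
        Finset.sum_congr rfl fun j' _ => by rw [e1 j']
      rw [e3, sub_add_cancel]
    · intro i i'
      have e1 : χ i ⟨x' i', HC_le_GF Ω p k (h2.xH (Sum.inr i'))⟩ =
          wt G (Sum.inr i') i * kum Ω C p (z ^ (p ^ k)) (eg C p k (g' i')) (x' i') := by
        rw [hχ2 i _ (h2.xH (Sum.inr i'))]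
        exact kum_bt_x h2 G i (Sum.inr i')
      have hne : kum Ω C p (z ^ (p ^ k)) (eg C p k (g' i')) (x' i') ≠ 0 := h2.xk (Sum.inr i')
      change (χ i ⟨x' i', HC_le_GF Ω p k (h2.xH (Sum.inr i'))⟩ ≠ 0) ↔ i = i'
      rw [e1]
      have e2 : wt G (Sum.inr i') i = if i' = i then (1 : ZMod p) else 0 := rfl
      rw [e2]
      by_cases h : i' = i
      · rw [if_pos h, one_mul]
        exact ⟨fun _ => h.symm, fun _ => hne⟩
      · rw [if_neg h, zero_mul]
        exact ⟨fun h3 => absurd rfl h3, fun h3 => absurd h3.symm h⟩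
    · intro g0 hg0
      exact Finset.sum_eq_zero fun i _ => hg0 i
  · intro σ hσ h0 i
    exact chi_inertial h2 hc hG χ hχ hχ2 σ hσ h0 i

end Pool.Agent.MPca71Y
end

section
set_option autoImplicit false
open scoped NumberField
open NumberField

/-! The group theoretic package for representations over discrete valuation rings
(MP_ca71b5_nt, helper46, paper 557; compare ntX/P7). -/

namespace Pool.Agent.MPca71Y

open Pool.Agent.MPca71W Pool.Agent.MPca71X IsLocalRing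

private theorem N2_one {Γ : Type} [Group Γ] {p : ℕ} {χ : Γ → ZMod p} (h : χ ∈ chs p Γ) : χ 1 = 0 := by
  have := h 1 1
  rw [mul_one] at this
  exact left_eq_add.1 this

private theorem N2_inv {Γ : Type} [Group Γ] {p : ℕ} {χ : Γ → ZMod p} (h : χ ∈ chs p Γ) (g : Γ) :
    χ g⁻¹ = - χ g := by
  have h1 := h g g⁻¹
  rw [mul_inv_cancel, N2_one h] at h1
  exact (neg_eq_of_add_eq_zero_right h1.symm).symm

private theorem N2_pow {Γ : Type} [Group Γ] {p : ℕ} {χ : Γ → ZMod p} (h : χ ∈ chs p Γ) (g : Γ)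
    (m : ℕ) : χ (g ^ m) = (m : ZMod p) * χ g := by
  induction m with
  | zero => rw [pow_zero, N2_one h, Nat.cast_zero, zero_mul]
  | succ m ih =>
    rw [pow_succ, h, ih]
    push_cast
    ring

/-- the common kernel of additive characters -/
private def N2_D {Γ : Type} [Group Γ] (p d : ℕ) (χ : Fin d → Γ → ZMod p)
    (hχ : ∀ i, χ i ∈ chs p Γ) : Subgroup Γ where
  carrier := {g | ∀ i, χ i g = 0}
  one_mem' := fun i => N2_one (hχ i)
  mul_mem' := fun {a b} ha hb i => by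
    rw [hχ i a b, ha i, hb i, add_zero]
  inv_mem' := fun {a} ha i => by
    rw [N2_inv (hχ i), ha i, neg_zero]

private theorem N2_index {Γ : Type} [Group Γ] {p d : ℕ} [Fact p.Prime] (χ : Fin d → Γ → ZMod p)
    (hχ : ∀ i, χ i ∈ chs p Γ) (w : Fin d → Γ) (hw : ∀ i i', (χ i (w i') ≠ 0 ↔ i = i')) :
    (N2_D p d χ hχ).index = p ^ d := by
  classical
  let F : Γ →* Multiplicative (Fin d → ZMod p) :=
    { toFun := fun g => Multiplicative.ofAdd (fun i => χ i g)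
      map_one' := by
        have h1 : (fun i => χ i (1 : Γ)) = 0 := by
          funext i
          exact N2_one (hχ i)
        rw [h1, ofAdd_zero]
      map_mul' := fun x y => by
        have h1 : (fun i => χ i (x * y)) = (fun i => χ i x) + (fun i => χ i y) := by
          funext i
          exact hχ i x y
        rw [h1, ofAdd_add] }
  have hF : ∀ g, F g = Multiplicative.ofAdd (fun i => χ i g) := fun _ => rfl
  have hker : N2_D p d χ hχ = F.ker := by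
    ext g
    rw [MonoidHom.mem_ker, hF]
    constructor
    · intro h
      have h1 : (fun i => χ i g) = 0 := by
        funext i
        exact h i
      rw [h1, ofAdd_zero]
    · intro h i
      have h1 : (fun i => χ i g) = 0 := Multiplicative.ofAdd.injective (h.trans ofAdd_zero.symm)
      exact congrFun h1 i
  have htop : F.range = ⊤ := by
    rw [eq_top_iff]
    intro v _
    have hv : v = ∏ i, Multiplicative.ofAdd (Pi.single i (Multiplicative.toAdd v i)) := by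
      rw [← ofAdd_sum, Finset.univ_sum_single]
      rfl
    rw [hv]
    refine Subgroup.prod_mem _ fun i _ => ?_
    refine ⟨w i ^ (Multiplicative.toAdd v i / χ i (w i)).val, ?_⟩
    rw [hF]
    congr 1
    funext j
    rw [N2_pow (hχ j), ZMod.natCast_zmod_val]
    by_cases hj : j = i
    · subst hj
      rw [Pi.single_eq_same]
      exact div_mul_cancel₀ _ ((hw j j).2 rfl)
    · have h0 : χ j (w i) = 0 := by
        by_contra hne
        exact hj ((hw j i).1 hne)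
      rw [h0, mul_zero, Pi.single_eq_of_ne hj]
  rw [hker, Subgroup.index_ker, htop, Subgroup.card_top, Nat.card_congr Multiplicative.toAdd,
    Nat.card_fun, Nat.card_zmod, Nat.card_eq_fintype_card, Fintype.card_fin]

private theorem N2_root (C : Type) [Field C] [NumberField C] (n : ℕ) [NeZero n]
    [IsCyclotomicExtension {n} ℚ C] : ∃ z : 𝓞 C, IsPrimitiveRoot z n :=
  ⟨_, (IsCyclotomicExtension.zeta_spec n ℚ C).toInteger_isPrimitiveRoot⟩

private theorem N2_k (p t : ℕ) (hp : 2 ≤ p) (ht : 1 ≤ t) :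
    ∃ k : ℕ, t + 1 ≤ p ^ k ∧ p ^ (k + 1) ≤ p ^ 2 * t := by
  have hex : ∃ k : ℕ, t + 1 ≤ p ^ k := ⟨t, Nat.succ_le_of_lt (Nat.lt_pow_self hp)⟩
  classical
  refine ⟨Nat.find hex, Nat.find_spec hex, ?_⟩
  have h1 : Nat.find hex ≠ 0 := by
    intro h0
    have := Nat.find_spec hex
    rw [h0, pow_zero] at this
    omega
  obtain ⟨j, hj⟩ := Nat.exists_eq_succ_of_ne_zero h1
  have h2 : ¬ t + 1 ≤ p ^ j := Nat.find_min hex (by omega)
  rw [hj]
  have h3 : p ^ (j.succ + 1) = p ^ 2 * p ^ j := by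
    rw [Nat.succ_eq_add_one]
    ring
  rw [h3]
  exact Nat.mul_le_mul_left _ (by omega)

/-- Take `k` minimal with `t + 1 ≤ p ^ k`, `t = d (1 + 2 (p n)² a²)`; then `p ^ (k + 1) ≤ p ^ 2 t`.
`G`, `Y` from `exists_goodK`, the data from `exists_FMD`. `KK` is the image of `K0` in `Gal(Ω/ℚ)`,
`DD` the image of the common kernel of the `χ_i`. For `ρ` on `KK ≃ K0`: `fm_finite_R`. -/
theorem exists_package_R (Ω : Type) [Field Ω] [Algebra ℚ Ω] [IsAlgClosed Ω]
    [Algebra.IsAlgebraic ℚ Ω] (p : ℕ) [Fact p.Prime] (hp2 : p ≠ 2) (n d a : ℕ) (hd : 1 ≤ d)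
    (ha : 2 * d ≤ p ^ a) :
    ∃ (k : ℕ) (KK DD : Subgroup (Ω ≃ₐ[ℚ] Ω)), DD ≤ KK ∧ IsOpen (KK : Set (Ω ≃ₐ[ℚ] Ω)) ∧
      IsOpen (DD : Set (Ω ≃ₐ[ℚ] Ω)) ∧ KK.index = p ^ (k + 1) ∧
      p ^ (k + 1) ≤ p ^ 2 * (d * (1 + 2 * (p * n) ^ 2 * a ^ 2)) ∧
      DD.relIndex KK = p ^ (d - 1) ∧
      (∀ g ∈ KK, ∀ h ∈ KK, g * h * g⁻¹ * h⁻¹ ∈ DD) ∧ (∀ g ∈ KK, g ^ p ∈ DD) ∧
      (∀ g ∈ KK, Inertial Ω g.toRingEquiv → g ∈ DD) ∧
      ∀ (R : Type) [CommRing R] [IsDomain R] [IsDiscreteValuationRing R]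
        [CharP (ResidueField R) p] (m : ℕ), m ≤ n →
        ∀ ρ : KK →* Matrix.GeneralLinearGroup (Fin m) R,
        (∀ l : ℕ, IsOpen {g : KK | Lv l (ρ g : Matrix (Fin m) (Fin m) R)}) →
        (∀ g : KK, Inertial Ω (g : Ω ≃ₐ[ℚ] Ω).toRingEquiv → ρ g = 1) →
        (∀ (l : ℕ) (g : KK), ∃ j : ℕ, Lv l (ρ (g ^ p ^ j) : Matrix (Fin m) (Fin m) R)) →
        (Set.range ρ).Finite ∧ (∀ g, ρ g ^ p = 1) ∧ ∀ g g', ρ g * ρ g' = ρ g' * ρ g := by
  have hp : p.Prime := Fact.out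
  obtain ⟨k, hk1, hk2⟩ := N2_k p (d * (1 + 2 * (p * n) ^ 2 * a ^ 2)) hp.two_le
    (Nat.mul_pos hd (by omega))
  obtain ⟨C, _, _, _, _, _⟩ := exists_cyc Ω p k
  have _ : NeZero (p ^ (k + 1)) := ⟨pow_ne_zero _ hp.ne_zero⟩
  obtain ⟨z, hz⟩ := N2_root C (p ^ (k + 1))
  obtain ⟨G, Y, hG, hGY⟩ := exists_goodK p d ((p * n) ^ 2) a hd ha
  obtain ⟨χ, hχ, x', y', u, w, hFM, hIn⟩ :=
    exists_FMD (Ω := Ω) (C := C) hp2 z hz (d * (1 + 2 * (p * n) ^ 2 * a ^ 2)) d hd hk1 G Y hG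
  have hχo := hFM.opn
  have hw := hFM.dual
  have hDi := N2_index χ hχ w hw
  have hDo : IsOpen ((N2_D p d χ hχ : Subgroup (GF Ω p k)) : Set (GF Ω p k)) := by
    have h1 : ((N2_D p d χ hχ : Subgroup (GF Ω p k)) : Set (GF Ω p k)) =
        ⋂ i, {σ : GF Ω p k | χ i σ = 0} := by
      ext σ
      rw [Set.mem_iInter]
      exact Iff.rfl
    rw [h1]
    exact isOpen_iInter_of_finite hχo
  have hDK : N2_D p d χ hχ ≤ K0 Ω p k χ hχ := by
    intro σ hσ
    exact Finset.sum_eq_zero fun i _ => hσ i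
  have hGo := GF_open Ω p k
  have hmapo : ∀ H : Subgroup (GF Ω p k), IsOpen (H : Set (GF Ω p k)) →
      IsOpen ((H.map (GF Ω p k).subtype : Subgroup (Ω ≃ₐ[ℚ] Ω)) : Set (Ω ≃ₐ[ℚ] Ω)) := by
    intro H hH
    rw [Subgroup.coe_map]
    exact hGo.isOpenMap_subtype_val _ hH
  have hKi : ((K0 Ω p k χ hχ).map (GF Ω p k).subtype).index = p ^ (k + 1) := by
    rw [Subgroup.index_map_subtype, hFM.K0i, GF_index]
    ring
  have hDi' : ((N2_D p d χ hχ).map (GF Ω p k).subtype).index = p ^ d * p ^ k := by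
    rw [Subgroup.index_map_subtype, hDi, GF_index]
  have hDK' : (N2_D p d χ hχ).map (GF Ω p k).subtype ≤ (K0 Ω p k χ hχ).map (GF Ω p k).subtype :=
    Subgroup.map_mono hDK
  refine ⟨k, (K0 Ω p k χ hχ).map (GF Ω p k).subtype, (N2_D p d χ hχ).map (GF Ω p k).subtype, hDK',
    hmapo _ hFM.K0o, hmapo _ hDo, hKi, hk2, ?_, ?_, ?_, ?_, ?_⟩
  · have h1 := Subgroup.relIndex_mul_index hDK'
    rw [hKi, hDi'] at h1
    obtain ⟨e, rfl⟩ : ∃ e, d = e + 1 := ⟨d - 1, by omega⟩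
    have h2 : p ^ (e + 1) * p ^ k = p ^ e * p ^ (k + 1) := by ring
    rw [h2] at h1
    have h3 := Nat.eq_of_mul_eq_mul_right (pow_pos hp.pos (k + 1)) h1
    rw [h3, Nat.add_sub_cancel]
  · rintro _ ⟨g, hg, rfl⟩ _ ⟨h, hh, rfl⟩
    refine ⟨g * h * g⁻¹ * h⁻¹, ?_, ?_⟩
    · intro i
      rw [hχ i, hχ i, hχ i, N2_inv (hχ i), N2_inv (hχ i)]
      ring
    · simp only [map_mul, map_inv]
  · rintro _ ⟨g, hg, rfl⟩
    refine ⟨g ^ p, ?_, ?_⟩
    · intro i
      rw [N2_pow (hχ i), CharP.cast_eq_zero, zero_mul]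
    · rw [map_pow]
  · rintro _ ⟨g, hg, rfl⟩ hin
    refine ⟨g, ?_, rfl⟩
    intro i
    exact hIn g hin hg i
  · intro R _ _ _ _ m hm ρ hρo hρI hρp
    have hgal : IsGalois ℚ Ω := isGalois_acl
    have hcomp : CompactSpace (GF Ω p k) := by
      have h1 : IsClosed ((GF Ω p k : Subgroup (Ω ≃ₐ[ℚ] Ω)) : Set (Ω ≃ₐ[ℚ] Ω)) :=
        Subgroup.isClosed_of_isOpen _ hGo
      exact isCompact_iff_compactSpace.1 h1.isCompact
    let e : K0 Ω p k χ hχ ≃* (K0 Ω p k χ hχ).map (GF Ω p k).subtype :=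
      (K0 Ω p k χ hχ).equivMapOfInjective (GF Ω p k).subtype Subtype.val_injective
    have he : ∀ g : K0 Ω p k χ hχ, ((e g : (K0 Ω p k χ hχ).map (GF Ω p k).subtype) : Ω ≃ₐ[ℚ] Ω) =
        ((g : GF Ω p k) : Ω ≃ₐ[ℚ] Ω) := fun g => rfl
    have hec : Continuous e := by
      refine continuous_induced_rng.2 ?_
      change Continuous (fun g : K0 Ω p k χ hχ => ((g : GF Ω p k) : Ω ≃ₐ[ℚ] Ω))
      exact continuous_subtype_val.comp continuous_subtype_val
    have hgood : GoodK p (d * (1 + 2 * (p * n) ^ 2 * a ^ 2)) d ((p * m) ^ 2) G Y :=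
      GoodK.mono (Nat.pow_le_pow_left (Nat.mul_le_mul_left p hm) 2) hGY
    have hfin := fm_finite_R (n := m) hFM hgood (ρ.comp e.toMonoidHom)
      (fun l => (hρo l).preimage hec)
      (fun g hg => hρI (e g) (by
        rw [he]
        exact hg))
      (fun l g => by
        obtain ⟨j, hj⟩ := hρp l (e g)
        refine ⟨j, ?_⟩
        have h1 : (ρ.comp e.toMonoidHom) (g ^ p ^ j) = ρ ((e g) ^ p ^ j) := by
          rw [← map_pow]
          rfl
        rw [h1]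
        exact hj)
    obtain ⟨hf1, hf2, hf3⟩ := hfin
    refine ⟨?_, ?_, ?_⟩
    · have h1 : Set.range ρ = Set.range (ρ.comp e.toMonoidHom) := by
        rw [MonoidHom.coe_comp]
        exact (e.surjective.range_comp ρ).symm
      rw [h1]
      exact hf1
    · intro g
      obtain ⟨g', rfl⟩ := e.surjective g
      exact hf2 g'
    · intro g h
      obtain ⟨g', rfl⟩ := e.surjective g
      obtain ⟨h', rfl⟩ := e.surjective h
      exact hf3 g' h'

end Pool.Agent.MPca71Y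
end

section
set_option autoImplicit false
open scoped NumberField
open NumberField

/-! The field `K` (MP_ca71b5_nt, helper46, paper 557; compare ntX/P8). -/

namespace Pool.Agent.MPca71Y

open Pool.Agent.MPca71W Pool.Agent.MPca71X IsLocalRing

/-- `K` is the fixed field of `KK`. -/
theorem field_package_R (Ω : Type) [Field Ω] [Algebra ℚ Ω] [IsAlgClosed Ω]
    [Algebra.IsAlgebraic ℚ Ω] (p : ℕ) [Fact p.Prime] (hp2 : p ≠ 2) (n d a : ℕ) (hd : 1 ≤ d)
    (ha : 2 * d ≤ p ^ a) :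
    ∃ (K : IntermediateField ℚ Ω) (_ : NumberField K),
      Module.finrank ℚ K ≤ p ^ 2 * (d * (1 + 2 * (p * n) ^ 2 * a ^ 2)) ∧
      UnrElem p (d - 1) K Ω ∧
      ∀ (R : Type) [CommRing R] [IsDomain R] [IsDiscreteValuationRing R]
        [CharP (ResidueField R) p] (m : ℕ), m ≤ n →
        ∀ ρ : (Ω ≃ₐ[K] Ω) →* Matrix.GeneralLinearGroup (Fin m) R,
        (∀ l : ℕ, IsOpen {g | Lv l (ρ g : Matrix (Fin m) (Fin m) R)}) → UnrPro p K Ω ρ →
        (Set.range ρ).Finite ∧ (∀ g, ρ g ^ p = 1) ∧ ∀ g g', ρ g * ρ g' = ρ g' * ρ g := by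
  classical
  obtain ⟨k, KK, DD, hle, hKo, hDo, hidx, hbd, hrel, hcomm, hpow, hin, hrho⟩ :=
    exists_package_R Ω p hp2 n d a hd ha
  have hG : IsGalois ℚ Ω := isGalois_acl
  obtain ⟨K, hK⟩ : ∃ K : IntermediateField ℚ Ω, K.fixingSubgroup = KK :=
    ⟨IntermediateField.fixedField KK, InfiniteGalois.fixingSubgroup_fixedField
      (⟨KK, Subgroup.isClosed_of_isOpen _ hKo⟩ : ClosedSubgroup (Ω ≃ₐ[ℚ] Ω))⟩
  subst hK
  have hfd : FiniteDimensional ℚ K := (InfiniteGalois.isOpen_iff_finite K).1 hKo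
  have hnf : NumberField K :=
    { to_charZero := inferInstance
      to_finiteDimensional := by
        convert hfd
        exact Subsingleton.elim _ _ }
  have hfr : Module.finrank ℚ K = p ^ (k + 1) := by
    rw [IntermediateField.finrank_eq_fixingSubgroup_index, hidx]
  have hac : Algebra.IsAlgebraic K Ω := inferInstance
  obtain ⟨φ, hφ, hφ', hφx⟩ := exists_galEquiv K
  have hφsx : ∀ (h : Ω ≃ₐ[K] Ω) (x : Ω), ((φ.symm h : K.fixingSubgroup) : Ω ≃ₐ[ℚ] Ω) x = h x := by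
    intro h x
    rw [← hφx, MulEquiv.apply_symm_apply]
  refine ⟨K, hnf, hfr.le.trans hbd, ?_, ?_⟩
  · let N : Subgroup (Ω ≃ₐ[K] Ω) := (DD.subgroupOf K.fixingSubgroup).comap φ.symm.toMonoidHom
    have hmem : ∀ g : Ω ≃ₐ[K] Ω, g ∈ N ↔ ((φ.symm g : K.fixingSubgroup) : Ω ≃ₐ[ℚ] Ω) ∈ DD :=
      fun g => Iff.rfl
    have hNn : N.Normal := by
      refine ⟨fun a ha g => ?_⟩
      rw [hmem] at ha ⊢
      have h1 := hcomm _ (φ.symm g).2 _ (φ.symm a).2
      have h2 := DD.mul_mem h1 ha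
      rw [inv_mul_cancel_right] at h2
      rw [map_mul, map_mul, map_inv]
      exact h2
    have hNo : IsOpen (N : Set (Ω ≃ₐ[K] Ω)) :=
      (hDo.preimage continuous_subtype_val).preimage hφ'
    have hNI : ∀ h : Ω ≃ₐ[K] Ω, Inertial Ω h.toRingEquiv → h ∈ N := by
      intro h hh
      rw [hmem]
      exact hin _ (φ.symm h).2 (inertial_congr (fun x => (hφsx h x).symm) hh)
    obtain ⟨L, h1, -, h2, h3, h4, h5⟩ := exists_unramified_of_open N hNn hNo hNI
    refine ⟨L, h3, ?_, h5, ?_, ?_⟩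
    · rw [h4]
      change ((DD.subgroupOf K.fixingSubgroup).comap φ.symm.toMonoidHom).index = _
      rw [Subgroup.index_comap_of_surjective _ φ.symm.surjective]
      exact hrel
    · intro g
      have hGK : IsGalois K Ω := isGalois_acl
      have hn : Normal K L := h3.to_normal
      obtain ⟨g', rfl⟩ := AlgEquiv.restrictNormalHom_surjective (F := K) (K₁ := L) Ω g
      rw [← map_pow]
      have h6 : g' ^ p ∈ N := by
        rw [hmem, map_pow]
        exact hpow _ (φ.symm g').2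
      rw [← h1, IntermediateField.mem_fixingSubgroup_iff] at h6
      ext x
      have h7 := h6 (x : Ω) x.2
      have h8 := AlgEquiv.restrictNormal_commutes (g' ^ p) L x
      change ((AlgEquiv.restrictNormal (g' ^ p) L) x : Ω) = x
      exact h8.trans h7
    · intro g₁ g₂
      have hGK : IsGalois K Ω := isGalois_acl
      have hn : Normal K L := h3.to_normal
      obtain ⟨a, rfl⟩ := AlgEquiv.restrictNormalHom_surjective (F := K) (K₁ := L) Ω g₁
      obtain ⟨b, rfl⟩ := AlgEquiv.restrictNormalHom_surjective (F := K) (K₁ := L) Ω g₂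
      have h6 : a * b * a⁻¹ * b⁻¹ ∈ N := by
        rw [hmem, map_mul, map_mul, map_mul, map_inv, map_inv]
        exact hcomm _ (φ.symm a).2 _ (φ.symm b).2
      rw [← h1, IntermediateField.mem_fixingSubgroup_iff] at h6
      have h9 : AlgEquiv.restrictNormalHom (F := K) (K₁ := Ω) L (a * b * a⁻¹ * b⁻¹) = 1 := by
        ext x
        have h7 := h6 (x : Ω) x.2
        have h8 := AlgEquiv.restrictNormal_commutes (a * b * a⁻¹ * b⁻¹) L x
        change ((AlgEquiv.restrictNormal (a * b * a⁻¹ * b⁻¹) L) x : Ω) = x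
        exact h8.trans h7
      rw [map_mul, map_mul, map_mul, map_inv, map_inv, mul_inv_eq_one, mul_inv_eq_iff_eq_mul] at h9
      exact h9
  · intro R _ _ _ _ m hm ρ ho hu
    obtain ⟨r1, r2, r3⟩ := hrho R m hm (ρ.comp φ.toMonoidHom)
      (fun l => (ho l).preimage hφ) (by
      intro g hg
      exact rho_inertial_R ρ ho hu (φ g) (inertial_congr (fun x => (hφx g x).symm) hg)) (by
      intro l g
      obtain ⟨j, hj⟩ := rho_pgroup_R ρ ho hu l (φ g)
      refine ⟨j, ?_⟩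
      have h1 : (ρ.comp φ.toMonoidHom) (g ^ p ^ j) = ρ ((φ g) ^ p ^ j) := by
        change ρ (φ (g ^ p ^ j)) = _
        rw [map_pow]
      rw [h1]
      exact hj)
    have hval : ∀ g : Ω ≃ₐ[K] Ω, ρ g = (ρ.comp φ.toMonoidHom) (φ.symm g) := by
      intro g
      change ρ g = ρ (φ (φ.symm g))
      rw [MulEquiv.apply_symm_apply]
    refine ⟨r1.subset ?_, fun g => ?_, fun g g' => ?_⟩
    · rintro _ ⟨g, rfl⟩
      exact ⟨φ.symm g, (hval g).symm⟩
    · rw [hval]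
      exact r2 _
    · rw [hval g, hval g']
      exact r3 _ _

end Pool.Agent.MPca71Y
end

section
set_option autoImplicit false
open scoped NumberField
open NumberField

/-! The theorem on unramified pro-`p` representations over all discrete valuation rings of residue
characteristic `p` (MP_ca71b5_nt, helper46, paper 557). -/

namespace Pool.Agent.MPca71Y

open Pool.Agent.MPca71W Pool.Agent.MPca71X IsLocalRing

theorem isAdic_padicInt (p : ℕ) [Fact p.Prime] : IsAdic (maximalIdeal ℤ_[p]) := by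
  have hp : p.Prime := Fact.out
  have hmem : ∀ (l : ℕ) (x : ℤ_[p]), x ∈ maximalIdeal ℤ_[p] ^ l ↔ ‖x‖ ≤ (p : ℝ) ^ (-(l : ℤ)) := by
    intro l x
    rw [PadicInt.norm_le_pow_iff_mem_span_pow, PadicInt.maximalIdeal_eq_span_p,
      Ideal.span_singleton_pow]
  rw [isAdic_iff]
  constructor
  · intro l
    have h1 : ((maximalIdeal ℤ_[p] ^ l : Ideal ℤ_[p]) : Set ℤ_[p]) =
        {x | ‖x‖ < (p : ℝ) ^ (-(l : ℤ) + 1)} := by
      ext x
      rw [SetLike.mem_coe, hmem, PadicInt.norm_le_pow_iff_norm_lt_pow_add_one]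
      rfl
    rw [h1]
    exact isOpen_lt continuous_norm continuous_const
  · intro s hs
    obtain ⟨ε, hε, hs'⟩ := Metric.mem_nhds_iff.1 hs
    obtain ⟨l, hl⟩ := PadicInt.exists_pow_neg_lt p hε
    refine ⟨l, fun x hx => hs' ?_⟩
    rw [SetLike.mem_coe, hmem] at hx
    rw [mem_ball_zero_iff]
    exact hx.trans_lt hl

theorem charP_padicInt (p : ℕ) [Fact p.Prime] : CharP (ResidueField ℤ_[p]) p :=
  charP_of_injective_ringHom (f := (PadicInt.residueField (p := p)).symm.toRingHom)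
    (PadicInt.residueField (p := p)).symm.injective p

private theorem N5_isAlg :
    @Algebra.IsAlgebraic ℚ (AlgebraicClosure ℚ) _ _ DivisionRing.toRatAlgebra := by
  have h : (DivisionRing.toRatAlgebra : Algebra ℚ (AlgebraicClosure ℚ)) =
    AlgebraicClosure.instAlgebra ℚ := Subsingleton.elim _ _
  rw [h]
  exact AlgebraicClosure.isAlgebraic ℚ

private theorem N5_finrank {M : Type} [AddCommGroup M] (i j : Module ℚ M) :
    @Module.finrank ℚ M _ _ i = @Module.finrank ℚ M _ _ j := by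
  have h : i = j := Subsingleton.elim _ _
  rw [h]

/-- Representations of dimension `≤ n` over all discrete valuation rings of residue
characteristic `p`, and representations over `ℤ_p` with image of dimension `≤ n`. -/
theorem fm_all (p : ℕ) [Fact p.Prime] (hp2 : p ≠ 2) (n s a : ℕ) (ha : 2 * (s + 1) ≤ p ^ a) :
    ∃ (K : Type) (_ : Field K) (_ : NumberField K),
      Module.finrank ℚ K ≤ p ^ 2 * ((s + 1) * (1 + 2 * (p * n) ^ 2 * a ^ 2)) ∧
      UnrElem p s K (AlgebraicClosure K) ∧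
      (∀ (R : Type) [CommRing R] [IsDomain R] [IsDiscreteValuationRing R] [TopologicalSpace R],
        IsAdic (maximalIdeal R) → CharP (ResidueField R) p → ∀ m ≤ n,
        ∀ ρ : (AlgebraicClosure K ≃ₐ[K] AlgebraicClosure K) →* Matrix.GeneralLinearGroup (Fin m) R,
        Continuous ρ → UnrPro p K (AlgebraicClosure K) ρ →
        (Set.range ρ).Finite ∧ (∀ g, ρ g ^ p = 1) ∧ ∀ g h, ρ g * ρ h = ρ h * ρ g) ∧
      ∀ (m : ℕ) (ρ : (AlgebraicClosure K ≃ₐ[K] AlgebraicClosure K) →*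
          Matrix.GeneralLinearGroup (Fin m) (PadicInt p)),
        Continuous ρ → UnrPro p K (AlgebraicClosure K) ρ →
        Module.finrank ℚ_[p] (lieSpan p ρ) ≤ n → (Set.range ρ).Finite := by
  have := N5_isAlg
  obtain ⟨K, hK, h1, h2, h3⟩ :=
    field_package_R (AlgebraicClosure ℚ) p hp2 n (s + 1) a (by omega) ha
  have : Algebra.IsAlgebraic K (AlgebraicClosure ℚ) :=
    Algebra.IsAlgebraic.tower_top (K := ℚ) K
  have : IsAlgClosure K (AlgebraicClosure ℚ) := ⟨inferInstance, inferInstance⟩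
  have ψ : AlgebraicClosure ℚ ≃ₐ[K] AlgebraicClosure K :=
    IsAlgClosure.equiv K (AlgebraicClosure ℚ) (AlgebraicClosure K)
  have key : ∀ (R : Type) [CommRing R] [IsDomain R] [IsDiscreteValuationRing R]
      [TopologicalSpace R], IsAdic (maximalIdeal R) → CharP (ResidueField R) p → ∀ m ≤ n,
      ∀ ρ : (AlgebraicClosure K ≃ₐ[K] AlgebraicClosure K) →* Matrix.GeneralLinearGroup (Fin m) R,
        Continuous ρ → UnrPro p K (AlgebraicClosure K) ρ →
        (Set.range ρ).Finite ∧ (∀ g, ρ g ^ p = 1) ∧ ∀ g h, ρ g * ρ h = ρ h * ρ g := by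
    intro R _ _ _ _ hR hch m hm ρ hc hu
    obtain ⟨c, hcc, hcu⟩ := exists_transfer p K _ _ ψ
    obtain ⟨r1, r2, r3⟩ := h3 R m hm (ρ.comp c.toMonoidHom)
      (fun l => (isOpen_level hR ρ hc l).preimage hcc) (hcu ρ hu)
    have hval : ∀ g, ρ g = (ρ.comp c.toMonoidHom) (c.symm g) := by
      intro g
      change ρ g = ρ (c (c.symm g))
      rw [MulEquiv.apply_symm_apply]
    refine ⟨r1.subset ?_, fun g => ?_, fun g g' => ?_⟩
    · rintro _ ⟨g, rfl⟩
      exact ⟨c.symm g, (hval g).symm⟩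
    · rw [hval]
      exact r2 _
    · rw [hval g, hval g']
      exact r3 _ _
  refine ⟨K, inferInstance, hK, ?_, ?_, key, ?_⟩
  · exact (le_of_eq (N5_finrank _ _)).trans h1
  · exact unrElem_transfer p (s + 1 - 1) K _ _ ψ h2
  · intro m ρ hc hu hd
    refine finite_of_dim p hp2 n (fun m' hm' ρ' hc' hu' => ?_) m ρ hc hu hd
    exact (key ℤ_[p] (isAdic_padicInt p) (charP_padicInt p) m' hm' ρ' hc' hu').1

end Pool.Agent.MPca71Y
end
end
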